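import Pool.Agent.Q117.PL.Stm
import Pool.Agent.Q117.MG.Mga
import Pool.Agent.H39R3.PB.Basic

/-!
Project PL (helper117), job AVM: the average of the singular factor over a window of middle blocks.
-/

set_option autoImplicit false

namespace Pool.Agent.Q117.PL.AVMa

open Finset Filter
open Pool.Agent.H39R3.PB (fr fr_scale)
open Pool.Agent.Q117.MG (GQ)
open Pool.Agent.Q117.MG.MGAa (pr lp GQ_lp lp_nonneg mem_pr lp_pow prod_pr_le)
open Pool.Agent.Q184.LF (card_primes prod_one)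

/-- the value of the middle block, without the power of `b` -/
def Pj (b j v : ℕ) : ℕ := ∑ c ∈ range j, (v / b ^ c % b) * fr b (j - 1) c

lemma digsum (b v j : ℕ) : ∑ c ∈ range j, (v / b ^ c % b) * b ^ c = v % b ^ j := by
  induction j with
  | zero => simp [Nat.mod_one]
  | succ j ih => rw [sum_range_succ, ih, Nat.mod_pow_succ, Nat.mul_comm (b ^ j)]

lemma rest {b : ℕ} (d : ℕ → ℕ) (hd : ∀ c, d c < b) (n : ℕ) :
    ∑ c ∈ range (n + 1), d c * (if c = 0 then 0 else b ^ (n - c)) + 1 ≤ b ^ n := by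
  induction n with
  | zero => simp
  | succ n ih =>
    rw [sum_range_succ, if_neg (by omega), Nat.sub_self, pow_zero, mul_one]
    have h1 : ∑ c ∈ range (n + 1), d c * (if c = 0 then 0 else b ^ (n + 1 - c)) =
        b * ∑ c ∈ range (n + 1), d c * (if c = 0 then 0 else b ^ (n - c)) := by
      rw [mul_sum]
      refine sum_congr rfl fun c hc => ?_
      rw [mem_range] at hc
      split_ifs with h
      · simp
      · rw [show n + 1 - c = (n - c) + 1 by omega, pow_succ]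
        ring
    rw [h1]
    have h2 := Nat.mul_le_mul_left b ih
    have h3 := hd (n + 1)
    rw [pow_succ, Nat.mul_comm (b ^ n) b]
    rw [Nat.mul_add, mul_one] at h2
    omega

lemma Pj_eq {b j v : ℕ} (hb : 2 ≤ b) (hj : 1 ≤ j) (hv : v < b ^ j) : ∃ R, R < b ^ (j - 1) ∧ Pj b j v = v * b ^ (j - 1) + R := by
  refine ⟨∑ c ∈ range j, (v / b ^ c % b) * (if c = 0 then 0 else b ^ (j - 1 - c)), ?_, ?_⟩
  · have := rest (fun c => v / b ^ c % b) (fun c => Nat.mod_lt _ (by omega)) (j - 1)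
    rw [show j - 1 + 1 = j by omega] at this
    exact this
  · have h1 := digsum b v j
    rw [Nat.mod_eq_of_lt hv] at h1
    have h2 : Pj b j v = ∑ c ∈ range j, ((v / b ^ c % b) * b ^ c * b ^ (j - 1) + (v / b ^ c % b) * (if c = 0 then 0 else b ^ (j - 1 - c))) := by
      unfold Pj
      refine sum_congr rfl fun c _ => ?_
      unfold fr
      split_ifs with h
      · subst h
        simp
      · rw [pow_add]
        ring
    rw [h2, sum_add_distrib, ← sum_mul, h1]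

lemma Pj_lt {b j v : ℕ} (hb : 2 ≤ b) (hj : 1 ≤ j) (hv : v < b ^ j) : Pj b j v < b ^ (2 * j - 1) := by
  obtain ⟨R, hR, h⟩ := Pj_eq hb hj hv
  rw [h]
  calc v * b ^ (j - 1) + R < v * b ^ (j - 1) + b ^ (j - 1) := by omega
    _ = (v + 1) * b ^ (j - 1) := by ring
    _ ≤ b ^ j * b ^ (j - 1) := Nat.mul_le_mul_right _ hv
    _ = b ^ (2 * j - 1) := by rw [← pow_add]; congr 1; omega

lemma Pj_inj {b j v v' : ℕ} (hb : 2 ≤ b) (hj : 1 ≤ j) (hv : v < b ^ j) (hv' : v' < b ^ j) (h : Pj b j v = Pj b j v') : v = v' := by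
  obtain ⟨R, hR, h1⟩ := Pj_eq hb hj hv
  obtain ⟨R', hR', h2⟩ := Pj_eq hb hj hv'
  have h0 : 0 < b ^ (j - 1) := Nat.pow_pos (by omega)
  have h3 : Pj b j v / b ^ (j - 1) = v := by
    rw [h1, Nat.add_comm, Nat.add_mul_div_right _ _ h0, Nat.div_eq_of_lt hR, Nat.zero_add]
  have h4 : Pj b j v' / b ^ (j - 1) = v' := by
    rw [h2, Nat.add_comm, Nat.add_mul_div_right _ _ h0, Nat.div_eq_of_lt hR', Nat.zero_add]
  rw [← h3, ← h4, h]

/-- the low digits -/
lemma low {b j K v : ℕ} (hj : 1 ≤ j) (hjK : j ≤ K) :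
    ∑ c ∈ range j, (v / b ^ c % b) * fr b (K - 1) c = b ^ (K - j) * Pj b j (v % b ^ j) := by
  unfold Pj
  rw [mul_sum]
  refine sum_congr rfl fun c hc => ?_
  rw [mem_range] at hc
  rw [fr_scale (b := b) (L := K - 1) (M := j - 1) (c := c) (by omega) (by omega)]
  have e1 : K - 1 - (j - 1) = K - j := by omega
  have e2 : v % b ^ j / b ^ c % b = v / b ^ c % b := by
    have h1 : b ^ j = b ^ c * b ^ (j - c) := by rw [← pow_add]; congr 1; omega
    rw [h1, Nat.mod_mul_right_div_self]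
    have h2 : b ∣ b ^ (j - c) := dvd_pow_self b (by omega)
    exact Nat.mod_mod_of_dvd _ h2
  rw [e1, e2]
  ring

/-- a difference of two blocks with the same leading digits -/
lemma diff {b j K m m' : ℕ} (hj : 1 ≤ j) (hjK : j ≤ K) (hm : m / b ^ j = m' / b ^ j) :
    (Pj b K m : ℤ) - Pj b K m' = (b : ℤ) ^ (K - j) * ((Pj b j (m % b ^ j) : ℤ) - Pj b j (m' % b ^ j)) := by
  have h1 : ∀ v, Pj b K v = b ^ (K - j) * Pj b j (v % b ^ j) + ∑ c ∈ Ico j K, (v / b ^ c % b) * fr b (K - 1) c := by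
    intro v
    rw [← low hj hjK]
    unfold Pj
    rw [sum_range_add_sum_Ico _ hjK]
  have h2 : ∑ c ∈ Ico j K, (m / b ^ c % b) * fr b (K - 1) c = ∑ c ∈ Ico j K, (m' / b ^ c % b) * fr b (K - 1) c := by
    refine sum_congr rfl fun c hc => ?_
    rw [mem_Ico] at hc
    have e : b ^ c = b ^ j * b ^ (c - j) := by rw [← pow_add]; congr 1; omega
    rw [e, ← Nat.div_div_eq_div_mul, ← Nat.div_div_eq_div_mul, hm]
  rw [h1 m, h1 m', h2]
  push_cast
  ring

/-- a modulus determines the low digits -/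
lemma same {b j K m m' e : ℕ} (hb : 2 ≤ b) (hj : 1 ≤ j) (hjK : j ≤ K) (hm : m / b ^ j = m' / b ^ j) (he : e.Coprime b)
    (hej : b ^ (2 * j - 1) ≤ e) (hd : (e : ℤ) ∣ (Pj b K m : ℤ) - Pj b K m') : m = m' := by
  rw [diff hj hjK hm] at hd
  have hco : IsCoprime (e : ℤ) ((b : ℤ) ^ (K - j)) := (Nat.isCoprime_iff_coprime.2 he).pow_right
  have h1 := hco.dvd_of_dvd_mul_left hd
  have hb0 : 0 < b ^ j := Nat.pow_pos (by omega)
  have h2 := Pj_lt hb hj (Nat.mod_lt m hb0)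
  have h3 := Pj_lt hb hj (Nat.mod_lt m' hb0)
  have h4 : (Pj b j (m % b ^ j) : ℤ) - Pj b j (m' % b ^ j) = 0 := by
    apply Int.eq_zero_of_abs_lt_dvd h1
    rw [abs_lt]
    constructor <;> omega
  have h5 := Pj_inj hb hj (Nat.mod_lt m hb0) (Nat.mod_lt m' hb0) (by omega)
  rw [← Nat.div_add_mod m (b ^ j), ← Nat.div_add_mod m' (b ^ j), hm, h5]

/-- the number of the blocks in a residue class, first form -/
lemma count1 {b j K e : ℕ} (hb : 2 ≤ b) (hjK : j ≤ K) (he : e.Coprime b) (hej : j = 0 ∨ b ^ (2 * j - 1) ≤ e) (m a S : ℕ) :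
    ((((range (b ^ K)).filter (fun m' => a ≤ m' ∧ m' ≤ a + S)).filter (fun m' => (e : ℤ) ∣ (Pj b K m' : ℤ) - Pj b K m)).card : ℝ) ≤
      S / (b : ℝ) ^ j + 2 := by
  obtain ⟨W, hW⟩ : ∃ W, W = ((range (b ^ K)).filter (fun m' => a ≤ m' ∧ m' ≤ a + S)).filter (fun m' => (e : ℤ) ∣ (Pj b K m' : ℤ) - Pj b K m) := ⟨_, rfl⟩
  rw [← hW]
  have hinj : Set.InjOn (fun m' => m' / b ^ j) (W : Set ℕ) := by
    intro x hx y hy hxy
    rw [mem_coe, hW, mem_filter] at hx hy
    have hxy' : x / b ^ j = y / b ^ j := hxy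
    rcases Nat.eq_zero_or_pos j with h0 | h0
    · rw [h0, pow_zero, Nat.div_one, Nat.div_one] at hxy'
      exact hxy'
    · have h1 := hx.2.sub hy.2
      rw [sub_sub_sub_cancel_right] at h1
      exact same hb h0 hjK hxy' he (hej.resolve_left (by omega)) h1
  have himg : W.image (fun m' => m' / b ^ j) ⊆ Icc (a / b ^ j) ((a + S) / b ^ j) := by
    intro u hu
    rw [mem_image] at hu
    obtain ⟨x, hx, rfl⟩ := hu
    rw [hW, mem_filter, mem_filter] at hx
    rw [mem_Icc]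
    exact ⟨Nat.div_le_div_right hx.1.2.1, Nat.div_le_div_right hx.1.2.2⟩
  have h1 := card_le_card himg
  rw [card_image_of_injOn hinj, Nat.card_Icc] at h1
  have hB : 0 < b ^ j := Nat.pow_pos (by omega)
  have h2 : (a + S) / b ^ j ≤ a / b ^ j + S / b ^ j + 1 := by
    have h3 := Nat.add_div (a := a) (b := S) hB
    rw [h3]
    exact Nat.add_le_add_left (by split_ifs <;> omega) _
  have h3 : W.card ≤ S / b ^ j + 2 := by
    generalize (a + S) / b ^ j = x at h1 h2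
    generalize a / b ^ j = y at h1 h2
    generalize S / b ^ j = z at h2 ⊢
    omega
  have h4 : (W.card : ℝ) ≤ ((S / b ^ j : ℕ) : ℝ) + 2 := by exact_mod_cast h3
  have h5 : ((S / b ^ j : ℕ) : ℝ) ≤ (S : ℝ) / ((b ^ j : ℕ) : ℝ) := Nat.cast_div_le
  push_cast at h5
  linarith

/-- the number of the blocks in a residue class -/
lemma count2 {b K e : ℕ} (hb : 2 ≤ b) (he0 : 1 ≤ e) (he : e.Coprime b) (m a S : ℕ) :
    ((((range (b ^ K)).filter (fun m' => a ≤ m' ∧ m' ≤ a + S)).filter (fun m' => (e : ℤ) ∣ (Pj b K m' : ℤ) - Pj b K m)).card : ℝ) ≤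
      2 + b * S / Real.sqrt e := by
  classical
  obtain ⟨j, hj⟩ : ∃ j, j = Nat.findGreatest (fun j => j = 0 ∨ b ^ (2 * j - 1) ≤ e) K := ⟨_, rfl⟩
  have hjK : j ≤ K := by rw [hj]; exact Nat.findGreatest_le K
  have hP : j = 0 ∨ b ^ (2 * j - 1) ≤ e := by
    have := Nat.findGreatest_spec (P := fun j => j = 0 ∨ b ^ (2 * j - 1) ≤ e) (Nat.zero_le K) (Or.inl rfl)
    rw [← hj] at this
    exact this
  have he0' : (1 : ℝ) ≤ e := by exact_mod_cast he0
  have hs0 : 0 < Real.sqrt e := Real.sqrt_pos.2 (by linarith)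
  have hb2 : (2 : ℝ) ≤ b := by exact_mod_cast hb
  rcases Nat.lt_or_ge j K with h | h
  · have h1 := count1 hb hjK he hP m a S
    have h2 : ¬ (j + 1 = 0 ∨ b ^ (2 * (j + 1) - 1) ≤ e) := by
      have := Nat.findGreatest_is_greatest (P := fun j => j = 0 ∨ b ^ (2 * j - 1) ≤ e) (n := K) (k := j + 1) (by omega) (by omega)
      exact this
    push Not at h2
    have h3 : e < b ^ (2 * j + 1) := by
      have := h2.2
      rwa [show 2 * (j + 1) - 1 = 2 * j + 1 by omega] at this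
    have h4 : (e : ℝ) ≤ (b : ℝ) ^ 2 * ((b : ℝ) ^ j) ^ 2 := by
      have h5 : (e : ℝ) < (b : ℝ) ^ (2 * j + 1) := by exact_mod_cast h3
      refine h5.le.trans ?_
      rw [← pow_mul, ← pow_add]
      exact pow_le_pow_right₀ (by linarith) (by omega)
    have h5 : Real.sqrt e ≤ b * (b : ℝ) ^ j := by
      apply Real.sqrt_le_iff.2
      refine ⟨by positivity, ?_⟩
      rw [mul_pow]
      exact h4
    have h6 : (S : ℝ) / (b : ℝ) ^ j ≤ b * S / Real.sqrt e := by
      rw [div_le_div_iff₀ (by positivity) hs0]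
      calc (S : ℝ) * Real.sqrt e ≤ S * (b * (b : ℝ) ^ j) := mul_le_mul_of_nonneg_left h5 (by positivity)
        _ = _ := by ring
    linarith
  · have hjK' : j = K := by omega
    have hcard : (((range (b ^ K)).filter (fun m' => a ≤ m' ∧ m' ≤ a + S)).filter (fun m' => (e : ℤ) ∣ (Pj b K m' : ℤ) - Pj b K m)).card ≤ 1 := by
      rw [card_le_one]
      intro x hx y hy
      rw [mem_filter, mem_filter, mem_range] at hx hy
      rcases Nat.eq_zero_or_pos K with h0 | h0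
      · rw [h0, pow_zero] at hx hy
        omega
      · have h1 := hx.2.sub hy.2
        rw [sub_sub_sub_cancel_right] at h1
        rw [hjK'] at hP
        refine same (j := K) hb h0 le_rfl ?_ he (hP.resolve_left (by omega)) h1
        rw [Nat.div_eq_of_lt hx.1.1, Nat.div_eq_of_lt hy.1.1]
    have h1 : ((((range (b ^ K)).filter (fun m' => a ≤ m' ∧ m' ≤ a + S)).filter (fun m' => (e : ℤ) ∣ (Pj b K m' : ℤ) - Pj b K m)).card : ℝ) ≤ 1 := by
      exact_mod_cast hcard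
    have h2 : 0 ≤ (b : ℝ) * S / Real.sqrt e := by positivity
    linarith

/-- the average of the local product -/
lemma lpsum {c : ℝ} (hc : 0 ≤ c) {b : ℕ} (hb : 2 ≤ b) (K m a S w : ℕ) :
    ∑ m' ∈ (range (b ^ K)).filter (fun m' => a ≤ m' ∧ m' ≤ a + S), lp c (2 * b) w ((Pj b K m' : ℤ) - Pj b K m) ≤
      2 * ∏ p ∈ pr (2 * b) w, (1 + c / (p : ℝ)) + b * S * ∏ p ∈ pr (2 * b) w, (1 + c / ((p : ℝ) * Real.sqrt p)) := by
  classical
  obtain ⟨P, hP⟩ : ∃ P, P = pr (2 * b) w := ⟨_, rfl⟩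
  rw [← hP]
  have h1 : ∀ z : ℤ, lp c (2 * b) w z = ∑ T ∈ P.powerset, (if ∀ p ∈ T, (p : ℤ) ∣ z then ∏ p ∈ T, c / (p : ℝ) else 0) := by
    intro z
    unfold Pool.Agent.Q117.MG.MGAa.lp
    rw [← hP]
    have h2 : ∀ p ∈ P, (if (p : ℤ) ∣ z then (1 + c / (p : ℝ)) else 1) =
        1 + (if (p : ℤ) ∣ z then c / (p : ℝ) else 0) := by
      intro p _
      split_ifs <;> simp
    rw [Finset.prod_congr rfl h2, Finset.prod_one_add]
    refine Finset.sum_congr rfl fun T _ => ?_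
    by_cases h3 : ∀ p ∈ T, (p : ℤ) ∣ z
    · rw [if_pos h3]
      exact Finset.prod_congr rfl fun p hp => if_pos (h3 p hp)
    · rw [if_neg h3]
      push Not at h3
      obtain ⟨p, hp, hpm⟩ := h3
      exact Finset.prod_eq_zero hp (if_neg hpm)
  simp_rw [h1]
  rw [Finset.sum_comm]
  have h2 : ∀ T ∈ P.powerset, ∑ m' ∈ (range (b ^ K)).filter (fun m' => a ≤ m' ∧ m' ≤ a + S),
      (if ∀ p ∈ T, (p : ℤ) ∣ (Pj b K m' : ℤ) - Pj b K m then ∏ p ∈ T, c / (p : ℝ) else 0) ≤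
      2 * ∏ p ∈ T, c / (p : ℝ) + b * S * ∏ p ∈ T, c / ((p : ℝ) * Real.sqrt p) := by
    intro T hT
    have hTP := Finset.mem_powerset.1 hT
    have hTp : ∀ p ∈ T, p.Prime ∧ ¬ p ∣ 2 * b := fun p hp => by
      have := hTP hp
      rw [hP] at this
      exact (mem_pr this).2.2
    rw [← Finset.sum_filter, Finset.sum_const, nsmul_eq_mul]
    obtain ⟨e, he⟩ : ∃ e, e = ∏ p ∈ T, p := ⟨_, rfl⟩
    have he0 : 0 < e := by rw [he]; exact Finset.prod_pos fun p hp => (hTp p hp).1.pos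
    have hco : Nat.Coprime e b := by
      rw [he]
      refine Nat.Coprime.prod_left fun p hp => ((hTp p hp).1.coprime_iff_not_dvd).2 fun h => (hTp p hp).2 ?_
      exact h.trans (Dvd.intro_left 2 rfl)
    have h3 : ((range (b ^ K)).filter (fun m' => a ≤ m' ∧ m' ≤ a + S)).filter (fun m' => ∀ p ∈ T, (p : ℤ) ∣ (Pj b K m' : ℤ) - Pj b K m) ⊆
        ((range (b ^ K)).filter (fun m' => a ≤ m' ∧ m' ≤ a + S)).filter (fun m' => (e : ℤ) ∣ (Pj b K m' : ℤ) - Pj b K m) := by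
      intro d hd
      rw [Finset.mem_filter] at hd ⊢
      refine ⟨hd.1, ?_⟩
      apply Int.natCast_dvd.2
      rw [he]
      exact Finset.prod_primes_dvd _ (fun p hp => (hTp p hp).1.prime)
        (fun p hp => Int.natCast_dvd.1 (hd.2 p hp))
    have h4 : ((((range (b ^ K)).filter (fun m' => a ≤ m' ∧ m' ≤ a + S)).filter (fun m' => ∀ p ∈ T, (p : ℤ) ∣ (Pj b K m' : ℤ) - Pj b K m)).card : ℝ) ≤
        2 + b * S / Real.sqrt e := by
      refine le_trans ?_ (count2 (K := K) hb he0 hco m a S)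
      exact_mod_cast Finset.card_le_card h3
    have h5 : 0 ≤ ∏ p ∈ T, c / (p : ℝ) := Finset.prod_nonneg fun p _ => by positivity
    refine (mul_le_mul_of_nonneg_right h4 h5).trans (le_of_eq ?_)
    have h6 : ∏ p ∈ T, c / ((p : ℝ) * Real.sqrt p) = (∏ p ∈ T, c / (p : ℝ)) / Real.sqrt e := by
      have h7 : Real.sqrt e = ∏ p ∈ T, Real.sqrt p := by
        rw [he, Nat.cast_prod, Real.sqrt_prod]
        intro p _
        positivity
      rw [h7, ← Finset.prod_div_distrib]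
      refine Finset.prod_congr rfl fun p _ => ?_
      rw [div_div]
    rw [h6]
    ring
  refine (Finset.sum_le_sum h2).trans (le_of_eq ?_)
  rw [Finset.sum_add_distrib, ← Finset.mul_sum, ← Finset.mul_sum, ← Finset.prod_one_add, ← Finset.prod_one_add]

/-- the primes larger than `K` do not matter -/
lemma GQ_big {b : ℕ} (hb : 2 ≤ b) (K q y : ℕ) (hK : 1 ≤ K) {z : ℤ} (hz : z ≠ 0) (hzb : |(z : ℝ)| ≤ (b : ℝ) ^ (2 * K)) :
    GQ q y z ≤ Real.exp (4 * Real.log b / Real.log 2) * lp 2 q K z := by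
  classical
  rw [GQ_lp]
  have hbR : (2 : ℝ) ≤ b := by exact_mod_cast hb
  have hK1 : (1 : ℝ) ≤ K := by exact_mod_cast hK
  have hl2 : 0 < Real.log 2 := Real.log_pos (by norm_num)
  have hlb : 0 < Real.log b := Real.log_pos (by linarith)
  have hsplit := (Finset.prod_filter_mul_prod_filter_not (pr q y) (fun p => p ≤ K)
    (fun p : ℕ => (if (p : ℤ) ∣ z then (1 + 2 / (p : ℝ)) else 1))).symm
  unfold Pool.Agent.Q117.MG.MGAa.lp
  rw [hsplit, mul_comm]
  have hge : ∀ p : ℕ, (1 : ℝ) ≤ (if (p : ℤ) ∣ z then (1 + 2 / (p : ℝ)) else 1) := by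
    intro p
    split_ifs
    · have : (0 : ℝ) ≤ 2 / p := by positivity
      linarith
    · exact le_rfl
  have h1 : ∏ p ∈ (pr q y).filter (fun p => p ≤ K), (if (p : ℤ) ∣ z then (1 + 2 / (p : ℝ)) else 1) ≤
      ∏ p ∈ pr q K, (if (p : ℤ) ∣ z then (1 + 2 / (p : ℝ)) else 1) := by
    have hsub : (pr q y).filter (fun p => p ≤ K) ⊆ pr q K := by
      intro p hp
      rw [mem_filter] at hp
      have := mem_pr hp.1
      unfold pr
      rw [mem_filter, mem_filter, mem_Icc]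
      exact ⟨⟨⟨this.1, hp.2⟩, this.2.2.1⟩, this.2.2.2⟩
    rw [← prod_sdiff hsub]
    exact le_mul_of_one_le_left (prod_nonneg fun p _ => zero_le_one.trans (hge p)) (one_le_prod fun p _ => hge p)
  obtain ⟨S, hS⟩ : ∃ S, S = ((pr q y).filter (fun p => ¬ p ≤ K)).filter (fun p : ℕ => (p : ℤ) ∣ z) := ⟨_, rfl⟩
  have hSp : ∀ p ∈ S, p.Prime ∧ (p : ℤ) ∣ z ∧ K < p := by
    intro p hp
    rw [hS, Finset.mem_filter, Finset.mem_filter] at hp
    exact ⟨(mem_pr hp.1.1).2.2.1, hp.2, not_le.1 hp.1.2⟩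
  have h2 : ∏ p ∈ (pr q y).filter (fun p => ¬ p ≤ K), (if (p : ℤ) ∣ z then (1 + 2 / (p : ℝ)) else 1) ≤
      Real.exp (4 * Real.log b / Real.log 2) := by
    rw [← Finset.prod_filter, ← hS]
    have hcard := card_primes hz (fun p hp => ⟨(hSp p hp).1, (hSp p hp).2.1⟩)
    have hk : (S.card : ℝ) * Real.log 2 ≤ 2 * K * Real.log b := by
      have h2 : (2 : ℝ) ^ S.card ≤ (b : ℝ) ^ (2 * K) := by
        refine le_trans ?_ hzb
        have h3 : ((2 ^ S.card : ℕ) : ℝ) ≤ (z.natAbs : ℝ) := by exact_mod_cast hcard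
        rw [Nat.cast_natAbs, Int.cast_abs] at h3
        simpa using h3
      have h3 := Real.log_le_log (by positivity) h2
      rw [Real.log_pow, Real.log_pow] at h3
      push_cast at h3
      exact h3
    have h2 : ∏ p ∈ S, (1 + 2 / (p : ℝ)) ≤ ∏ _p ∈ S, Real.exp (2 / K) := by
      refine Finset.prod_le_prod (fun p _ => by positivity) fun p hp => ?_
      have h3 : (K : ℝ) ≤ p := by exact_mod_cast (hSp p hp).2.2.le
      have h4 : 2 / (p : ℝ) ≤ 2 / K := div_le_div_of_nonneg_left (by norm_num) (by linarith) h3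
      have h5 := Real.add_one_le_exp (2 / (K : ℝ))
      linarith
    refine h2.trans ?_
    rw [Finset.prod_const, ← Real.exp_nat_mul]
    apply Real.exp_le_exp.2
    rw [le_div_iff₀ hl2]
    have h3 : (S.card : ℝ) * (2 / K) * Real.log 2 = 2 / K * ((S.card : ℝ) * Real.log 2) := by ring
    rw [h3]
    calc 2 / (K : ℝ) * ((S.card : ℝ) * Real.log 2) ≤ 2 / (K : ℝ) * (2 * K * Real.log b) := by gcongr
      _ = 4 * Real.log b := by field_simp; norm_num
  exact mul_le_mul h2 h1 (prod_nonneg fun p _ => zero_le_one.trans (hge p)) (Real.exp_pos _).le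

/-- Mertens -/
lemma prodK (c : ℝ) (hc : 0 < c) : ∃ C : ℝ, 0 < C ∧ ∀ q K : ℕ, 1 ≤ K → ∏ p ∈ pr q K, (1 + c / (p : ℝ)) ≤ C * K := by
  obtain ⟨C, hC0, hC⟩ := prod_one c hc.le
  refine ⟨C * c ^ c + 1, by positivity, ?_⟩
  intro q K hK
  have hK1 : (1 : ℝ) ≤ K := by exact_mod_cast hK
  have h1 : ∏ p ∈ pr q K, (1 + c / (p : ℝ)) ≤ ∏ p ∈ (Icc 1 K).filter Nat.Prime, (1 + c / (p : ℝ)) :=
    prod_pr_le q K (fun p => 1 + c / (p : ℝ)) (fun p => by
      have : 0 ≤ c / (p : ℝ) := by positivity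
      linarith)
  refine h1.trans ?_
  rcases Nat.lt_or_ge K 2 with h | h
  · have hK' : K = 1 := by omega
    subst hK'
    have : (Icc 1 1).filter Nat.Prime = ∅ := by decide
    rw [this, prod_empty]
    have : 0 ≤ C * c ^ c := by positivity
    push_cast
    linarith
  · refine (hC K h).trans ?_
    have h2 : Real.log K ≤ c * (K : ℝ) ^ (1 / c) := by
      have := Real.log_le_rpow_div (x := K) (by linarith) (show 0 < 1 / c by positivity)
      rw [div_div_eq_mul_div, div_one] at this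
      linarith
    have h3 : (Real.log K) ^ c ≤ c ^ c * K := by
      calc (Real.log K) ^ c ≤ (c * (K : ℝ) ^ (1 / c)) ^ c := Real.rpow_le_rpow (Real.log_nonneg hK1) h2 hc.le
        _ = c ^ c * K := by
          rw [Real.mul_rpow hc.le (by positivity), ← Real.rpow_mul (by linarith), one_div, inv_mul_cancel₀ hc.ne', Real.rpow_one]
    calc C * (Real.log K) ^ c ≤ C * (c ^ c * K) := mul_le_mul_of_nonneg_left h3 hC0.le
      _ ≤ _ := by nlinarith

/-- the convergent product -/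
lemma prod32 (c : ℝ) (hc : 0 ≤ c) : ∃ C : ℝ, 0 < C ∧ ∀ q K : ℕ, ∏ p ∈ pr q K, (1 + c / ((p : ℝ) * Real.sqrt p)) ≤ C := by
  have hs : Summable (fun n : ℕ => 1 / (n : ℝ) ^ (3 / 2 : ℝ)) := Real.summable_one_div_nat_rpow.2 (by norm_num)
  refine ⟨Real.exp (c * ∑' n : ℕ, 1 / (n : ℝ) ^ (3 / 2 : ℝ)), Real.exp_pos _, ?_⟩
  intro q K
  have h1 : ∏ p ∈ pr q K, (1 + c / ((p : ℝ) * Real.sqrt p)) ≤ ∏ p ∈ pr q K, Real.exp (c * (1 / (p : ℝ) ^ (3 / 2 : ℝ))) := by
    refine prod_le_prod (fun p _ => by positivity) fun p hp => ?_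
    have hp0 : (0 : ℝ) < p := by exact_mod_cast (mem_pr hp).1
    have h2 : c / ((p : ℝ) * Real.sqrt p) = c * (1 / (p : ℝ) ^ (3 / 2 : ℝ)) := by
      have : (p : ℝ) * Real.sqrt p = (p : ℝ) ^ (3 / 2 : ℝ) := by
        rw [Real.sqrt_eq_rpow]
        nth_rewrite 1 [← Real.rpow_one (p : ℝ)]
        rw [← Real.rpow_add hp0]
        norm_num
      rw [this, mul_one_div]
    rw [h2]
    have := Real.add_one_le_exp (c * (1 / (p : ℝ) ^ (3 / 2 : ℝ)))
    linarith
  refine h1.trans ?_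
  rw [← Real.exp_sum, ← mul_sum]
  apply Real.exp_le_exp.2
  apply mul_le_mul_of_nonneg_left _ hc
  exact hs.sum_le_tsum _ fun n _ => by positivity

lemma Mid_eq {b L K : ℕ} (hK : 1 ≤ K) (hKL : K ≤ L) (v : ℕ) : Mid b L K v = b ^ (L - K + 1) * Pj b K v := by
  unfold Mid Pj
  rw [mul_sum]
  refine sum_congr rfl fun c hc => ?_
  rw [mem_range] at hc
  rw [fr_scale (b := b) (L := L) (M := K - 1) (c := c) (by omega) (by omega)]
  have : L - (K - 1) = L - K + 1 := by omega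
  rw [this]
  ring

/-- the factor `b ^ (L - K + 1)` does not matter -/
lemma GQ_mul (b y n : ℕ) (z : ℤ) : GQ (2 * b) y ((b : ℤ) ^ n * z) = GQ (2 * b) y z := by
  classical
  unfold GQ
  refine prod_congr ?_ fun _ _ => rfl
  refine filter_congr fun p _ => ?_
  constructor
  · rintro ⟨h1, h2, h3⟩
    refine ⟨h1, h2, ?_⟩
    have hp := Nat.prime_iff_prime_int.1 h1
    rcases hp.dvd_or_dvd h3 with h4 | h4
    · exfalso
      have h5 := hp.dvd_of_dvd_pow h4
      have h6 : p ∣ b := by exact_mod_cast h5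
      exact h2 (h6.trans (Dvd.intro_left 2 rfl))
    · exact h4
  · rintro ⟨h1, h2, h3⟩
    exact ⟨h1, h2, h3.mul_left _⟩

end Pool.Agent.Q117.PL.AVMa

namespace Pool.Agent.Q117.PL

open Finset Filter
open Pool.Agent.Q117.MG (GQ)
open Pool.Agent.Q117.MG.MGAa (pr lp GQ_lp lp_nonneg mem_pr lp_pow prod_pr_le)
open Pool.Agent.Q117.PL.AVMa

/-- **AVM**: the average of the singular factor over a window of middle blocks -/
theorem avm : St_AVM := by
  intro b N hb
  have hbR : (2 : ℝ) ≤ b := by exact_mod_cast hb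
  obtain ⟨C1, hC1, hp1⟩ := prodK (3 ^ N) (by positivity)
  obtain ⟨C2, hC2, hp2⟩ := prod32 (3 ^ N) (by positivity)
  obtain ⟨E, hE⟩ : ∃ E : ℝ, E = Real.exp (4 * Real.log b / Real.log 2) := ⟨_, rfl⟩
  have hE0 : 0 < E := by rw [hE]; exact Real.exp_pos _
  refine ⟨E ^ N * (2 * C1 + b * C2), by positivity, ?_⟩
  intro L K y m a S hK hKL hm
  have hterm : ∀ m' ∈ (range (b ^ K)).filter (fun m' => m' ≠ m ∧ a ≤ m' ∧ m' ≤ a + S),
      GQ (2 * b) y ((Mid b L K m' : ℤ) - Mid b L K m) ^ N ≤ E ^ N * lp (3 ^ N) (2 * b) K ((Pj b K m' : ℤ) - Pj b K m) := by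
    intro m' hm'
    rw [mem_filter, mem_range] at hm'
    have e1 : (Mid b L K m' : ℤ) - Mid b L K m = (b : ℤ) ^ (L - K + 1) * ((Pj b K m' : ℤ) - Pj b K m) := by
      rw [Mid_eq hK hKL, Mid_eq hK hKL]
      push_cast
      ring
    rw [e1, GQ_mul]
    have h1 := Pj_lt hb hK hm'.1
    have h2 := Pj_lt hb hK hm
    have hz : (Pj b K m' : ℤ) - Pj b K m ≠ 0 := by
      intro h0
      exact hm'.2.1 (Pj_inj hb hK hm'.1 hm (by omega))
    have hzb : |(((Pj b K m' : ℤ) - Pj b K m : ℤ) : ℝ)| ≤ (b : ℝ) ^ (2 * K) := by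
      have h3 : b ^ (2 * K - 1) ≤ b ^ (2 * K) := Nat.pow_le_pow_right (by omega) (by omega)
      have h4 : |(Pj b K m' : ℤ) - Pj b K m| ≤ ((b ^ (2 * K) : ℕ) : ℤ) := by
        rw [abs_le]
        constructor <;> omega
      have h5 : ((|(Pj b K m' : ℤ) - Pj b K m| : ℤ) : ℝ) ≤ (((b ^ (2 * K) : ℕ) : ℤ) : ℝ) := by exact_mod_cast h4
      rw [Int.cast_abs] at h5
      refine h5.trans (le_of_eq ?_)
      push_cast
      rfl
    have h3 := GQ_big hb K (2 * b) y hK hz hzb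
    rw [← hE] at h3
    have h4 : 0 ≤ GQ (2 * b) y ((Pj b K m' : ℤ) - Pj b K m) := by
      rw [GQ_lp]; exact lp_nonneg (by norm_num) _ _ _
    calc GQ (2 * b) y ((Pj b K m' : ℤ) - Pj b K m) ^ N ≤ (E * lp 2 (2 * b) K ((Pj b K m' : ℤ) - Pj b K m)) ^ N :=
          pow_le_pow_left₀ h4 h3 N
      _ = E ^ N * lp 2 (2 * b) K ((Pj b K m' : ℤ) - Pj b K m) ^ N := mul_pow _ _ _
      _ ≤ _ := mul_le_mul_of_nonneg_left (lp_pow N _ _ _) (by positivity)
  refine (sum_le_sum hterm).trans ?_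
  have hsub : (range (b ^ K)).filter (fun m' => m' ≠ m ∧ a ≤ m' ∧ m' ≤ a + S) ⊆ (range (b ^ K)).filter (fun m' => a ≤ m' ∧ m' ≤ a + S) := by
    intro x hx
    rw [mem_filter] at hx ⊢
    exact ⟨hx.1, hx.2.2⟩
  have h1 : ∑ m' ∈ (range (b ^ K)).filter (fun m' => m' ≠ m ∧ a ≤ m' ∧ m' ≤ a + S), E ^ N * lp (3 ^ N) (2 * b) K ((Pj b K m' : ℤ) - Pj b K m) ≤
      ∑ m' ∈ (range (b ^ K)).filter (fun m' => a ≤ m' ∧ m' ≤ a + S), E ^ N * lp (3 ^ N) (2 * b) K ((Pj b K m' : ℤ) - Pj b K m) :=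
    sum_le_sum_of_subset_of_nonneg hsub fun x _ _ => mul_nonneg (by positivity) (lp_nonneg (by positivity) _ _ _)
  refine h1.trans ?_
  rw [← mul_sum, mul_assoc]
  apply mul_le_mul_of_nonneg_left _ (by positivity)
  refine (lpsum (c := 3 ^ N) (by positivity) hb K m a S K).trans ?_
  have h2 := hp1 (2 * b) K hK
  have h3 := hp2 (2 * b) K
  have hS : (0 : ℝ) ≤ S := by positivity
  have hK0 : (0 : ℝ) ≤ K := by positivity
  have h4 : (b : ℝ) * S * ∏ p ∈ pr (2 * b) K, (1 + 3 ^ N / ((p : ℝ) * Real.sqrt p)) ≤ b * S * C2 :=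
    mul_le_mul_of_nonneg_left h3 (by positivity)
  calc _ ≤ 2 * (C1 * K) + b * S * C2 := add_le_add (mul_le_mul_of_nonneg_left h2 (by norm_num)) h4
    _ ≤ (2 * C1 + b * C2) * (S + K) := by
        have h5 : 0 ≤ C1 * (S : ℝ) := by positivity
        have h6 : 0 ≤ (b : ℝ) * C2 * K := by positivity
        nlinarith

end Pool.Agent.Q117.PL
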