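import Pool.Agent.Q117.PL.Stm
import Pool.Agent.W139.PX.F4
import Pool.Agent.Y843.HG.VGold

/-!
Job PA of project PL (helper117): clusters of palindromes without small prime factors are rare; isolated palindromes.
-/

set_option autoImplicit false

namespace Pool.Agent.Q117.PL

open Finset Filter
open Pool.Agent.Q117.LF (Ro oF)
open Pool.Agent.Q117.AP (AdQ VQ)
open Pool.Agent.Q117.MG (GQ St_MGL)
open Pool.Agent.Y843.HS (Pr Pr_mem)
open Pool.Agent.Y843.HG (V1 V1_bounds fac1)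

namespace PAa

open Classical in
/-- one value without small prime factors -/
noncomputable def N1 (b L K l m : ℕ) (z : ℝ) : Finset ℕ :=
  (range (b ^ (L - K))).filter (fun o : ℕ => Ro z (Pv b L K l o m))

open Classical in
/-- two values without small prime factors -/
noncomputable def N2 (b L K l m m' : ℕ) (z : ℝ) : Finset ℕ :=
  (range (b ^ (L - K))).filter (fun o : ℕ => Ro z (Pv b L K l o m) ∧ Ro z (Pv b L K l o m'))

lemma decomp {b L K x : ℕ} (hb : 2 ≤ b) (hK : K ≤ L) (hx : x < b ^ (L + 1)) :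
    ∃ l < b, ∃ o < b ^ (L - K), ∃ m < b ^ K, x = l * b ^ L + o * b ^ K + m ∧ x = (l * b ^ (L - K) + o) * b ^ K + m := by
  have hL : 0 < b ^ L := pow_pos (by omega) L
  have hK0 : 0 < b ^ K := pow_pos (by omega) K
  have e : b ^ L = b ^ (L - K) * b ^ K := by rw [← pow_add, Nat.sub_add_cancel hK]
  refine ⟨x / b ^ L, ?_, x % b ^ L / b ^ K, ?_, x % b ^ L % b ^ K, Nat.mod_lt _ hK0, ?_, ?_⟩
  · rw [Nat.div_lt_iff_lt_mul hL, ← pow_succ']
    exact hx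
  · rw [Nat.div_lt_iff_lt_mul hK0, ← e]
    exact Nat.mod_lt _ hL
  · have h1 := Nat.div_add_mod x (b ^ L)
    have h2 := Nat.div_add_mod (x % b ^ L) (b ^ K)
    rw [mul_comm] at h1 h2
    omega
  · have h1 := Nat.div_add_mod x (b ^ L)
    have h2 := Nat.div_add_mod (x % b ^ L) (b ^ K)
    rw [mul_comm] at h1 h2
    rw [add_mul, mul_assoc, ← e]
    omega

/-- the middle blocks near `m` -/
def W (b K s m : ℕ) : Finset ℕ := (range (b ^ K)).filter (fun m' => m' ≠ m ∧ m - s ≤ m' ∧ m' ≤ (m - s) + 2 * s)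

/-- the middle blocks near the ends -/
def Ed (b K s : ℕ) : Finset ℕ := (range (b ^ K)).filter (fun m => m ≤ s ∨ b ^ K ≤ m + s)

lemma card_Ed (b K s : ℕ) : (Ed b K s).card ≤ 2 * s + 1 := by
  have h : Ed b K s ⊆ range (s + 1) ∪ Ico (b ^ K - s) (b ^ K) := by
    intro m hm
    rw [Ed, mem_filter, mem_range] at hm
    rw [mem_union, mem_range, mem_Ico]
    omega
  refine (card_le_card h).trans ((card_union_le _ _).trans ?_)
  rw [card_range, Nat.card_Ico]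
  omega

/-- the geometry of a pair -/
lemma pair {b K u m u' m' s : ℕ} (hm : m < b ^ K) (hm' : m' < b ^ K)
    (hd : (((u' * b ^ K + m' : ℕ) : ℤ) - ((u * b ^ K + m : ℕ) : ℤ)).natAbs ≤ s)
    (hne : u * b ^ K + m ≠ u' * b ^ K + m') :
    (u = u' ∧ m' ∈ W b K s m) ∨ m ∈ Ed b K s := by
  have h1 : ((u' * b ^ K + m' : ℕ) : ℤ) - ((u * b ^ K + m : ℕ) : ℤ) ≤ s ∧
      -(s : ℤ) ≤ ((u' * b ^ K + m' : ℕ) : ℤ) - ((u * b ^ K + m : ℕ) : ℤ) := by omega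
  rcases lt_trichotomy u u' with h | h | h
  · right
    have h2 : (u + 1) * b ^ K ≤ u' * b ^ K := Nat.mul_le_mul_right _ h
    have h3 : (u + 1) * b ^ K = u * b ^ K + b ^ K := by ring
    rw [Ed, mem_filter, mem_range]
    refine ⟨hm, Or.inr ?_⟩
    omega
  · left
    refine ⟨h, ?_⟩
    subst h
    rw [W, mem_filter, mem_range]
    refine ⟨hm', ?_, ?_, ?_⟩ <;> omega
  · right
    have h2 : (u' + 1) * b ^ K ≤ u * b ^ K := Nat.mul_le_mul_right _ h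
    have h3 : (u' + 1) * b ^ K = u' * b ^ K + b ^ K := by ring
    rw [Ed, mem_filter, mem_range]
    refine ⟨hm, Or.inl ?_⟩
    omega

lemma clus_card (hPD : PDc) {b L K : ℕ} (hb : 2 ≤ b) (hL : 1 ≤ L) (hK : K ≤ L) (z S : ℝ) :
    (Clus b L z (S * b ^ L)).card ≤
      (∑ l ∈ range b, ∑ m ∈ range (b ^ K), ∑ m' ∈ W b K ⌊S + 1⌋₊ m, (N2 b L K l m m' z).card) +
      ∑ l ∈ range b, ∑ m ∈ Ed b K ⌊S + 1⌋₊, (N1 b L K l m z).card := by
  classical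
  obtain ⟨h1, h2, h3, h4⟩ := hPD b L hb hL
  obtain ⟨s, hs⟩ : ∃ s, s = ⌊S + 1⌋₊ := ⟨_, rfl⟩
  rw [← hs]
  have hsub : Clus b L z (S * b ^ L) ⊆
      ((range b).biUnion fun l => (range (b ^ K)).biUnion fun m => (W b K s m).biUnion fun m' =>
        (N2 b L K l m m' z).image (fun o => Pv b L K l o m)) ∪
      ((range b).biUnion fun l => (Ed b K s).biUnion fun m => (N1 b L K l m z).image (fun o => Pv b L K l o m)) := by
    intro n hn
    rw [Clus, mem_filter] at hn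
    obtain ⟨hn1, hn2, n', hn3, hn4, hn5, hn6⟩ := hn
    obtain ⟨x, _, hx, rfl⟩ := (h1 n).1 hn1
    obtain ⟨x', _, hx', rfl⟩ := (h1 n').1 hn3
    have h5 := h2 x x' hx hx'
    have hbL : (0 : ℝ) < (b : ℝ) ^ L := by
      have : (0 : ℝ) < b := by exact_mod_cast (show 0 < b by omega)
      positivity
    have h6 : |(x' : ℝ) - x| * (b : ℝ) ^ L < (S + 1) * (b : ℝ) ^ L := by
      have h5' : |((Pl b L x' : ℝ) - Pl b L x) - ((x' : ℝ) - x) * (b : ℝ) ^ L| < (b : ℝ) ^ L := by exact_mod_cast h5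
      have e : |(x' : ℝ) - x| * (b : ℝ) ^ L = |((x' : ℝ) - x) * (b : ℝ) ^ L| := by rw [abs_mul, abs_of_pos hbL]
      rw [e]
      have h7 : |((x' : ℝ) - x) * (b : ℝ) ^ L| ≤ |(Pl b L x' : ℝ) - Pl b L x| + |((Pl b L x' : ℝ) - Pl b L x) - ((x' : ℝ) - x) * (b : ℝ) ^ L| := by
        have h8 := abs_sub ((Pl b L x' : ℝ) - Pl b L x) (((Pl b L x' : ℝ) - Pl b L x) - ((x' : ℝ) - x) * (b : ℝ) ^ L)
        have e2 : ((Pl b L x' : ℝ) - Pl b L x) - (((Pl b L x' : ℝ) - Pl b L x) - ((x' : ℝ) - x) * (b : ℝ) ^ L) = ((x' : ℝ) - x) * (b : ℝ) ^ L := by ring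
        rw [e2] at h8
        exact h8
      linarith
    have h7 : |(x' : ℝ) - x| < S + 1 := lt_of_mul_lt_mul_right h6 hbL.le
    have h8 : ((x' : ℤ) - (x : ℤ)).natAbs ≤ s := by
      rw [hs]
      apply Nat.le_floor
      have e : ((((x' : ℤ) - (x : ℤ)).natAbs : ℕ) : ℝ) = |(x' : ℝ) - x| := by
        rw [Nat.cast_natAbs]
        push_cast
        rfl
      rw [e]
      exact h7.le
    obtain ⟨l, hl, o, ho, m, hm, e1, e2⟩ := decomp hb hK hx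
    obtain ⟨l', hl', o', ho', m', hm', e1', e2'⟩ := decomp hb hK hx'
    have hP := h4 K l o m hK hl ho hm
    have hP' := h4 K l' o' m' hK hl' ho' hm'
    rw [← e1] at hP
    rw [← e1'] at hP'
    have hne : x ≠ x' := fun h => hn4 (by rw [h])
    have h9 := pair (b := b) (K := K) (u := l * b ^ (L - K) + o) (u' := l' * b ^ (L - K) + o') (s := s) hm hm'
      (by rw [← e2, ← e2']; exact h8) (by rw [← e2, ← e2']; exact hne)
    rw [mem_union]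
    rcases h9 with ⟨h9, h10⟩ | h9
    · left
      have hlo : l = l' ∧ o = o' := by
        have hp : 0 < b ^ (L - K) := pow_pos (by omega) _
        have h11 : (l * b ^ (L - K) + o) / b ^ (L - K) = (l' * b ^ (L - K) + o') / b ^ (L - K) := by rw [h9]
        rw [add_comm, Nat.add_mul_div_right _ _ hp, Nat.div_eq_of_lt ho, add_comm (l' * b ^ (L - K)),
          Nat.add_mul_div_right _ _ hp, Nat.div_eq_of_lt ho', zero_add, zero_add] at h11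
        refine ⟨h11, ?_⟩
        rw [h11] at h9
        omega
      obtain ⟨rfl, rfl⟩ := hlo
      rw [mem_biUnion]
      refine ⟨l, mem_range.2 hl, ?_⟩
      rw [mem_biUnion]
      refine ⟨m, mem_range.2 hm, ?_⟩
      rw [mem_biUnion]
      refine ⟨m', h10, ?_⟩
      rw [mem_image]
      refine ⟨o, ?_, hP.symm⟩
      rw [N2, mem_filter, mem_range, ← hP, ← hP']
      exact ⟨ho, hn2, hn6⟩
    · right
      rw [mem_biUnion]
      refine ⟨l, mem_range.2 hl, ?_⟩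
      rw [mem_biUnion]
      refine ⟨m, h9, ?_⟩
      rw [mem_image]
      refine ⟨o, ?_, hP.symm⟩
      rw [N1, mem_filter, mem_range, ← hP]
      exact ⟨ho, hn2⟩
  refine (card_le_card hsub).trans ((card_union_le _ _).trans (Nat.add_le_add ?_ ?_))
  · refine card_biUnion_le.trans (sum_le_sum fun l _ => ?_)
    refine card_biUnion_le.trans (sum_le_sum fun m _ => ?_)
    refine card_biUnion_le.trans (sum_le_sum fun m' _ => ?_)
    exact card_image_le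
  · refine card_biUnion_le.trans (sum_le_sum fun l _ => ?_)
    refine card_biUnion_le.trans (sum_le_sum fun m _ => ?_)
    exact card_image_le

lemma oF_single (e : ℤ) (p : ℕ) : oF {e} p = 1 := by
  classical
  unfold oF
  rw [image_singleton, card_singleton]

/-- the product of `1 - 1 / p` over the primes `p ≤ y` not dividing `q` -/
noncomputable def Q1 (y q : ℕ) : ℝ :=
  ∏ p ∈ (Icc 1 y).filter (fun p : ℕ => p.Prime ∧ ¬ p ∣ q), (1 - 1 / (p : ℝ))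

lemma VQ_single (y q : ℕ) (e : ℤ) : VQ y q {e} = Q1 y q := by
  unfold VQ Q1
  refine prod_congr rfl fun p _ => ?_
  rw [oF_single, Nat.cast_one]

lemma Q1_nonneg (y q : ℕ) : 0 ≤ Q1 y q := by
  unfold Q1
  refine prod_nonneg fun p hp => ?_
  have := (fac1 (mem_filter.1 hp).2.1).1
  linarith

lemma Q1_mul {y q : ℕ} (hq : 1 ≤ q) (hqy : q ≤ y) :
    Q1 y q * ∏ p ∈ q.primeFactors, (1 - 1 / (p : ℝ)) = V1 y := by
  unfold Q1 V1
  have h1 : Pr 0 y = (Icc 1 y).filter (fun p : ℕ => p.Prime ∧ ¬ p ∣ q) ∪ q.primeFactors := by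
    ext p
    rw [mem_union, mem_filter, mem_Icc, Pr_mem, Nat.mem_primeFactors]
    constructor
    · rintro ⟨⟨h1, h2⟩, h3⟩
      by_cases h : p ∣ q
      · exact Or.inr ⟨h3, h, by omega⟩
      · exact Or.inl ⟨⟨by omega, h2⟩, h3, h⟩
    · rintro (⟨⟨h1, h2⟩, h3, -⟩ | ⟨h1, h2, h3⟩)
      · exact ⟨⟨by omega, h2⟩, h3⟩
      · exact ⟨⟨h1.pos, (Nat.le_of_dvd (by omega) h2).trans hqy⟩, h1⟩
  rw [h1, prod_union]
  rw [disjoint_left]
  intro p hp hp'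
  exact (mem_filter.1 hp).2.2 (Nat.dvd_of_mem_primeFactors hp')

/-- Mertens for a fixed modulus -/
lemma Q1_le {b : ℕ} (hb : 2 ≤ b) : ∃ C : ℝ, 0 < C ∧ ∀ L : ℕ, 2 ≤ L → Q1 (b ^ L) (2 * b) ≤ C / L := by
  obtain ⟨c1, C1, hc1, hC1, hV⟩ := V1_bounds
  obtain ⟨P, hP⟩ : ∃ P : ℝ, P = ∏ p ∈ (2 * b).primeFactors, (1 - 1 / (p : ℝ)) := ⟨_, rfl⟩
  have hP0 : 0 < P := by
    rw [hP]
    refine prod_pos fun p hp => ?_
    have := (fac1 (Nat.prime_of_mem_primeFactors hp)).1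
    linarith
  have hlb : 0 < Real.log b := Real.log_pos (by exact_mod_cast (show 1 < b by omega))
  refine ⟨C1 / (Real.log b * P), by positivity, fun L hL => ?_⟩
  have hL0 : (0 : ℝ) < L := by exact_mod_cast (show 0 < L by omega)
  have h1 : 2 * b ≤ b ^ L := by
    calc 2 * b ≤ b * b := Nat.mul_le_mul_right _ hb
      _ = b ^ 2 := (pow_two b).symm
      _ ≤ b ^ L := Nat.pow_le_pow_right (by omega) hL
  have h2 := Q1_mul (y := b ^ L) (q := 2 * b) (by omega) h1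
  rw [← hP] at h2
  have h3 := (hV (b ^ L) (by omega)).2
  rw [← h2] at h3
  push_cast at h3
  rw [Real.log_pow] at h3
  have h4 : Q1 (b ^ L) (2 * b) ≤ C1 / (L * Real.log b) / P := by
    rw [le_div_iff₀ hP0]
    exact h3
  refine h4.trans (le_of_eq ?_)
  field_simp

lemma AdQ_single (q : ℕ) (v : ℤ) : AdQ q {v} := by
  intro p hp _
  refine ⟨1 - v, fun e he => ?_⟩
  rw [mem_singleton] at he
  subst he
  rw [sub_add_cancel]
  intro h
  have h1 : (p : ℤ) ≤ 1 := Int.le_of_dvd one_pos h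
  have := hp.two_le
  omega

lemma N1_le (hSU : SUc) {b T : ℕ} (hb : 2 ≤ b) (hT : 1 ≤ T) : ∃ C : ℝ, 0 < C ∧ ∃ L0 : ℕ, ∀ L : ℕ, L0 ≤ L → ∀ K : ℕ, 1 ≤ K → 2 * K ≤ L →
    ∀ l m : ℕ, ((N1 b L K l m ((b : ℝ) ^ ((L : ℝ) / T))).card : ℝ) ≤ C * (b : ℝ) ^ (L - K) / L := by
  classical
  obtain ⟨C, hC, L0, h⟩ := hSU b hb 1 T hT
  obtain ⟨C', hC', h'⟩ := Q1_le hb
  refine ⟨C * C', by positivity, max L0 2, fun L hL K hK1 hK2 l m => ?_⟩
  obtain ⟨v, hv⟩ : ∃ v : ℤ, v = ((l * (b ^ (2 * L) + 1) + Mid b L K m : ℕ) : ℤ) := ⟨_, rfl⟩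
  have h1 := h L ((le_max_left _ _).trans hL) K hK1 hK2 {v} (by rw [card_singleton]) (singleton_nonempty v)
  have h2 : (N1 b L K l m ((b : ℝ) ^ ((L : ℝ) / T))).card ≤ ((range (b ^ (L - K))).filter (fun o : ℕ => ∀ w ∈ ({v} : Finset ℤ), ∀ p : ℕ, p.Prime → ¬ p ∣ 2 * b → (p : ℤ) ∣ OutP b L K o + w → (b : ℝ) ^ ((L : ℝ) / T) < p)).card := by
    refine card_le_card fun o ho => ?_
    rw [N1, mem_filter] at ho
    rw [mem_filter]
    refine ⟨ho.1, fun w hw p hp _ hd => ho.2 p hp ?_⟩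
    rw [mem_singleton] at hw
    rw [hw, hv] at hd
    have e : ((Pv b L K l o m : ℕ) : ℤ) = (OutP b L K o : ℤ) + ((l * (b ^ (2 * L) + 1) + Mid b L K m : ℕ) : ℤ) := by
      rw [Pv]
      push_cast
      ring
    rw [e]
    exact hd
  rw [VQ_single] at h1
  have h3 := h' L ((le_max_right _ _).trans hL)
  have hb0 : (0 : ℝ) < (b : ℝ) ^ (L - K) := by
    have : (0 : ℝ) < b := by exact_mod_cast (show 0 < b by omega)
    positivity
  calc ((N1 b L K l m ((b : ℝ) ^ ((L : ℝ) / T))).card : ℝ) ≤ _ := (Nat.cast_le (α := ℝ)).2 h2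
    _ ≤ C * ((b : ℝ) ^ (L - K) * Q1 (b ^ L) (2 * b)) := by convert h1
    _ ≤ C * ((b : ℝ) ^ (L - K) * (C' / L)) := by gcongr
    _ = C * C' * (b : ℝ) ^ (L - K) / L := by ring

lemma N2_le (hSU : SUc) (hMGL : St_MGL) {b T : ℕ} (hb : 2 ≤ b) (hT : 1 ≤ T) : ∃ C : ℝ, 0 < C ∧ ∃ L0 : ℕ, ∀ L : ℕ, L0 ≤ L → ∀ K : ℕ, 1 ≤ K → 2 * K ≤ L →
    ∀ l m m' : ℕ, ((N2 b L K l m m' ((b : ℝ) ^ ((L : ℝ) / T))).card : ℝ) ≤
      C * (b : ℝ) ^ (L - K) / (L : ℝ) ^ 2 * GQ (2 * b) (b ^ L) ((Mid b L K m' : ℤ) - Mid b L K m) ^ 3 := by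
  classical
  obtain ⟨C, hC, L0, h⟩ := hSU b hb 2 T hT
  obtain ⟨C', hC', h'⟩ := Q1_le hb
  refine ⟨C * C' ^ 2, by positivity, max L0 2, fun L hL K hK1 hK2 l m m' => ?_⟩
  obtain ⟨v, hv⟩ : ∃ v : ℤ, v = ((l * (b ^ (2 * L) + 1) + Mid b L K m : ℕ) : ℤ) := ⟨_, rfl⟩
  obtain ⟨v', hv'⟩ : ∃ v' : ℤ, v' = ((l * (b ^ (2 * L) + 1) + Mid b L K m' : ℕ) : ℤ) := ⟨_, rfl⟩
  have h1 := h L ((le_max_left _ _).trans hL) K hK1 hK2 ({v} ∪ {v'})
    ((card_union_le _ _).trans (by rw [card_singleton, card_singleton])) ⟨v, mem_union_left _ (mem_singleton_self v)⟩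
  have h2 : (N2 b L K l m m' ((b : ℝ) ^ ((L : ℝ) / T))).card ≤ ((range (b ^ (L - K))).filter (fun o : ℕ => ∀ w ∈ ({v} ∪ {v'} : Finset ℤ), ∀ p : ℕ, p.Prime → ¬ p ∣ 2 * b → (p : ℤ) ∣ OutP b L K o + w → (b : ℝ) ^ ((L : ℝ) / T) < p)).card := by
    refine card_le_card fun o ho => ?_
    rw [N2, mem_filter] at ho
    rw [mem_filter]
    refine ⟨ho.1, fun w hw p hp _ hd => ?_⟩
    rw [mem_union, mem_singleton, mem_singleton] at hw
    rcases hw with hw | hw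
    · refine ho.2.1 p hp ?_
      rw [hw, hv] at hd
      have e : ((Pv b L K l o m : ℕ) : ℤ) = (OutP b L K o : ℤ) + ((l * (b ^ (2 * L) + 1) + Mid b L K m : ℕ) : ℤ) := by
        rw [Pv]
        push_cast
        ring
      rw [e]
      exact hd
    · refine ho.2.2 p hp ?_
      rw [hw, hv'] at hd
      have e : ((Pv b L K l o m' : ℕ) : ℤ) = (OutP b L K o : ℤ) + ((l * (b ^ (2 * L) + 1) + Mid b L K m' : ℕ) : ℤ) := by
        rw [Pv]
        push_cast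
        ring
      rw [e]
      exact hd
  have h3 := h' L ((le_max_right _ _).trans hL)
  have h4 := hMGL 1 (b ^ L) (2 * b) (2 * b) (fun p _ hp => hp) {v} {v'} (by rw [card_singleton]) (by rw [card_singleton]) (AdQ_single _ _) 0
  rw [image_singleton, VQ_single, VQ_single, prod_singleton, prod_singleton] at h4
  have e1 : v' + ((2 * b : ℕ) : ℤ) * 0 = v' := by ring
  have e2 : v' - v = (Mid b L K m' : ℤ) - Mid b L K m := by
    rw [hv, hv']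
    push_cast
    ring
  rw [e1, e2, show 2 * 1 ^ 2 + 1 = 3 by norm_num] at h4
  have hb0 : (0 : ℝ) < (b : ℝ) ^ (L - K) := by
    have : (0 : ℝ) < b := by exact_mod_cast (show 0 < b by omega)
    positivity
  have hG : 0 ≤ GQ (2 * b) (b ^ L) ((Mid b L K m' : ℤ) - Mid b L K m) := by
    unfold GQ
    exact prod_nonneg fun p _ => by positivity
  have hQ := Q1_nonneg (b ^ L) (2 * b)
  have hL0 : (0 : ℝ) < L := by exact_mod_cast (show 0 < L by have := (le_max_right L0 2).trans hL; omega)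
  have h5 : Q1 (b ^ L) (2 * b) * Q1 (b ^ L) (2 * b) ≤ (C' / L) * (C' / L) := mul_le_mul h3 h3 hQ (by positivity)
  calc ((N2 b L K l m m' ((b : ℝ) ^ ((L : ℝ) / T))).card : ℝ) ≤ _ := (Nat.cast_le (α := ℝ)).2 h2
    _ ≤ C * ((b : ℝ) ^ (L - K) * VQ (b ^ L) (2 * b) ({v} ∪ {v'})) := by convert h1
    _ ≤ C * ((b : ℝ) ^ (L - K) * (Q1 (b ^ L) (2 * b) * Q1 (b ^ L) (2 * b) * GQ (2 * b) (b ^ L) ((Mid b L K m' : ℤ) - Mid b L K m) ^ 3)) := by gcongr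
    _ ≤ C * ((b : ℝ) ^ (L - K) * ((C' / L) * (C' / L) * GQ (2 * b) (b ^ L) ((Mid b L K m' : ℤ) - Mid b L K m) ^ 3)) := by gcongr
    _ = C * C' ^ 2 * (b : ℝ) ^ (L - K) / (L : ℝ) ^ 2 * GQ (2 * b) (b ^ L) ((Mid b L K m' : ℤ) - Mid b L K m) ^ 3 := by
      field_simp

lemma logsmall (C : ℝ) : ∃ L0 : ℕ, ∀ L : ℕ, L0 ≤ L → C * Real.log L ≤ L := by
  obtain ⟨N, hN⟩ := exists_nat_ge (4 * (|C| + 1) ^ 2)
  refine ⟨N + 1, fun L hL => ?_⟩
  have hL1 : (4 * (|C| + 1) ^ 2 : ℝ) ≤ L := hN.trans (by exact_mod_cast (show N ≤ L by omega))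
  have hL0 : (0 : ℝ) < L := by exact_mod_cast (show 0 < L by omega)
  have hL1' : (1 : ℝ) ≤ L := by exact_mod_cast (show 1 ≤ L by omega)
  have h1 : Real.log L ≤ 2 * Real.sqrt L := by
    have h2 : Real.log (Real.sqrt L) ≤ Real.sqrt L - 1 := Real.log_le_sub_one_of_pos (Real.sqrt_pos.2 hL0)
    rw [Real.log_sqrt hL0.le] at h2
    linarith
  have h3 : 2 * (|C| + 1) ≤ Real.sqrt L := by
    apply Real.le_sqrt_of_sq_le
    nlinarith
  have h4 : 0 ≤ Real.log L := Real.log_nonneg hL1'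
  have h5 : Real.sqrt L * Real.sqrt L = L := Real.mul_self_sqrt hL0.le
  have h6 : C ≤ |C| + 1 := by linarith [le_abs_self C]
  have h7 : 0 ≤ |C| + 1 := by positivity
  calc C * Real.log L ≤ (|C| + 1) * Real.log L := by gcongr
    _ ≤ (|C| + 1) * (2 * Real.sqrt L) := by gcongr
    _ = 2 * (|C| + 1) * Real.sqrt L := by ring
    _ ≤ Real.sqrt L * Real.sqrt L := by gcongr
    _ = L := h5

lemma Kex {b : ℕ} (hb : 2 ≤ b) : ∃ C : ℝ, 0 < C ∧ ∃ L0 : ℕ, ∀ L : ℕ, L0 ≤ L → ∃ K : ℕ, 1 ≤ K ∧ 2 * K ≤ L ∧ (L : ℝ) ^ 4 ≤ (b : ℝ) ^ K ∧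
    (K : ℝ) ≤ C * Real.log L := by
  have hlb : 0 < Real.log b := Real.log_pos (by exact_mod_cast (show 1 < b by omega))
  have hb0 : (0 : ℝ) < b := by exact_mod_cast (show 0 < b by omega)
  obtain ⟨L0, h0⟩ := logsmall (2 * (4 / Real.log b + 1))
  refine ⟨4 / Real.log b + 1, by positivity, max L0 3, fun L hL => ?_⟩
  have hL3 : 3 ≤ L := (le_max_right _ _).trans hL
  have hLr : (3 : ℝ) ≤ L := by exact_mod_cast hL3
  have hlog : 1 ≤ Real.log L := by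
    rw [Real.le_log_iff_exp_le (by linarith)]
    linarith [Real.exp_one_lt_d9]
  have hpos : 0 < 4 * Real.log L / Real.log b := by positivity
  have h1 : 4 * Real.log L / Real.log b ≤ (⌈4 * Real.log L / Real.log b⌉₊ : ℝ) := Nat.le_ceil _
  have h2 : (⌈4 * Real.log L / Real.log b⌉₊ : ℝ) < 4 * Real.log L / Real.log b + 1 := Nat.ceil_lt_add_one hpos.le
  have h3 : (⌈4 * Real.log L / Real.log b⌉₊ : ℝ) ≤ (4 / Real.log b + 1) * Real.log L := by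
    have : (4 / Real.log b + 1) * Real.log L = 4 * Real.log L / Real.log b + Real.log L := by ring
    rw [this]
    linarith
  refine ⟨⌈4 * Real.log L / Real.log b⌉₊, Nat.one_le_iff_ne_zero.2 (Nat.ceil_pos.2 hpos).ne', ?_, ?_, h3⟩
  · have h4 := h0 L ((le_max_left _ _).trans hL)
    have h5 : (2 * (⌈4 * Real.log L / Real.log b⌉₊ : ℝ)) ≤ L := by linarith
    exact_mod_cast h5
  · have h4 : (b : ℝ) ^ (⌈4 * Real.log L / Real.log b⌉₊ : ℕ) = Real.exp (Real.log b * (⌈4 * Real.log L / Real.log b⌉₊ : ℝ)) := by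
      rw [← Real.rpow_natCast, Real.rpow_def_of_pos hb0]
    have h5 : (L : ℝ) ^ 4 = Real.exp (4 * Real.log L) := by
      rw [show 4 * Real.log L = ((4 : ℕ) : ℝ) * Real.log L by norm_num, Real.exp_nat_mul, Real.exp_log (by linarith)]
    rw [h4, h5]
    apply Real.exp_le_exp.2
    rw [div_le_iff₀ hlb] at h1
    linarith

lemma term1 (hAVM : AVMc) {b : ℕ} (hb : 2 ≤ b) : ∃ C : ℝ, 0 < C ∧ ∀ L K s : ℕ, 1 ≤ K → K ≤ L → ∀ (z A : ℝ), 0 ≤ A →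
    (∀ l m m' : ℕ, ((N2 b L K l m m' z).card : ℝ) ≤ A * GQ (2 * b) (b ^ L) ((Mid b L K m' : ℤ) - Mid b L K m) ^ 3) →
    ((∑ l ∈ range b, ∑ m ∈ range (b ^ K), ∑ m' ∈ W b K s m, (N2 b L K l m m' z).card : ℕ) : ℝ) ≤
      b * (b : ℝ) ^ K * (A * (C * (2 * s + K))) := by
  obtain ⟨C, hC, h⟩ := hAVM b 3 hb
  refine ⟨C, hC, fun L K s hK hKL z A hA hN => ?_⟩
  push_cast
  have h1 : ∀ l ∈ range b, ∀ m ∈ range (b ^ K), ∑ m' ∈ W b K s m, ((N2 b L K l m m' z).card : ℝ) ≤ A * (C * (2 * s + K)) := by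
    intro l _ m hm
    rw [mem_range] at hm
    have h2 := h L K (b ^ L) m (m - s) (2 * s) hK hKL hm
    push_cast at h2
    calc ∑ m' ∈ W b K s m, ((N2 b L K l m m' z).card : ℝ)
        ≤ ∑ m' ∈ W b K s m, A * GQ (2 * b) (b ^ L) ((Mid b L K m' : ℤ) - Mid b L K m) ^ 3 := sum_le_sum fun m' _ => hN l m m'
      _ = A * ∑ m' ∈ W b K s m, GQ (2 * b) (b ^ L) ((Mid b L K m' : ℤ) - Mid b L K m) ^ 3 := by rw [mul_sum]
      _ ≤ A * (C * (2 * s + K)) := mul_le_mul_of_nonneg_left h2 hA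
  calc ∑ l ∈ range b, ∑ m ∈ range (b ^ K), ∑ m' ∈ W b K s m, ((N2 b L K l m m' z).card : ℝ)
      ≤ ∑ l ∈ range b, ∑ m ∈ range (b ^ K), A * (C * (2 * s + K)) := sum_le_sum fun l hl => sum_le_sum fun m hm => h1 l hl m hm
    _ = b * (b : ℝ) ^ K * (A * (C * (2 * s + K))) := by
      rw [sum_const, sum_const, card_range, card_range, nsmul_eq_mul, nsmul_eq_mul]
      push_cast
      ring

lemma term2 {b L K s : ℕ} {z A : ℝ} (hA : 0 ≤ A) (hN : ∀ l m : ℕ, ((N1 b L K l m z).card : ℝ) ≤ A) :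
    ((∑ l ∈ range b, ∑ m ∈ Ed b K s, (N1 b L K l m z).card : ℕ) : ℝ) ≤ b * ((2 * s + 1) * A) := by
  push_cast
  calc ∑ l ∈ range b, ∑ m ∈ Ed b K s, ((N1 b L K l m z).card : ℝ)
      ≤ ∑ l ∈ range b, ∑ m ∈ Ed b K s, A := sum_le_sum fun l _ => sum_le_sum fun m _ => hN l m
    _ = b * ((Ed b K s).card * A) := by
      rw [sum_const, sum_const, card_range, nsmul_eq_mul, nsmul_eq_mul]
    _ ≤ b * ((2 * s + 1) * A) := by
      have h : ((Ed b K s).card : ℝ) ≤ 2 * s + 1 := by exact_mod_cast card_Ed b K s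
      gcongr

lemma fin {b C1 C2 C3 Ck S ℓ X Y Z L s K : ℝ} (hb : 0 ≤ b) (hC1 : 0 ≤ C1) (hC2 : 0 ≤ C2) (hC3 : 0 ≤ C3) (hCk : 0 ≤ Ck)
    (hS : 0 ≤ S) (hℓ : 1 ≤ ℓ) (hX : 0 ≤ X) (hZ : Z = X * Y) (hY : L ^ 4 ≤ Y) (hL : 1 ≤ L) (hs : s ≤ S + 1) (hK : K ≤ Ck * ℓ) :
    b * Y * (C2 * X / L ^ 2 * (C3 * (2 * s + K))) + b * ((2 * s + 1) * (C1 * X / L)) ≤
      (b * C2 * C3 * (4 + Ck) + 5 * b * C1) * (S + ℓ) * Z / L ^ 2 := by
  have hL0 : 0 < L := by linarith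
  have hL4 : 0 ≤ L ^ 4 := by positivity
  have hY0 : 0 ≤ Y := hL4.trans hY
  have hZ0 : 0 ≤ Z := by rw [hZ]; positivity
  have h1 : 2 * s + K ≤ (4 + Ck) * (S + ℓ) := by nlinarith [mul_nonneg hCk hS]
  have h2 : 2 * s + 1 ≤ 5 * (S + ℓ) := by linarith
  have e1 : b * Y * (C2 * X / L ^ 2 * (C3 * (2 * s + K))) = b * C2 * C3 * Z / L ^ 2 * (2 * s + K) := by
    rw [hZ]
    ring
  have h3 : b * C2 * C3 * Z / L ^ 2 * (2 * s + K) ≤ b * C2 * C3 * Z / L ^ 2 * ((4 + Ck) * (S + ℓ)) :=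
    mul_le_mul_of_nonneg_left h1 (by positivity)
  have h4 : X / L ≤ Z / L ^ 2 := by
    rw [div_le_div_iff₀ hL0 (by positivity), hZ]
    have h5 : L ≤ Y := by
      refine le_trans ?_ hY
      calc L = L ^ 1 := (pow_one L).symm
        _ ≤ L ^ 4 := pow_le_pow_right₀ hL (by norm_num)
    calc X * L ^ 2 = X * L * L := by ring
      _ ≤ X * Y * L := by gcongr
  have h5 : b * ((2 * s + 1) * (C1 * X / L)) = b * C1 * (X / L) * (2 * s + 1) := by ring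
  have h6 : b * C1 * (X / L) * (2 * s + 1) ≤ b * C1 * (X / L) * (5 * (S + ℓ)) :=
    mul_le_mul_of_nonneg_left h2 (by positivity)
  have h7 : b * C1 * (X / L) * (5 * (S + ℓ)) ≤ b * C1 * (Z / L ^ 2) * (5 * (S + ℓ)) := by
    have h8 : 0 ≤ 5 * (S + ℓ) := by positivity
    gcongr
  rw [e1, h5]
  have e2 : (b * C2 * C3 * (4 + Ck) + 5 * b * C1) * (S + ℓ) * Z / L ^ 2 =
      b * C2 * C3 * Z / L ^ 2 * ((4 + Ck) * (S + ℓ)) + b * C1 * (Z / L ^ 2) * (5 * (S + ℓ)) := by ring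
  rw [e2]
  linarith only [h3, h6, h7]

theorem first (hPD : PDc) (hSU : SUc) (hMGL : St_MGL) (hAVM : AVMc) {b T : ℕ} (hb : 2 ≤ b) (hT : 1 ≤ T) :
    ∃ C : ℝ, 0 < C ∧ ∃ L0 : ℕ, ∀ L : ℕ, L0 ≤ L → ∀ S : ℝ, 0 ≤ S → S ≤ L →
    ((Clus b L ((b : ℝ) ^ ((L : ℝ) / T)) (S * b ^ L)).card : ℝ) ≤ C * (S + Real.log L) * (b : ℝ) ^ L / (L : ℝ) ^ 2 := by
  obtain ⟨C1, hC1, L1, h1⟩ := N1_le hSU hb hT
  obtain ⟨C2, hC2, L2, h2⟩ := N2_le hSU hMGL hb hT
  obtain ⟨C3, hC3, h3⟩ := term1 hAVM hb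
  obtain ⟨Ck, hCk, L4, h4⟩ := Kex hb
  have hb0 : (0 : ℝ) < b := by exact_mod_cast (show 0 < b by omega)
  refine ⟨b * C2 * C3 * (4 + Ck) + 5 * b * C1, by positivity, max (max L1 L2) (max L4 3), fun L hL S hS _ => ?_⟩
  have hL1 : L1 ≤ L := (le_max_left _ _).trans ((le_max_left _ _).trans hL)
  have hL2 : L2 ≤ L := (le_max_right _ _).trans ((le_max_left _ _).trans hL)
  have hL4 : L4 ≤ L := (le_max_left _ _).trans ((le_max_right _ _).trans hL)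
  have hL3 : 3 ≤ L := (le_max_right _ _).trans ((le_max_right _ _).trans hL)
  obtain ⟨K, hK1, hK2, hK3, hK4⟩ := h4 L hL4
  have hLr : (3 : ℝ) ≤ L := by exact_mod_cast hL3
  have hlog : 1 ≤ Real.log L := by
    rw [Real.le_log_iff_exp_le (by linarith)]
    linarith [Real.exp_one_lt_d9]
  have hX : 0 ≤ (b : ℝ) ^ (L - K) := by positivity
  have h5 := clus_card hPD hb (show 1 ≤ L by omega) (show K ≤ L by omega) ((b : ℝ) ^ ((L : ℝ) / T)) S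
  have h6 := h3 L K ⌊S + 1⌋₊ hK1 (by omega) ((b : ℝ) ^ ((L : ℝ) / T)) (C2 * (b : ℝ) ^ (L - K) / (L : ℝ) ^ 2) (by positivity)
    (fun l m m' => h2 L hL2 K hK1 hK2 l m m')
  have h7 := term2 (b := b) (L := L) (K := K) (s := ⌊S + 1⌋₊) (z := (b : ℝ) ^ ((L : ℝ) / T)) (A := C1 * (b : ℝ) ^ (L - K) / L) (by positivity)
    (fun l m => h1 L hL1 K hK1 hK2 l m)
  have h8 : ((⌊S + 1⌋₊ : ℕ) : ℝ) ≤ S + 1 := Nat.floor_le (by linarith)
  have hZ : (b : ℝ) ^ L = (b : ℝ) ^ (L - K) * (b : ℝ) ^ K := by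
    rw [← pow_add, Nat.sub_add_cancel (by omega)]
  have h9 := fin (b := b) (C1 := C1) (C2 := C2) (C3 := C3) (Ck := Ck) (S := S) (ℓ := Real.log L) (X := (b : ℝ) ^ (L - K))
    (Y := (b : ℝ) ^ K) (Z := (b : ℝ) ^ L) (L := L) (s := (⌊S + 1⌋₊ : ℕ)) (K := K) hb0.le hC1.le hC2.le hC3.le hCk.le hS hlog hX hZ hK3
    (by linarith) h8 hK4
  refine le_trans ?_ h9
  have h10 : ((Clus b L ((b : ℝ) ^ ((L : ℝ) / T)) (S * b ^ L)).card : ℝ) ≤
      ((∑ l ∈ range b, ∑ m ∈ range (b ^ K), ∑ m' ∈ W b K ⌊S + 1⌋₊ m, (N2 b L K l m m' ((b : ℝ) ^ ((L : ℝ) / T))).card : ℕ) : ℝ) +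
      ((∑ l ∈ range b, ∑ m ∈ Ed b K ⌊S + 1⌋₊, (N1 b L K l m ((b : ℝ) ^ ((L : ℝ) / T))).card : ℕ) : ℝ) := by
    rw [← Nat.cast_add]
    exact (Nat.cast_le (α := ℝ)).2 h5
  exact h10.trans (add_le_add h6 h7)

theorem second (hF : ∀ T : ℕ, 1 ≤ T → ∀ b : ℕ, 2 ≤ b → ∃ C : ℝ, 0 < C ∧ ∃ L0 : ℕ, ∀ L : ℕ, L0 ≤ L → ∀ S : ℝ, 0 ≤ S → S ≤ L →
    ((Clus b L ((b : ℝ) ^ ((L : ℝ) / T)) (S * b ^ L)).card : ℝ) ≤ C * (S + Real.log L) * (b : ℝ) ^ L / (L : ℝ) ^ 2) {b T : ℕ} (hb : 2 ≤ b) (hT : 13 ≤ T) :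
    ∃ c : ℝ, 0 < c ∧ ∃ ν : ℝ, 0 < ν ∧ ∃ L0 : ℕ, ∀ L : ℕ, L0 ≤ L →
    c * (b : ℝ) ^ L / L ≤ ((Isol b L (if 1000 ≤ b then 3 else if 64 ≤ b then 4 else 5) ((b : ℝ) ^ ((L : ℝ) / 13)) ((b : ℝ) ^ ((L : ℝ) / T)) (ν * L * b ^ L)).card : ℝ) := by
  classical
  obtain ⟨C, hC, L1, h1⟩ := hF T (by omega) b hb
  obtain ⟨c0, hc0, h2⟩ := Pool.Agent.W139.PX.finU hb
  obtain ⟨L2, h2⟩ := eventually_atTop.1 h2
  obtain ⟨L3, h3⟩ := logsmall (4 * C / c0)
  obtain ⟨ν, hν⟩ : ∃ ν : ℝ, ν = min 1 (c0 / (4 * C)) := ⟨_, rfl⟩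
  have hν0 : 0 < ν := by rw [hν]; exact lt_min one_pos (by positivity)
  have hν1 : ν ≤ 1 := by rw [hν]; exact min_le_left _ _
  have hν2 : ν ≤ c0 / (4 * C) := by rw [hν]; exact min_le_right _ _
  refine ⟨c0 / 2, by positivity, ν, hν0, max (max L1 L2) (max L3 1), fun L hL => ?_⟩
  have hL1 : L1 ≤ L := (le_max_left _ _).trans ((le_max_left _ _).trans hL)
  have hL2 : L2 ≤ L := (le_max_right _ _).trans ((le_max_left _ _).trans hL)
  have hL3 : L3 ≤ L := (le_max_left _ _).trans ((le_max_right _ _).trans hL)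
  have hL4 : 1 ≤ L := (le_max_right _ _).trans ((le_max_right _ _).trans hL)
  have hL0 : (0 : ℝ) < L := by exact_mod_cast (show 0 < L by omega)
  have hb0 : (0 : ℝ) < b := by exact_mod_cast (show 0 < b by omega)
  have hb1 : (1 : ℝ) ≤ b := by exact_mod_cast (show 1 ≤ b by omega)
  obtain ⟨R, hR⟩ : ∃ R : ℕ, R = (if 1000 ≤ b then 3 else if 64 ≤ b then 4 else 5) := ⟨_, rfl⟩
  have h4 := h2 L hL2
  rw [← hR] at h4
  rw [← hR]
  have h5 := h1 L hL1 (ν * L) (by positivity) (by nlinarith)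
  obtain ⟨z, hz⟩ : ∃ z : ℝ, z = (b : ℝ) ^ ((L : ℝ) / T) := ⟨_, rfl⟩
  rw [← hz] at h5
  rw [← hz]
  have hz13 : z ≤ (b : ℝ) ^ ((1 / 13) * (L : ℝ)) := by
    rw [hz]
    apply Real.rpow_le_rpow_of_exponent_le hb1
    have hT' : (13 : ℝ) ≤ T := by exact_mod_cast hT
    rw [div_eq_mul_one_div, mul_comm]
    have : (1 : ℝ) / T ≤ 1 / 13 := one_div_le_one_div_of_le (by norm_num) hT'
    gcongr
  have hsub : (range (b ^ (2 * L + 1))).filter (fun n => b ^ (2 * L) ≤ n ∧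
      (Nat.digits b n).reverse = Nat.digits b n ∧ n.primeFactorsList.length ≤ R ∧
      ∀ p ∈ n.primeFactorsList, (b : ℝ) ^ ((1 / 13) * (L : ℝ)) < p) ⊆
      Isol b L R ((b : ℝ) ^ ((L : ℝ) / 13)) z (ν * L * b ^ L) ∪ Clus b L z (ν * L * b ^ L) := by
    intro n hn
    rw [mem_filter, mem_range] at hn
    obtain ⟨hn1, hn2, hn3, hn4, hn5⟩ := hn
    have hP : n ∈ Pal b L := by
      rw [Pal, mem_filter, mem_range]
      exact ⟨hn1, hn2, hn3⟩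
    have hn0 : n ≠ 0 := by
      have : 0 < b ^ (2 * L) := pow_pos (by omega) _
      omega
    have hpf : ∀ p : ℕ, p.Prime → p ∣ n → (b : ℝ) ^ ((1 / 13) * (L : ℝ)) < p := fun p hp hd =>
      hn5 p ((Nat.mem_primeFactorsList hn0).2 ⟨hp, hd⟩)
    rw [mem_union]
    by_cases hI : ∀ n' ∈ Pal b L, n' ≠ n → |((n' : ℝ) - n)| ≤ ν * L * b ^ L → ¬ Ro z n'
    · left
      rw [Isol, mem_filter]
      refine ⟨hP, hn4, fun p hp hd => ?_, hI⟩
      have := hpf p hp hd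
      rwa [show (1 / 13 : ℝ) * L = (L : ℝ) / 13 by ring] at this
    · right
      push Not at hI
      obtain ⟨n', hn6, hn7, hn8, hn9⟩ := hI
      rw [Clus, mem_filter]
      refine ⟨hP, fun p hp hd => ?_, n', hn6, hn7, hn8, hn9⟩
      exact hz13.trans_lt (hpf p hp (by exact_mod_cast hd))
  have h6 : (((range (b ^ (2 * L + 1))).filter (fun n => b ^ (2 * L) ≤ n ∧
      (Nat.digits b n).reverse = Nat.digits b n ∧ n.primeFactorsList.length ≤ R ∧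
      ∀ p ∈ n.primeFactorsList, (b : ℝ) ^ ((1 / 13) * (L : ℝ)) < p)).card : ℝ) ≤
      ((Isol b L R ((b : ℝ) ^ ((L : ℝ) / 13)) z (ν * L * b ^ L)).card : ℝ) + ((Clus b L z (ν * L * b ^ L)).card : ℝ) := by
    rw [← Nat.cast_add]
    exact (Nat.cast_le (α := ℝ)).2 ((card_le_card hsub).trans (card_union_le _ _))
  have h7 : c0 * (b : ℝ) ^ L / L ≤ ((Isol b L R ((b : ℝ) ^ ((L : ℝ) / 13)) z (ν * L * b ^ L)).card : ℝ) + ((Clus b L z (ν * L * b ^ L)).card : ℝ) := by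
    refine le_trans (le_trans h4 (le_of_eq ?_)) h6
    congr
  have h8 : C * (ν * L + Real.log L) * (b : ℝ) ^ L / (L : ℝ) ^ 2 ≤ c0 / 2 * (b : ℝ) ^ L / L := by
    have h9 := h3 L hL3
    have h10 : C * Real.log L ≤ c0 / 4 * L := by
      have e : C * Real.log L = c0 / 4 * (4 * C / c0 * Real.log L) := by
        field_simp
      rw [e]
      gcongr
    have h11 : C * (ν * L) ≤ c0 / 4 * L := by
      have e : c0 / 4 * L = C * (c0 / (4 * C) * L) := by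
        field_simp
      rw [e]
      gcongr
    have h12 : C * (ν * L + Real.log L) ≤ c0 / 2 * L := by linarith
    calc C * (ν * L + Real.log L) * (b : ℝ) ^ L / (L : ℝ) ^ 2 ≤ (c0 / 2 * L) * (b : ℝ) ^ L / (L : ℝ) ^ 2 := by gcongr
      _ = c0 / 2 * (b : ℝ) ^ L / L := by
        field_simp
  have e13 : c0 * (b : ℝ) ^ L / L = c0 / 2 * (b : ℝ) ^ L / L + c0 / 2 * (b : ℝ) ^ L / L := by ring
  linarith only [h5, h7, h8, e13]

end PAa

theorem pa : St_PA := by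
  intro hPD hSU hMGL hAVM b T hb hT
  have hF : ∀ T : ℕ, 1 ≤ T → ∀ b : ℕ, 2 ≤ b → ∃ C : ℝ, 0 < C ∧ ∃ L0 : ℕ, ∀ L : ℕ, L0 ≤ L → ∀ S : ℝ, 0 ≤ S → S ≤ L →
      ((Clus b L ((b : ℝ) ^ ((L : ℝ) / T)) (S * b ^ L)).card : ℝ) ≤ C * (S + Real.log L) * (b : ℝ) ^ L / (L : ℝ) ^ 2 :=
    fun T hT b hb => PAa.first hPD hSU hMGL hAVM hb hT
  exact ⟨hF T hT b hb, fun h13 => PAa.second hF hb h13⟩

end Pool.Agent.Q117.PL
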