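import Pool.Agent.Q117.PL.Stm
import Pool.Agent.Y816.PS.B

/-!
Job PD of project PL (helper117): digits of palindromes.
-/

set_option autoImplicit false

namespace Pool.Agent.Q117.PL

open Finset
open Pool.Agent.H39R3.PB (fr)
open Pool.Agent.Y816.PS (pal pal_eq pal_digits pal_reverse sum_dig sum_lt)

namespace PDa

lemma dlow (b k c u v : ℕ) (hb : 0 < b) (hc : c < k) : (u * b ^ k + v) / b ^ c % b = v / b ^ c % b := by
  obtain ⟨d, rfl⟩ : ∃ d, k = c + (d + 1) := ⟨k - c - 1, by omega⟩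
  have hp : 0 < b ^ c := pow_pos hb c
  have e : u * b ^ (c + (d + 1)) + v = v + (u * b ^ d * b) * b ^ c := by ring
  rw [e, Nat.add_mul_div_right _ _ hp, Nat.add_mul_mod_self_right]

lemma dhigh (b k c u v : ℕ) (hb : 0 < b) (hv : v < b ^ k) : (u * b ^ k + v) / b ^ (k + c) = u / b ^ c := by
  have hp : 0 < b ^ k := pow_pos hb k
  rw [pow_add, ← Nat.div_div_eq_div_mul, add_comm, Nat.add_mul_div_right _ _ hp, Nat.div_eq_of_lt hv, zero_add]

lemma Pl_eq (b L l : ℕ) : Pl b L l = pal b L (fun c => l / b ^ c % b) := by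
  rw [pal_eq, Pl, sum_range_succ']
  rw [add_comm]
  refine congrArg₂ (fun x y => x + y) ?_ ?_
  · simp [fr]
  · refine sum_congr rfl fun c _ => ?_
    simp only [fr, Nat.add_eq_zero_iff, one_ne_zero, and_false, if_false]
    rw [show L + (c + 1) = L + c + 1 by ring, show L - (c + 1) = L - 1 - c by omega]

lemma Pl_split {b L l : ℕ} (hb : 2 ≤ b) (hl : l < b ^ (L + 1)) : ∃ e < b ^ L, Pl b L l = l * b ^ L + e := by
  have hb0 : 0 < b := by omega
  refine ⟨∑ c ∈ range L, (l / b ^ (c + 1) % b) * b ^ (L - 1 - c), ?_, ?_⟩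
  · rw [← sum_range_reflect]
    have h := sum_lt (b := b) (f := fun j => l / b ^ (L - j) % b) (fun i => Nat.mod_lt _ hb0) L
    refine lt_of_le_of_lt (le_of_eq ?_) h
    refine sum_congr rfl fun j hj => ?_
    rw [mem_range] at hj
    rw [show L - 1 - j + 1 = L - j by omega, show L - 1 - (L - 1 - j) = j by omega]
  · rw [Pl_eq, pal_eq]
    have h : l = ∑ j ∈ range (L + 1), (l / b ^ j % b) * b ^ j := by
      rw [sum_dig, Nat.mod_eq_of_lt hl]
    have h2 : l * b ^ L = (l / b ^ 0 % b) * b ^ L + ∑ c ∈ range L, (l / b ^ (c + 1) % b) * b ^ (L + c + 1) := by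
      conv_lhs => rw [h]
      rw [sum_range_succ', add_mul, sum_mul, add_comm]
      congr 1
      · rw [pow_zero, mul_one]
      · refine sum_congr rfl fun c _ => ?_
        rw [show L + c + 1 = (c + 1) + L by ring, pow_add]
        ring
    rw [h2]
    simp only [mul_add, sum_add_distrib]
    ring

lemma Pl_div {b L l : ℕ} (hb : 2 ≤ b) (hl : l < b ^ (L + 1)) : Pl b L l / b ^ L = l := by
  obtain ⟨e, he, h⟩ := Pl_split hb hl
  have hp : 0 < b ^ L := pow_pos (by omega) L
  rw [h, add_comm, Nat.add_mul_div_right _ _ hp, Nat.div_eq_of_lt he, zero_add]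

lemma Pl_lt {b L l : ℕ} (hb : 2 ≤ b) : Pl b L l < b ^ (2 * L + 1) := by
  rw [Pl_eq]
  exact sum_lt (b := b) (f := fun i => l / b ^ ((L - i) + (i - L)) % b) (fun i => Nat.mod_lt _ (by omega)) (2 * L + 1)

lemma sym {b L n : ℕ} (hb : 2 ≤ b) (h1 : b ^ (2 * L) ≤ n) (h2 : n < b ^ (2 * L + 1))
    (hr : (Nat.digits b n).reverse = Nat.digits b n) {i : ℕ} (hi : i ≤ 2 * L) :
    n / b ^ i % b = n / b ^ (2 * L - i) % b := by
  have hn : n ≠ 0 := by
    have : 0 < b ^ (2 * L) := pow_pos (by omega) _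
    omega
  have hlen : (Nat.digits b n).length = 2 * L + 1 := by
    rw [Nat.length_digits b n (by omega) hn, Nat.log_eq_of_pow_le_of_lt_pow h1 h2]
  rw [← Nat.getD_digits n i hb, ← Nat.getD_digits n (2 * L - i) hb]
  rw [List.getD_eq_getElem _ _ (by omega), List.getD_eq_getElem _ _ (by omega)]
  have h3 : (Nat.digits b n)[i]'(by omega) = ((Nat.digits b n).reverse)[i]'(by rw [List.length_reverse]; omega) := by
    simp only [hr]
  rw [h3, List.getElem_reverse]
  congr 1
  omega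

lemma mem_Pal {b L : ℕ} (hb : 2 ≤ b) (n : ℕ) :
    n ∈ Pal b L ↔ ∃ l : ℕ, b ^ L ≤ l ∧ l < b ^ (L + 1) ∧ n = Pl b L l := by
  have hp : 0 < b ^ L := pow_pos (by omega) L
  rw [Pal, mem_filter, mem_range]
  constructor
  · rintro ⟨h2, h1, hr⟩
    refine ⟨n / b ^ L, ?_, ?_, ?_⟩
    · rw [Nat.le_div_iff_mul_le hp, ← pow_add]
      rwa [← two_mul]
    · rw [Nat.div_lt_iff_lt_mul hp, ← pow_add]
      rwa [show L + 1 + L = 2 * L + 1 by ring]
    · rw [Pl_eq, pal]
      have h3 : n = ∑ i ∈ range (2 * L + 1), (n / b ^ i % b) * b ^ i := by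
        rw [sum_dig, Nat.mod_eq_of_lt h2]
      conv_lhs => rw [h3]
      refine sum_congr rfl fun i hi => ?_
      rw [mem_range] at hi
      congr 1
      rw [Nat.div_div_eq_div_mul, ← pow_add]
      rcases le_or_gt L i with hL | hL
      · rw [show L + (L - i + (i - L)) = i by omega]
      · rw [show L + (L - i + (i - L)) = 2 * L - i by omega]
        exact sym hb h1 h2 hr (by omega)
  · rintro ⟨l, h1, h2, rfl⟩
    refine ⟨Pl_lt hb, ?_, ?_⟩
    · obtain ⟨e, _, h⟩ := Pl_split hb h2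
      rw [h, two_mul, pow_add]
      have := Nat.mul_le_mul_right (b ^ L) h1
      omega
    · rw [Pl_eq]
      refine pal_reverse hb (fun i => Nat.mod_lt _ (by omega)) ?_
      have h3 : l / b ^ L < b := by
        rw [Nat.div_lt_iff_lt_mul hp, ← pow_succ']
        exact h2
      have h4 : 1 ≤ l / b ^ L := by
        rw [Nat.le_div_iff_mul_le hp, one_mul]
        exact h1
      have h5 : l / b ^ L % b = l / b ^ L := Nat.mod_eq_of_lt h3
      intro h6
      have h7 : l / b ^ L % b = 0 := h6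
      omega

lemma Pl_Pv {b L : ℕ} (hb : 2 ≤ b) (hL : 1 ≤ L) {K l o m : ℕ} (hK : K ≤ L) (hl : l < b) (ho : o < b ^ (L - K))
    (hm : m < b ^ K) : Pl b L (l * b ^ L + o * b ^ K + m) = Pv b L K l o m := by
  have hb0 : 0 < b := by omega
  have e1 : l * b ^ L + o * b ^ K + m = (l * b ^ (L - K) + o) * b ^ K + m := by
    rw [add_mul, mul_assoc, ← pow_add, Nat.sub_add_cancel hK]
  have hlt : o * b ^ K + m < b ^ L := by
    have h1 : (o + 1) * b ^ K ≤ b ^ (L - K) * b ^ K := Nat.mul_le_mul_right _ ho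
    rw [← pow_add, Nat.sub_add_cancel hK] at h1
    have h2 : (o + 1) * b ^ K = o * b ^ K + b ^ K := by ring
    omega
  rw [Pl, sum_range_succ]
  have h1 : (l * b ^ L + o * b ^ K + m) / b ^ L % b = l := by
    have := dhigh b L 0 l (o * b ^ K + m) hb0 hlt
    rw [add_zero, pow_zero, Nat.div_one, ← add_assoc] at this
    rw [this, Nat.mod_eq_of_lt hl]
  have h2 : fr b L L = b ^ (2 * L) + 1 := by
    rw [fr, if_neg (by omega), Nat.sub_self, pow_zero, two_mul]
  rw [h1, h2]
  have h3 : ∑ c ∈ range L, ((l * b ^ L + o * b ^ K + m) / b ^ c % b) * fr b L c = Mid b L K m + OutP b L K o := by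
    obtain ⟨J, hJ⟩ : ∃ J, L = K + J := ⟨L - K, by omega⟩
    have h4 : range L = range (K + J) := by rw [hJ]
    rw [h4, sum_range_add, Mid, OutP, show L - K = J by omega]
    congr 1
    · refine sum_congr rfl fun c hc => ?_
      rw [mem_range] at hc
      rw [e1, dlow b K c _ _ hb0 hc]
    · refine sum_congr rfl fun c hc => ?_
      rw [mem_range] at hc
      rw [e1, dhigh b K c _ _ hb0 hm, dlow b (L - K) c _ _ hb0 (by omega)]
  rw [h3, Pv]
  ring

end PDa

theorem pd : PDc := by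
  intro b L hb hL
  refine ⟨fun n => PDa.mem_Pal hb n, fun l l' hl hl' => ?_, fun l l' hl hl' h => ?_, fun K l o m hK hl ho hm => PDa.Pl_Pv hb hL hK hl ho hm⟩
  · obtain ⟨e, he, h⟩ := PDa.Pl_split hb hl
    obtain ⟨e', he', h'⟩ := PDa.Pl_split hb hl'
    rw [h, h']
    have he1 : (e : ℤ) < (b : ℤ) ^ L := by exact_mod_cast he
    have he2 : (e' : ℤ) < (b : ℤ) ^ L := by exact_mod_cast he'
    have h1 : (((l' * b ^ L + e' : ℕ) : ℤ) - ((l * b ^ L + e : ℕ) : ℤ)) - ((l' : ℤ) - l) * b ^ L = (e' : ℤ) - e := by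
      push_cast
      ring
    rw [h1, abs_lt]
    constructor <;> omega
  · rw [← PDa.Pl_div hb hl, ← PDa.Pl_div hb hl', h]

end Pool.Agent.Q117.PL
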