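import Pool.Agent.Q117.PL.Stm
import Pool.Agent.Q117.AP.Pat

/-!
Project PL (helper117), job PT: tuples of palindromes with prescribed middle blocks, isolated.
-/

set_option autoImplicit false

namespace Pool.Agent.Q117.PL

open Finset Filter
open Pool.Agent.H39R3.PB (fr)
open Pool.Agent.Q117.LF (Ro oF)
open Pool.Agent.Q117.AP (AdQ VQ)
open Pool.Agent.Q117.MG (GQ St_MGL)

namespace PTa

open Pool.Agent.Q117.AP.PATa (VQ_nonneg Q1 VQ_single Q1_le tot_pos)

theorem oF_shift' (F : Finset ℤ) (t : ℤ) (p : ℕ) : oF F p ≤ oF (F.image (fun f => f + t)) p := by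
  unfold oF
  have h1 : F.image (fun e : ℤ => e % (p : ℤ)) ⊆
      ((F.image (fun f => f + t)).image (fun e : ℤ => e % (p : ℤ))).image
        (fun r => (r - t) % (p : ℤ)) := by
    intro x hx
    rw [mem_image] at hx
    obtain ⟨e, he, rfl⟩ := hx
    rw [mem_image]
    refine ⟨(e + t) % (p : ℤ), mem_image_of_mem _ (mem_image_of_mem _ he), ?_⟩
    rw [Int.emod_sub_emod]
    congr 1
    ring
  exact (card_le_card h1).trans card_image_le

theorem oF_shift (F : Finset ℤ) (t : ℤ) (p : ℕ) : oF (F.image (fun f => f + t)) p = oF F p := by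
  refine le_antisymm ?_ (oF_shift' F t p)
  have h1 := oF_shift' (F.image (fun f => f + t)) (-t) p
  have h2 : (F.image (fun f => f + t)).image (fun f => f + -t) = F := by
    rw [image_image]
    have h3 : ((fun f : ℤ => f + -t) ∘ fun f => f + t) = id := by
      funext f
      simp
    rw [h3, image_id]
  rwa [h2] at h1

theorem VQ_shift (y q : ℕ) (F : Finset ℤ) (t : ℤ) : VQ y q (F.image (fun f => f + t)) = VQ y q F := by
  unfold VQ
  exact prod_congr rfl fun p _ => by rw [oF_shift]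

theorem GQ_one_le (q y : ℕ) (m : ℤ) : 1 ≤ GQ q y m := by
  unfold GQ
  have h : ∀ p ∈ (Icc 1 y).filter (fun p : ℕ => p.Prime ∧ ¬ p ∣ q ∧ (p : ℤ) ∣ m), (1 : ℝ) ≤ 1 + 2 / (p : ℝ) := by
    intro p _
    have : (0 : ℝ) ≤ 2 / (p : ℝ) := by positivity
    linarith
  calc (1 : ℝ) = ∏ p ∈ (Icc 1 y).filter (fun p : ℕ => p.Prime ∧ ¬ p ∣ q ∧ (p : ℤ) ∣ m), (1 : ℝ) := by rw [prod_const_one]
    _ ≤ _ := prod_le_prod (fun _ _ => zero_le_one) h

/-- a product of numbers `≥ 1` over a small set, to a power, is at most one of the powers -/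
theorem prod_le_one_pow {V : Finset ℤ} {r N : ℕ} (hV : V.Nonempty) (hc : V.card ≤ r) (x : ℤ → ℝ) (hx : ∀ v, 1 ≤ x v) :
    ∃ v ∈ V, (∏ u ∈ V, x u) ^ N ≤ x v ^ (r * N) := by
  obtain ⟨v, hv, hmax⟩ := exists_max_image V x hV
  refine ⟨v, hv, ?_⟩
  have h0 : (0 : ℝ) ≤ x v := by linarith [hx v]
  have h1 : ∏ u ∈ V, x u ≤ x v ^ r := by
    calc ∏ u ∈ V, x u ≤ ∏ _u ∈ V, x v := prod_le_prod (fun u _ => by linarith [hx u]) hmax
      _ = x v ^ V.card := by rw [prod_const]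
      _ ≤ x v ^ r := pow_le_pow_right₀ (hx v) hc
  rw [pow_mul]
  exact pow_le_pow_left₀ (prod_nonneg fun u _ => by linarith [hx u]) h1 N

theorem fr_dvd {b L c p : ℕ} (hc : c < L) (hp : p ∣ b) : p ∣ fr b L c := by
  unfold fr
  split_ifs with h
  · exact hp.trans (dvd_pow_self b (by omega))
  · exact dvd_add (hp.trans (dvd_pow_self b (by omega))) (hp.trans (dvd_pow_self b (by omega)))

theorem fr_even {b L c : ℕ} (hb : Odd b) (hc : 0 < c) : 2 ∣ fr b L c := by
  unfold fr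
  rw [if_neg (by omega)]
  exact (Odd.add_odd hb.pow hb.pow).two_dvd

/-- the palindromes have no common factor with `2 b` -/
theorem Pv_cop {b L K o m : ℕ} (hK : 1 ≤ K) (hKL : K ≤ L) (hm : Even b ∨ Odd (m % b)) {p : ℕ}
    (hp : p.Prime) (hpb : p ∣ 2 * b) : ¬ p ∣ Pv b L K 1 o m := by
  intro hd
  by_cases h : p ∣ b
  · have h1 : p ∣ OutP b L K o := dvd_sum fun c hc => Dvd.dvd.mul_left (fr_dvd (by have := mem_range.1 hc; omega) h) _
    have h2 : p ∣ Mid b L K m := dvd_sum fun c hc => Dvd.dvd.mul_left (fr_dvd (by have := mem_range.1 hc; omega) h) _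
    have h3 : p ∣ b ^ (2 * L) := h.trans (dvd_pow_self b (by omega))
    have h4 : Pv b L K 1 o m = b ^ (2 * L) + OutP b L K o + Mid b L K m + 1 := by
      unfold Pv
      ring
    rw [h4] at hd
    have h5 : p ∣ 1 := (Nat.dvd_add_right (dvd_add (dvd_add h3 h1) h2)).1 hd
    exact hp.one_lt.ne' (Nat.dvd_one.1 h5)
  · have h2p : p = 2 := by
      rcases hp.dvd_mul.1 hpb with h1 | h1
      · exact (Nat.prime_dvd_prime_iff_eq hp Nat.prime_two).1 h1
      · exact absurd h1 h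
    subst h2p
    have hodd : Odd b := Nat.not_even_iff_odd.1 fun he => h he.two_dvd
    have hmo : Odd (m % b) := by
      rcases hm with h1 | h1
      · exact absurd h1 (Nat.not_even_iff_odd.2 hodd)
      · exact h1
    have h1 : 2 ∣ OutP b L K o := dvd_sum fun c hc => Dvd.dvd.mul_left (fr_even hodd (by omega)) _
    obtain ⟨K', rfl⟩ : ∃ K', K = K' + 1 := ⟨K - 1, by omega⟩
    have h3 : Mid b L (K' + 1) m = (∑ c ∈ range K', (m / b ^ (c + 1) % b) * fr b L (c + 1)) + (m % b) * b ^ L := by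
      unfold Mid
      rw [sum_range_succ']
      simp [fr]
    have h4 : 2 ∣ ∑ c ∈ range K', (m / b ^ (c + 1) % b) * fr b L (c + 1) :=
      dvd_sum fun c _ => Dvd.dvd.mul_left (fr_even hodd (by omega)) _
    have h5 : 2 ∣ 1 * (b ^ (2 * L) + 1) := by
      rw [one_mul]
      exact (Odd.add_odd hodd.pow odd_one).two_dvd
    have h6 : Pv b L (K' + 1) 1 o m = (1 * (b ^ (2 * L) + 1) + OutP b L (K' + 1) o +
        ∑ c ∈ range K', (m / b ^ (c + 1) % b) * fr b L (c + 1)) + (m % b) * b ^ L := by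
      unfold Pv
      rw [h3]
      ring
    rw [h6] at hd
    have h7 : 2 ∣ (m % b) * b ^ L := (Nat.dvd_add_right (dvd_add (dvd_add h5 h1) h4)).1 hd
    have h8 : Odd ((m % b) * b ^ L) := hmo.mul hodd.pow
    exact (Nat.not_even_iff_odd.2 h8) (even_iff_two_dvd.2 h7)

theorem Pv_cast (b L K o m : ℕ) :
    ((Pv b L K 1 o m : ℕ) : ℤ) = OutP b L K o + ((Mid b L K m : ℤ) + ((b : ℤ) ^ (2 * L) + 1)) := by
  unfold Pv
  push_cast
  ring

/-- the condition of the sieve -/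
def Rg (b L K : ℕ) (z : ℝ) (V : Finset ℤ) (o : ℕ) : Prop :=
  ∀ v ∈ V, ∀ p : ℕ, p.Prime → ¬ p ∣ 2 * b → (p : ℤ) ∣ OutP b L K o + v → z < p

theorem Ro_of {b L K o m : ℕ} {z : ℝ} {V : Finset ℤ} (hK : 1 ≤ K) (hKL : K ≤ L) (hm : Even b ∨ Odd (m % b))
    (h : Rg b L K z V o) (hv : (Mid b L K m : ℤ) + ((b : ℤ) ^ (2 * L) + 1) ∈ V) : Ro z (Pv b L K 1 o m : ℕ) := by
  intro p hp hd
  by_cases h1 : p ∣ 2 * b
  · exact absurd (Int.natCast_dvd_natCast.1 hd) (Pv_cop hK hKL hm hp h1)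
  · rw [Pv_cast] at hd
    exact h _ hv p hp h1 hd

theorem Rg_of {b L K o m : ℕ} {z : ℝ} (h : Ro z (Pv b L K 1 o m : ℕ)) {p : ℕ} (hp : p.Prime)
    (hd : (p : ℤ) ∣ OutP b L K o + ((Mid b L K m : ℤ) + ((b : ℤ) ^ (2 * L) + 1))) : z < p :=
  h p hp (by rw [Pv_cast]; exact hd)

end PTa

open PTa in
open Pool.Agent.Q117.AP.PATa (VQ_nonneg Q1 VQ_single Q1_le tot_pos) in
theorem pt : St_PT := by
  classical
  intro hSL hSU hMGL hAV b hb r
  obtain ⟨t, ht, c₀, hc₀, Ls, hS⟩ := hSL b hb r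
  refine ⟨t, ht, fun T hT => ?_⟩
  obtain ⟨C, hC, Lu, hU⟩ := hSU b hb (r + 1) T (ht.trans hT)
  set N₀ : ℕ := 2 * (r + 1) ^ 2 + (r + 1) with hN₀
  obtain ⟨CA, hCA, hA⟩ := hAV b (r * N₀) hb
  obtain ⟨CQ, hCQ, hQ⟩ := Q1_le
  have hbr : (2 : ℝ) ≤ b := by exact_mod_cast hb
  have hlb : 0 < Real.log b := Real.log_pos (by linarith)
  have hφ := tot_pos (show 1 ≤ 2 * b by omega)
  set Cb : ℝ := CQ / ((Nat.totient (2 * b) : ℝ) / ((2 * b : ℕ) : ℝ) * Real.log b) with hCb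
  have hCb0 : 0 < Cb := by positivity
  set D : ℝ := r * r * (C * Cb * CA) + 1 with hD
  have hD0 : 0 < D := by positivity
  refine ⟨c₀ / 2, by positivity, c₀ / (8 * D), by positivity, fun U hUpos => ?_⟩
  set ν : ℝ := c₀ / (8 * D) with hν
  have hν0 : 0 < ν := by positivity
  -- the size of `L`
  have hev : ∀ᶠ L : ℕ in atTop, U * Real.log L ≤ (min (1 / 2) (c₀ / (4 * D))) * L := by
    have h1 := (Real.isLittleO_log_id_atTop).bound
      (show 0 < min (1 / 2 : ℝ) (c₀ / (4 * D)) / U by positivity)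
    have h2 := tendsto_natCast_atTop_atTop (R := ℝ) |>.eventually h1
    filter_upwards [h2, eventually_ge_atTop 1] with L hL hL1
    have hL1' : (1 : ℝ) ≤ L := by exact_mod_cast hL1
    rw [Real.norm_of_nonneg (Real.log_nonneg hL1')] at hL
    simp only [id, Real.norm_eq_abs] at hL
    rw [abs_of_nonneg (by linarith)] at hL
    calc U * Real.log L ≤ U * (min (1 / 2 : ℝ) (c₀ / (4 * D)) / U * L) := mul_le_mul_of_nonneg_left hL hUpos.le
      _ = _ := by field_simp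
  obtain ⟨Le, hLe⟩ := eventually_atTop.1 hev
  refine ⟨max (max Ls Lu) (max Le 2), fun L hL K hK hKU M hMne hMc hMm hAd => ?_⟩
  have hLs : Ls ≤ L := (le_max_left _ _).trans ((le_max_left _ _).trans hL)
  have hLu : Lu ≤ L := (le_max_right _ _).trans ((le_max_left _ _).trans hL)
  have hLe' := hLe L ((le_max_left _ _).trans ((le_max_right _ _).trans hL))
  have hL2 : 2 ≤ L := (le_max_right _ _).trans ((le_max_right _ _).trans hL)
  have hLr : (0 : ℝ) < L := by exact_mod_cast (show 0 < L by omega)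
  have hK2 : 2 * K ≤ L := by
    have h1 : (K : ℝ) ≤ 1 / 2 * L := hKU.trans (hLe'.trans (mul_le_mul_of_nonneg_right (min_le_left _ _) hLr.le))
    have h2 : ((2 * K : ℕ) : ℝ) ≤ L := by push_cast; linarith
    exact_mod_cast h2
  have hKL : K ≤ L := by omega
  have hKe : (K : ℝ) ≤ c₀ / (4 * D) * L :=
    hKU.trans (hLe'.trans (mul_le_mul_of_nonneg_right (min_le_right _ _) hLr.le))
  -- the sets
  set a : ℤ := (b : ℤ) ^ (2 * L) + 1 with ha
  set V₀ : Finset ℤ := M.image (fun m => (Mid b L K m : ℤ)) with hV₀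
  set V : Finset ℤ := V₀.image (fun f => f + a) with hV
  have hmemV : ∀ m ∈ M, (Mid b L K m : ℤ) + a ∈ V := fun m hm =>
    mem_image_of_mem _ (mem_image_of_mem _ hm)
  have hVne : V.Nonempty := (hMne.image _).image _
  have hVc : V.card ≤ r := card_image_le.trans (card_image_le.trans hMc)
  have hVA : AdQ (2 * b) V := by
    intro p hp hpb
    obtain ⟨s, hs⟩ := hAd p hp hpb
    refine ⟨s - a, fun e he => ?_⟩
    obtain ⟨f, hf, rfl⟩ := mem_image.1 he
    have := hs f hf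
    rwa [show s - a + (f + a) = s + f by ring]
  have hVQ : VQ (b ^ L) (2 * b) V = VQ (b ^ L) (2 * b) V₀ := VQ_shift _ _ _ _
  set W : ℝ := VQ (b ^ L) (2 * b) V₀ with hW
  have hW0 : 0 ≤ W := VQ_nonneg _ _ _
  set z : ℝ := (b : ℝ) ^ ((L : ℝ) / T) with hz
  have htr : (1 : ℝ) ≤ t := by exact_mod_cast ht
  have htT : (t : ℝ) ≤ T := by exact_mod_cast hT
  have hzt : z ≤ (b : ℝ) ^ ((L : ℝ) / t) := by
    refine Real.rpow_le_rpow_of_exponent_le (by linarith) ?_
    exact div_le_div_of_nonneg_left hLr.le (by linarith) htT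
  -- the lower bound
  have hlow := hS L hLs K hK hK2 V hVc hVne hVA
  rw [hVQ] at hlow
  set O1 : Finset ℕ := (range (b ^ (L - K))).filter (fun o => Rg b L K ((b : ℝ) ^ ((L : ℝ) / t)) V o) with hO1
  have hlow' : c₀ * ((b : ℝ) ^ (L - K) * W) ≤ (O1.card : ℝ) := by
    refine hlow.trans (le_of_eq ?_)
    rw [hO1]
    congr 2
    exact filter_congr fun o _ => Iff.rfl
  -- the exceptions
  set f : ℕ := ⌊ν * L⌋₊ with hf
  have hfle : (f : ℝ) ≤ ν * L := Nat.floor_le (by positivity)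
  set NB : ℕ → Finset ℕ := fun m₁ => (range (b ^ K)).filter (fun m' => m' ∉ M ∧ |((m' : ℝ) - m₁)| ≤ ν * L) with hNB
  set EX : ℕ → Finset ℕ := fun m' => (range (b ^ (L - K))).filter
    (fun o => Rg b L K z (insert ((Mid b L K m' : ℤ) + a) V) o) with hEX
  have hsub : O1 \ PtsT b L K M z (ν * L) ⊆ M.biUnion (fun m₁ => (NB m₁).biUnion EX) := by
    intro o ho
    rw [Finset.mem_sdiff] at ho
    obtain ⟨ho1, ho2⟩ := ho
    rw [hO1, mem_filter] at ho1
    obtain ⟨hor, hoR⟩ := ho1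
    have hRo : ∀ m ∈ M, Ro z (Pv b L K 1 o m : ℕ) := fun m hm =>
      Ro_of hK hKL (hMm m hm).2 (fun v hv p hp h1 h2 => hzt.trans_lt (hoR v hv p hp h1 h2)) (hmemV m hm)
    have h3 : ¬ ∀ m' < b ^ K, m' ∉ M → (∃ m ∈ M, |((m' : ℝ) - m)| ≤ ν * L) → ¬ Ro z (Pv b L K 1 o m' : ℕ) := by
      intro hall
      exact ho2 (mem_filter.2 ⟨hor, hRo, hall⟩)
    push Not at h3
    obtain ⟨m', hm'1, hm'2, ⟨m₁, hm₁, hdist⟩, hro⟩ := h3
    rw [mem_biUnion]
    refine ⟨m₁, hm₁, ?_⟩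
    rw [mem_biUnion]
    refine ⟨m', mem_filter.2 ⟨mem_range.2 hm'1, hm'2, hdist⟩, ?_⟩
    refine mem_filter.2 ⟨hor, fun v hv p hp h1 h2 => ?_⟩
    rcases mem_insert.1 hv with rfl | hv
    · exact Rg_of hro hp h2
    · exact hzt.trans_lt (hoR v hv p hp h1 h2)
  -- one exception
  have hy2 : 2 * b ≤ b ^ L := by
    calc 2 * b ≤ b * b := Nat.mul_le_mul_right b hb
      _ = b ^ 2 := by ring
      _ ≤ b ^ L := Nat.pow_le_pow_right (by omega) hL2
  have hQb : Q1 (b ^ L) (2 * b) ≤ Cb / L := by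
    have h1 := hQ (b ^ L) (2 * b) (by omega) (by omega) hy2
    rw [hCb, div_div, le_div_iff₀ (by positivity)]
    refine le_trans (le_of_eq ?_) h1
    push_cast
    rw [Real.log_pow]
    ring
  have hone : ∀ m' : ℕ, ((EX m').card : ℝ) ≤ C * ((b : ℝ) ^ (L - K) * (W * (Cb / L *
      ∑ m ∈ M, GQ (2 * b) (b ^ L) ((Mid b L K m' : ℤ) - Mid b L K m) ^ (r * N₀)))) := by
    intro m'
    set v' : ℤ := (Mid b L K m' : ℤ) + a with hv'
    have h1 := hU L hLu K hK hK2 (insert v' V) ((card_insert_le _ _).trans (by omega)) (insert_nonempty _ _)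
    have h2 : ((EX m').card : ℝ) ≤ C * ((b : ℝ) ^ (L - K) * VQ (b ^ L) (2 * b) (insert v' V)) := by
      refine le_trans (le_of_eq ?_) h1
      rw [hEX]
      congr 2
      exact filter_congr fun o _ => Iff.rfl
    have h3 := hMGL (r + 1) (b ^ L) (2 * b) (2 * b) (fun p _ h => h) V {v'} (by omega) (by simp) (by
      intro p hp _
      refine ⟨1 - v', fun e he => ?_⟩
      rw [mem_singleton.1 he, show (1 - v' + v' : ℤ) = 1 by ring]
      intro h4
      exact hp.one_lt.ne' (by exact_mod_cast Int.eq_one_of_dvd_one (by positivity) h4)) 0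
    have h4 : V ∪ ({v'} : Finset ℤ).image (fun f => f + ((2 * b : ℕ) : ℤ) * 0) = insert v' V := by
      rw [image_singleton, mul_zero, add_zero, union_comm]
      rfl
    rw [h4, prod_singleton, VQ_single, hVQ] at h3
    have h5 : ∀ v ∈ V, GQ (2 * b) (b ^ L) (v' + ((2 * b : ℕ) : ℤ) * 0 - v) = GQ (2 * b) (b ^ L) (v' - v) :=
      fun v _ => by rw [mul_zero, add_zero]
    rw [prod_congr rfl h5] at h3
    obtain ⟨v, hv, h6⟩ := prod_le_one_pow (N := N₀) hVne hVc (fun v => GQ (2 * b) (b ^ L) (v' - v))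
      (fun v => GQ_one_le _ _ _)
    obtain ⟨w, hw, rfl⟩ := mem_image.1 hv
    obtain ⟨m, hm, rfl⟩ := mem_image.1 hw
    have h7 : (∏ u ∈ V, GQ (2 * b) (b ^ L) (v' - u)) ^ N₀ ≤
        ∑ m ∈ M, GQ (2 * b) (b ^ L) ((Mid b L K m' : ℤ) - Mid b L K m) ^ (r * N₀) := by
      refine h6.trans ?_
      have h8 : v' - ((Mid b L K m : ℤ) + a) = (Mid b L K m' : ℤ) - Mid b L K m := by rw [hv']; ring
      rw [h8]
      exact single_le_sum (f := fun m => GQ (2 * b) (b ^ L) ((Mid b L K m' : ℤ) - Mid b L K m) ^ (r * N₀))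
        (fun m _ => pow_nonneg (by linarith [GQ_one_le (2 * b) (b ^ L) ((Mid b L K m' : ℤ) - Mid b L K m)]) _) hm
    refine h2.trans (mul_le_mul_of_nonneg_left (mul_le_mul_of_nonneg_left (h3.trans ?_) (by positivity)) hC.le)
    rw [mul_assoc]
    refine mul_le_mul_of_nonneg_left ?_ hW0
    exact mul_le_mul hQb h7 (pow_nonneg (prod_nonneg fun u _ => by
      linarith [GQ_one_le (2 * b) (b ^ L) (v' - u)]) _) (by positivity)
  -- the sum of the exceptions near one middle block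
  have hnear : ∀ m₁ ∈ M, ∑ m' ∈ NB m₁, ((EX m').card : ℝ) ≤
      C * ((b : ℝ) ^ (L - K) * (W * (Cb / L * (r * (CA * (2 * f + K)))))) := by
    intro m₁ hm₁
    have h1 : ∑ m' ∈ NB m₁, ((EX m').card : ℝ) ≤ ∑ m' ∈ NB m₁, C * ((b : ℝ) ^ (L - K) * (W * (Cb / L *
      ∑ m ∈ M, GQ (2 * b) (b ^ L) ((Mid b L K m' : ℤ) - Mid b L K m) ^ (r * N₀)))) :=
      sum_le_sum fun m' _ => hone m'
    refine h1.trans ?_
    rw [← mul_sum, ← mul_sum, ← mul_sum, ← mul_sum]
    refine mul_le_mul_of_nonneg_left (mul_le_mul_of_nonneg_left (mul_le_mul_of_nonneg_left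
      (mul_le_mul_of_nonneg_left ?_ (by positivity)) hW0) (by positivity)) hC.le
    rw [sum_comm]
    have h2 : ∀ m ∈ M, ∑ m' ∈ NB m₁, GQ (2 * b) (b ^ L) ((Mid b L K m' : ℤ) - Mid b L K m) ^ (r * N₀) ≤
        CA * (2 * f + K) := by
      intro m hm
      have h3 := hA L K (b ^ L) m (m₁ - f) (2 * f) hK hKL (hMm m hm).1
      refine le_trans (sum_le_sum_of_subset_of_nonneg ?_ ?_) (h3.trans (le_of_eq (by push_cast; ring)))
      · intro m' hm'
        rw [hNB, mem_filter] at hm'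
        obtain ⟨h4, h5, h6⟩ := hm'
        have h7 : |((m' : ℤ) - m₁)| ≤ f := by
          rw [hf]
          have h8 : ((|((m' : ℤ) - m₁)|).toNat : ℝ) ≤ ν * L := by
            have h9 : ((|((m' : ℤ) - m₁)|).toNat : ℤ) = |((m' : ℤ) - m₁)| := Int.toNat_of_nonneg (abs_nonneg _)
            have h10 : ((|((m' : ℤ) - m₁)|).toNat : ℝ) = |((m' : ℝ) - m₁)| := by
              have h11 : (((|((m' : ℤ) - m₁)|).toNat : ℤ) : ℝ) = ((|((m' : ℤ) - m₁)| : ℤ) : ℝ) := by rw [h9]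
              push_cast at h11
              exact_mod_cast h11
            rw [h10]
            exact h6
          have h9 := Nat.le_floor h8
          have h12 : ((|((m' : ℤ) - m₁)|).toNat : ℤ) = |((m' : ℤ) - m₁)| := Int.toNat_of_nonneg (abs_nonneg _)
          rw [← h12]
          exact_mod_cast h9
        rw [abs_le] at h7
        rw [mem_filter]
        refine ⟨h4, fun h => h5 (h ▸ hm), ?_, ?_⟩ <;> omega
      · intro m' _ _
        exact pow_nonneg (by linarith [GQ_one_le (2 * b) (b ^ L) ((Mid b L K m' : ℤ) - Mid b L K m)]) _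
    calc _ ≤ ∑ _m ∈ M, CA * (2 * (f : ℝ) + K) := sum_le_sum h2
      _ = M.card * (CA * (2 * (f : ℝ) + K)) := by rw [sum_const, nsmul_eq_mul]
      _ ≤ r * (CA * (2 * (f : ℝ) + K)) := mul_le_mul_of_nonneg_right (by exact_mod_cast hMc) (by positivity)
  have hexc : ((O1 \ PtsT b L K M z (ν * L)).card : ℝ) ≤ c₀ / 2 * ((b : ℝ) ^ (L - K) * W) := by
    have h1 : ((O1 \ PtsT b L K M z (ν * L)).card : ℝ) ≤ ∑ m₁ ∈ M, ∑ m' ∈ NB m₁, ((EX m').card : ℝ) := by
      have h2 := (card_le_card hsub).trans (card_biUnion_le.trans (sum_le_sum fun m₁ _ => card_biUnion_le))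
      exact_mod_cast h2
    have h2 : ∑ m₁ ∈ M, ∑ m' ∈ NB m₁, ((EX m').card : ℝ) ≤
        r * (C * ((b : ℝ) ^ (L - K) * (W * (Cb / L * (r * (CA * (2 * f + K))))))) := by
      refine (sum_le_sum hnear).trans ?_
      rw [sum_const, nsmul_eq_mul]
      exact mul_le_mul_of_nonneg_right (by exact_mod_cast hMc) (by positivity)
    refine h1.trans (h2.trans ?_)
    have h3 : (r : ℝ) * (C * ((b : ℝ) ^ (L - K) * (W * (Cb / L * (r * (CA * (2 * f + K))))))) =
        (r * r * (C * Cb * CA)) * ((2 * f + K) / L) * ((b : ℝ) ^ (L - K) * W) := by ring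
    rw [h3]
    refine mul_le_mul_of_nonneg_right ?_ (by positivity)
    have h4 : (2 * (f : ℝ) + K) / L ≤ 2 * ν + c₀ / (4 * D) := by
      rw [div_le_iff₀ hLr]
      nlinarith
    have h5 : (0 : ℝ) ≤ (2 * (f : ℝ) + K) / L := by positivity
    calc (r * r * (C * Cb * CA)) * ((2 * f + K) / L) ≤ D * ((2 * f + K) / L) :=
          mul_le_mul_of_nonneg_right (by rw [hD]; linarith) h5
      _ ≤ D * (2 * ν + c₀ / (4 * D)) := mul_le_mul_of_nonneg_left h4 hD0.le
      _ = c₀ / 2 := by rw [hν]; field_simp; ring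
  have hfin : (O1.card : ℝ) ≤ ((O1 \ PtsT b L K M z (ν * L)).card : ℝ) + ((PtsT b L K M z (ν * L)).card : ℝ) := by
    have h1 : O1.card ≤ (O1 \ PtsT b L K M z (ν * L)).card + (PtsT b L K M z (ν * L)).card := by
      have h2 : O1 ⊆ (O1 \ PtsT b L K M z (ν * L)) ∪ PtsT b L K M z (ν * L) := by
        intro x hx
        by_cases h : x ∈ PtsT b L K M z (ν * L)
        · exact mem_union_right _ h
        · exact mem_union_left _ (Finset.mem_sdiff.2 ⟨hx, h⟩)
      exact (card_le_card h2).trans (card_union_le _ _)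
    exact_mod_cast h1
  have h6 : c₀ / 2 * ((b : ℝ) ^ (L - K) * W) + c₀ / 2 * ((b : ℝ) ^ (L - K) * W) = c₀ * ((b : ℝ) ^ (L - K) * W) := by
    ring
  linarith

end Pool.Agent.Q117.PL
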