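import Pool.Agent.Q117.PL.Su

/-!
Project PL (helper117), job SL: the lower bound sieve for the outer digits.
-/

set_option autoImplicit false

namespace Pool.Agent.Q117.PL.SLa

open Finset Pool.Agent.H373R2.T7 Pool.Agent.H410R2.ED
open Pool.Agent.Q117.AP (AdQ VQ)
open Pool.Agent.Q117.PL.SUa

/-- a class which avoids the small primes -/
lemma class_ex {b : ℕ} {V : Finset ℤ} (hA : AdQ (2 * b) V) (D : Finset ℕ) (hD : ∀ p ∈ D, p.Prime ∧ ¬ p ∣ 2 * b) :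
    ∃ n0 : ℕ, ∀ p ∈ D, ¬ Qv V p n0 := by
  classical
  have h1 := Pool.Agent.Y816.PD.crt_card (fun p n => ¬ Qv V p n) 1 0 one_pos D (fun p hp => (hD p hp).1)
    (fun l hl h => (hD l hl).1.one_lt.ne' (Nat.dvd_one.1 h))
  have h2 : 0 < ∏ l ∈ D, ((range l).filter (fun r => ¬ Qv V l r)).card := by
    apply prod_pos
    intro p hp
    have h3 := card_filter_add_card_filter_not (s := range p) (fun r => Qv V p r)
    rw [card_range] at h3
    have h4 := oF_lt_AdQ hA (hD p hp).1 (hD p hp).2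
    rw [← nuB_Qv V (hD p hp).1.pos] at h4
    have h5 : nuB (Qv V) p = ((range p).filter (fun r => Qv V p r)).card := by
      unfold nuB
      apply congrArg
      apply filter_congr_decidable
    omega
  rw [← h1, card_pos] at h2
  obtain ⟨n0, hn0⟩ := h2
  rw [mem_filter] at hn0
  refine ⟨n0, fun p hp h => hn0.2.2 p hp ?_⟩
  rw [← Qv_per]
  exact h

end Pool.Agent.Q117.PL.SLa

namespace Pool.Agent.Q117.PL

open Finset Pool.Agent.H373R2.T7 Pool.Agent.H410R2.ED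
open Pool.Agent.Q117.AP (AdQ VQ)
open Pool.Agent.Q117.PL.SUa
open Pool.Agent.Q117.PL.SLa

/-- **SL**: the lower bound sieve for the outer digits -/
theorem sl : St_SL := by
  classical
  intro hOD b hb r
  obtain ⟨c, hc, δ, hδ, houter⟩ := outer hOD hb (r + 1) (by omega)
  obtain ⟨L1, hout⟩ := houter (r + 2)
  obtain ⟨n, hn⟩ := exists_nat_ge (2 * (c : ℝ) / δ)
  obtain ⟨E, hE⟩ : ∃ E, E = 1 + n := ⟨_, rfl⟩
  have hE1 : 1 ≤ E := by omega
  have hcE : 2 * (c : ℝ) ≤ δ * E := by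
    rw [div_le_iff₀ hδ] at hn
    have : (n : ℝ) ≤ E := by rw [hE]; exact_mod_cast (by omega : n ≤ 1 + n)
    nlinarith
  obtain ⟨D, hD⟩ : ∃ D : Finset ℕ, D = (Icc 1 (2 * (r + 1))).filter (fun p => p.Prime ∧ ¬ p ∣ 2 * b) := ⟨_, rfl⟩
  have hDp : ∀ p ∈ D, p.Prime ∧ ¬ p ∣ 2 * b ∧ p ≤ 2 * (r + 1) := by
    intro p hp
    rw [hD, mem_filter, mem_Icc] at hp
    exact ⟨hp.2.1, hp.2.2, hp.1.2⟩
  obtain ⟨M, hM⟩ : ∃ M, M = ∏ p ∈ D, p := ⟨_, rfl⟩
  have hM0 : 0 < M := by rw [hM]; exact prod_pos fun p hp => (hDp p hp).1.pos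
  have hM0' : (0 : ℝ) < M := by exact_mod_cast hM0
  have hMb : M.Coprime (2 * b) := by
    rw [hM]
    exact Nat.Coprime.prod_left fun p hp => ((hDp p hp).1.coprime_iff_not_dvd).2 (hDp p hp).2.1
  have hMs : ∀ p : ℕ, p.Prime → p ∣ M → p ≤ 2 * (r + 1) := by
    intro p hp hd
    rw [hM] at hd
    obtain ⟨q, hq, hpq⟩ := (Nat.Prime.prime hp).exists_mem_finset_dvd hd
    have := (Nat.prime_dvd_prime_iff_eq hp (hDp q hq).1).1 hpq
    rw [this]
    exact (hDp q hq).2.2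
  obtain ⟨L2, hscale⟩ := scaleL hb E (2 * (r + 1)) hE1
  obtain ⟨L3, herr⟩ := err_small b r hb (1 / (4 * M)) (by positivity)
  have hb1 : (1 : ℝ) < b := by exact_mod_cast (by omega : 1 < b)
  have hb0 : (0 : ℝ) < b := by linarith
  obtain ⟨L4, hL4⟩ := pow_unbounded_of_one_lt (M : ℝ) (Real.one_lt_rpow hb1 (half_pos hδ))
  refine ⟨2 * E, by omega, 1 / (4 * M), by positivity, max (max L1 L4) (max L2 L3), ?_⟩
  intro L hL K hK hKL V hV hVn hA
  have hL1 : L1 ≤ L := le_trans (le_trans (le_max_left _ _) (le_max_left _ _)) hL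
  have hL4' : L4 ≤ L := le_trans (le_trans (le_max_right _ _) (le_max_left _ _)) hL
  have hL2 : L2 ≤ L := le_trans (le_trans (le_max_left _ _) (le_max_right _ _)) hL
  have hL3 : L3 ≤ L := le_trans (le_trans (le_max_right _ _) (le_max_right _ _)) hL
  obtain ⟨J, hJ1, hJ2, hJ3⟩ := hscale L hL2
  obtain ⟨z, hz⟩ : ∃ z, z = 2 ^ 2 ^ J := ⟨_, rfl⟩
  have hz1 : 1 ≤ z := by rw [hz]; exact Nat.one_le_pow _ _ (by norm_num)
  rw [← hz] at hJ1 hJ2 hJ3
  have hX0 : (0 : ℝ) ≤ (b : ℝ) ^ (L - K) := by positivity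
  have hzb : z ≤ b ^ L := le_trans (by
    calc z = z ^ 1 := (pow_one z).symm
      _ ≤ z ^ E := Nat.pow_le_pow_right hz1 hE1) hJ1
  have hlev := level (M := M) hb hE1 hJ1 hcE (by
    refine hL4.le.trans ?_
    have h1 : (b : ℝ) ^ (δ / 2 * L) = ((b : ℝ) ^ (δ / 2)) ^ L := by
      rw [Real.rpow_mul hb0.le, Real.rpow_natCast]
    rw [h1]
    exact pow_le_pow_right₀ (Real.one_le_rpow hb1.le (half_pos hδ).le) hL4')
  obtain ⟨n0, hn0⟩ := class_ex hA D (fun p hp => ⟨(hDp p hp).1, (hDp p hp).2.1⟩)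
  rw [hz] at hlev hzb
  obtain ⟨G, hG⟩ := exG (b ^ (L - K)) (fun o => OutP b L K o % M = n0 % M ∧ ∀ l ∈ Pr (r + 1) J, ¬ l ∣ b → ¬ Qv V l (OutP b L K o))
  have hsv := (hout L hL1 K hK hKL V (by omega) M hM0 hMb hMs n0 J hlev hzb G hG).1
  have hm := VQ_le_mid (κ := r + 1) (J := J) (b := b) (y := b ^ L) (by omega) hzb V
  have he := herr L hL3 V hV hA
  obtain ⟨W, hW⟩ : ∃ W, W = VQ (b ^ L) (2 * b) V := ⟨_, rfl⟩
  rw [← hW] at hm he ⊢
  refine le_trans ?_ (Nat.cast_le.2 (card_le_card (s := G) ?_))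
  · refine le_trans ?_ hsv
    have h2 : (b : ℝ) ^ (L - K) / M / 2 * W ≤ (b : ℝ) ^ (L - K) / M / 2 * ∏ l ∈ (Pr (r + 1) J).filter (fun l => ¬ l ∣ b), (1 - (nuB (Qv V) l : ℝ) / l) :=
      mul_le_mul_of_nonneg_left hm (by positivity)
    have h3 : (b : ℝ) ^ (L - K) / (L : ℝ) ^ (r + 2) ≤ (b : ℝ) ^ (L - K) * (1 / (4 * M) * W) := by
      have := mul_le_mul_of_nonneg_left he hX0
      rw [mul_one_div] at this
      exact this
    have h4 : (b : ℝ) ^ (L - K) / M / 2 * W = 2 * ((b : ℝ) ^ (L - K) * (1 / (4 * M) * W)) := by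
      field_simp
      ring
    have h5 : 1 / (4 * (M : ℝ)) * ((b : ℝ) ^ (L - K) * W) = (b : ℝ) ^ (L - K) * (1 / (4 * M) * W) := by ring
    rw [h5]
    linarith
  · intro o ho
    rw [hG] at ho
    rw [mem_filter, mem_range]
    refine ⟨ho.1, ?_⟩
    intro v hv p hp hpb hd
    have hlt := lt_z (by omega : 1 ≤ 2 * E) hJ2
    have hzp : z ≤ p := by
      by_contra hcon
      push Not at hcon
      rcases Nat.lt_or_ge (2 * (r + 1)) p with h | h
      · refine ho.2.2 p ?_ (fun h' => hpb (h'.trans (Dvd.intro_left 2 rfl))) ⟨v, hv, hd⟩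
        unfold Pr
        rw [mem_filter, mem_range, ← hz]
        exact ⟨hcon, hp, h⟩
      · have hpD : p ∈ D := by
          rw [hD, mem_filter, mem_Icc]
          exact ⟨⟨hp.pos, h⟩, hp, hpb⟩
        have hpM : p ∣ M := by rw [hM]; exact dvd_prod_of_mem (fun l => l) hpD
        apply hn0 p hpD
        rw [Qv_per, ← Nat.mod_mod_of_dvd n0 hpM, ← ho.2.1, Nat.mod_mod_of_dvd _ hpM, ← Qv_per]
        exact ⟨v, hv, hd⟩
    have h6 : (z : ℝ) ≤ p := by exact_mod_cast hzp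
    have h7 : ((2 * E : ℕ) : ℝ) = ((2 * E : ℕ) : ℝ) := rfl
    exact lt_of_lt_of_le hlt h6

end Pool.Agent.Q117.PL
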