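import Pool.Agent.Q117.PL.Suc
import Pool.Agent.Y79.HS.Den
import Pool.Agent.Q253.Thin.Upper

/-!
Project PL (helper117), job SU: the upper bound sieve for the outer digits (and the comparison of the sieve products, also for SL).
-/

set_option autoImplicit false

namespace Pool.Agent.Q117.PL.SUa

open Finset Pool.Agent.H373R2.T7 Pool.Agent.H410R2.ED
open Pool.Agent.Q117.LF (oF)
open Pool.Agent.Q117.AP (AdQ VQ)
open Pool.Agent.Q117.PL (OutP ODc)

lemma exG (n : ℕ) (P : ℕ → Prop) : ∃ G : Finset ℕ, ∀ o, o ∈ G ↔ o < n ∧ P o := by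
  classical
  exact ⟨(range n).filter P, fun o => by rw [mem_filter, mem_range]⟩

/-- the choice of the sifting range -/
lemma scaleL {b : ℕ} (hb : 2 ≤ b) (E z0 : ℕ) (hE : 1 ≤ E) : ∃ L0 : ℕ, ∀ L : ℕ, L0 ≤ L → ∃ J : ℕ,
    (2 ^ 2 ^ J) ^ E ≤ b ^ L ∧ b ^ L < (2 ^ 2 ^ J) ^ (2 * E) ∧ z0 + 2 < 2 ^ 2 ^ J := by
  refine ⟨(z0 + 2) * (2 * E), ?_⟩
  intro L hL
  have h1 : (z0 + 2) ^ (2 * E) ≤ b ^ L := by
    calc (z0 + 2) ^ (2 * E) ≤ (2 ^ (z0 + 2)) ^ (2 * E) := Nat.pow_le_pow_left (Nat.lt_two_pow_self).le _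
      _ = 2 ^ ((z0 + 2) * (2 * E)) := by rw [← pow_mul]
      _ ≤ 2 ^ L := Nat.pow_le_pow_right (by norm_num) hL
      _ ≤ b ^ L := Nat.pow_le_pow_left hb _
  have h2 : 2 ^ E ≤ b ^ L := by
    refine le_trans ?_ h1
    calc 2 ^ E ≤ (z0 + 2) ^ E := Nat.pow_le_pow_left (by omega) _
      _ ≤ (z0 + 2) ^ (2 * E) := Nat.pow_le_pow_right (by omega) (by omega)
  obtain ⟨J, hJ1, hJ2⟩ := Pool.Agent.Q253.Thin.scale E hE h2
  exact ⟨J, hJ1, hJ2, lt_of_pow_lt_pow_left₀ (2 * E) (Nat.zero_le _) (lt_of_le_of_lt h1 hJ2)⟩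

lemma z_le {b L z E : ℕ} (hb : 2 ≤ b) (hE : 1 ≤ E) (h : z ^ E ≤ b ^ L) : (z : ℝ) ≤ (b : ℝ) ^ ((L : ℝ) / E) := by
  have hE0 : (0 : ℝ) < E := by exact_mod_cast hE
  have h1 : (z : ℝ) ^ E ≤ (b : ℝ) ^ L := by exact_mod_cast h
  have h2 : ((b : ℝ) ^ ((L : ℝ) / E)) ^ E = (b : ℝ) ^ L := by
    rw [← Real.rpow_natCast, ← Real.rpow_mul (by positivity), div_mul_cancel₀ _ hE0.ne', Real.rpow_natCast]
  rw [← h2] at h1
  exact le_of_pow_le_pow_left₀ (by omega) (by positivity) h1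

lemma lt_z {b L z E : ℕ} (hE : 1 ≤ E) (h : b ^ L < z ^ E) : (b : ℝ) ^ ((L : ℝ) / E) < z := by
  have hE0 : (0 : ℝ) < E := by exact_mod_cast hE
  have h1 : (b : ℝ) ^ L < (z : ℝ) ^ E := by exact_mod_cast h
  have h2 : ((b : ℝ) ^ ((L : ℝ) / E)) ^ E = (b : ℝ) ^ L := by
    rw [← Real.rpow_natCast, ← Real.rpow_mul (by positivity), div_mul_cancel₀ _ hE0.ne', Real.rpow_natCast]
  rw [← h2] at h1
  exact lt_of_pow_lt_pow_left₀ E (by positivity) h1

/-- the level -/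
lemma level {b L z E c M : ℕ} {δ : ℝ} (hb : 2 ≤ b) (hE : 1 ≤ E) (h : z ^ E ≤ b ^ L) (hcE : 2 * (c : ℝ) ≤ δ * E)
    (hM : (M : ℝ) ≤ (b : ℝ) ^ (δ / 2 * L)) : M * z ^ c ≤ ⌊(b : ℝ) ^ (δ * L)⌋₊ := by
  have hb1 : (1 : ℝ) ≤ b := by exact_mod_cast (by omega : 1 ≤ b)
  have hb0 : (0 : ℝ) < b := by linarith
  have hE0 : (0 : ℝ) < E := by exact_mod_cast hE
  apply Nat.le_floor
  push_cast
  have h1 := z_le hb hE h
  have h2 : (z : ℝ) ^ c ≤ (b : ℝ) ^ (δ / 2 * L) := by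
    calc (z : ℝ) ^ c ≤ ((b : ℝ) ^ ((L : ℝ) / E)) ^ c := pow_le_pow_left₀ (by positivity) h1 _
      _ = (b : ℝ) ^ ((L : ℝ) / E * c) := by rw [← Real.rpow_natCast, ← Real.rpow_mul hb0.le]
      _ ≤ _ := by
        apply Real.rpow_le_rpow_of_exponent_le hb1
        rw [div_mul_eq_mul_div, div_le_iff₀ hE0]
        have hL : (0 : ℝ) ≤ L := by positivity
        nlinarith
  calc (M : ℝ) * (z : ℝ) ^ c ≤ (b : ℝ) ^ (δ / 2 * L) * (b : ℝ) ^ (δ / 2 * L) := mul_le_mul hM h2 (by positivity) (by positivity)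
    _ = (b : ℝ) ^ (δ * L) := by
      rw [← Real.rpow_add hb0]
      congr 1
      ring

lemma fac_le_one (V : Finset ℤ) (p : ℕ) : 1 - (oF V p : ℝ) / p ≤ 1 := by
  have : (0 : ℝ) ≤ (oF V p : ℝ) / p := by positivity
  linarith

lemma oF_le_self (V : Finset ℤ) {p : ℕ} (hp : 0 < p) : oF V p ≤ p := by
  rw [← nuB_Qv V hp]
  exact nuB_le _ _

lemma fac_nonneg (V : Finset ℤ) {p : ℕ} (hp : 0 < p) : 0 ≤ 1 - (oF V p : ℝ) / p := by
  have hp0 : (0 : ℝ) < p := by exact_mod_cast hp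
  rw [sub_nonneg, div_le_one hp0]
  exact_mod_cast oF_le_self V hp

lemma VQ_nonneg (y q : ℕ) (V : Finset ℤ) : 0 ≤ VQ y q V := by
  unfold VQ
  refine prod_nonneg fun p hp => fac_nonneg V ?_
  rw [mem_filter, mem_Icc] at hp
  exact hp.1.1

/-- the sieve product in terms of `oF` -/
lemma mid_eq (κ J b : ℕ) (V : Finset ℤ) : ∏ l ∈ (Pr κ J).filter (fun l => ¬ l ∣ b), (1 - (nuB (Qv V) l : ℝ) / l) =
    ∏ l ∈ (Pr κ J).filter (fun l => ¬ l ∣ b), (1 - (oF V l : ℝ) / l) := by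
  refine prod_congr rfl fun l hl => ?_
  have h1 := (mem_filter.1 (mem_filter.1 hl).1).2.1
  rw [nuB_Qv V h1.pos]

lemma sub_P {κ J b y : ℕ} (hκ : 1 ≤ κ) (hzy : 2 ^ 2 ^ J ≤ y) :
    (Pr κ J).filter (fun l => ¬ l ∣ b) ⊆ (Icc 1 y).filter (fun p : ℕ => p.Prime ∧ ¬ p ∣ 2 * b) := by
  intro l hl
  unfold Pr at hl
  rw [mem_filter, mem_filter, mem_range] at hl
  obtain ⟨⟨h1, h2, h3⟩, h4⟩ := hl
  rw [mem_filter, mem_Icc]
  refine ⟨⟨h2.pos, by omega⟩, h2, ?_⟩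
  intro h5
  rcases (Nat.Prime.dvd_mul h2).1 h5 with h6 | h6
  · have := Nat.le_of_dvd (by norm_num) h6
    omega
  · exact h4 h6

lemma VQ_le_mid {κ J b y : ℕ} (hκ : 1 ≤ κ) (hzy : 2 ^ 2 ^ J ≤ y) (V : Finset ℤ) :
    VQ y (2 * b) V ≤ ∏ l ∈ (Pr κ J).filter (fun l => ¬ l ∣ b), (1 - (nuB (Qv V) l : ℝ) / l) := by
  rw [mid_eq]
  unfold VQ
  rw [← prod_sdiff (sub_P (b := b) hκ hzy)]
  have h1 : ∀ p ∈ (Icc 1 y).filter (fun p : ℕ => p.Prime ∧ ¬ p ∣ 2 * b), 0 < p := by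
    intro p hp
    rw [mem_filter, mem_Icc] at hp
    exact hp.1.1
  apply mul_le_of_le_one_left
  · exact prod_nonneg fun p hp => fac_nonneg V (h1 p (sub_P hκ hzy hp))
  · exact prod_le_one (fun p hp => fac_nonneg V (h1 p (sdiff_subset hp))) fun p _ => fac_le_one V p

lemma oF_lt_AdQ {b : ℕ} {V : Finset ℤ} (hA : AdQ (2 * b) V) {p : ℕ} (hp : p.Prime) (hpb : ¬ p ∣ 2 * b) : oF V p + 1 ≤ p := by
  obtain ⟨r, hr⟩ := hA p hp hpb
  by_contra hcon
  push Not at hcon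
  have h1 : oF V p = p := le_antisymm (oF_le_self V hp.pos) (by omega)
  rw [← nuB_Qv V hp.pos] at h1
  classical
  have h2 : (range p).filter (fun r => Qv V p r) = range p := by
    apply eq_of_subset_of_card_le (filter_subset _ _)
    rw [card_range]
    unfold nuB at h1
    convert h1.ge
  have hp' : (0 : ℤ) < p := by exact_mod_cast hp.pos
  have h3 : (r % (p : ℤ)).toNat ∈ (range p).filter (fun r => Qv V p r) := by
    rw [h2, mem_range]
    have := Int.emod_lt_of_pos r hp'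
    have := Int.emod_nonneg r hp'.ne'
    omega
  rw [mem_filter] at h3
  obtain ⟨v, hv, hd⟩ := h3.2
  rw [Int.toNat_of_nonneg (Int.emod_nonneg r hp'.ne')] at hd
  apply hr v hv
  have h4 : r + v = (r % (p : ℤ) + v) + p * (r / p) := by
    have := Int.emod_add_mul_ediv r p
    linarith
  rw [h4]
  exact hd.add (dvd_mul_right _ _)

/-- the primes outside of the sifting range -/
lemma mid_le (κ E : ℕ) (hκ : 1 ≤ κ) : ∃ C : ℝ, 0 < C ∧ ∃ R0 : ℕ, ∀ b y J : ℕ, ∀ V : Finset ℤ, V.card ≤ κ → AdQ (2 * b) V →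
    R0 + 2 < 2 ^ 2 ^ J → 2 ^ 2 ^ J ≤ y → y ≤ (2 ^ 2 ^ J) ^ (2 * E) →
    ∏ l ∈ (Pr κ J).filter (fun l => ¬ l ∣ b), (1 - (nuB (Qv V) l : ℝ) / l) ≤ C * VQ y (2 * b) V := by
  classical
  obtain ⟨cD, hcD, R₀, hden⟩ := Pool.Agent.Y79.HS.den κ (2 * E)
  obtain ⟨cs, hcs⟩ : ∃ cs : ℝ, cs = ∏ p ∈ (Icc 1 (2 * κ)).filter Nat.Prime, (1 / (p : ℝ)) := ⟨_, rfl⟩
  have hcs0 : 0 < cs := by
    rw [hcs]
    refine prod_pos fun p hp => ?_
    have : (0 : ℝ) < p := by exact_mod_cast (mem_filter.1 hp).2.pos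
    positivity
  refine ⟨1 / (cs * cD), by positivity, max R₀ (2 * κ), ?_⟩
  intro b y J V hV hA hz hzy hyz
  rw [mid_eq]
  obtain ⟨z, hzd⟩ : ∃ z, z = 2 ^ 2 ^ J := ⟨_, rfl⟩
  rw [← hzd] at hz hzy hyz
  have hR : R₀ ≤ z := by
    have := le_max_left R₀ (2 * κ)
    omega
  have hκz : 2 * κ < z := by
    have := le_max_right R₀ (2 * κ)
    omega
  obtain ⟨P, hP⟩ : ∃ P, P = (Icc 1 y).filter (fun p : ℕ => p.Prime ∧ ¬ p ∣ 2 * b) := ⟨_, rfl⟩
  obtain ⟨A, hAd⟩ : ∃ A, A = (Pr κ J).filter (fun l => ¬ l ∣ b) := ⟨_, rfl⟩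
  have hAP : A ⊆ P := by
    rw [hAd, hP]
    exact sub_P hκ (by rw [← hzd]; exact hzy)
  have hPp : ∀ p ∈ P, p.Prime ∧ ¬ p ∣ 2 * b ∧ p ≤ y := by
    intro p hp
    rw [hP, mem_filter, mem_Icc] at hp
    exact ⟨hp.2.1, hp.2.2, hp.1.2⟩
  rw [← hAd]
  have hVQ : VQ y (2 * b) V = (∏ p ∈ P \ A, (1 - (oF V p : ℝ) / p)) * ∏ p ∈ A, (1 - (oF V p : ℝ) / p) := by
    rw [prod_sdiff hAP, hP]
    rfl
  have hAnn : 0 ≤ ∏ p ∈ A, (1 - (oF V p : ℝ) / p) := prod_nonneg fun p hp => fac_nonneg V (hPp p (hAP hp)).1.pos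
  -- the small primes
  have h1 : cs ≤ ∏ p ∈ (P \ A).filter (fun p => p ≤ 2 * κ), (1 - (oF V p : ℝ) / p) := by
    have hsub : (P \ A).filter (fun p => p ≤ 2 * κ) ⊆ (Icc 1 (2 * κ)).filter Nat.Prime := by
      intro p hp
      rw [mem_filter, mem_sdiff] at hp
      have := (hPp p hp.1.1).1
      rw [mem_filter, mem_Icc]
      exact ⟨⟨this.pos, hp.2⟩, this⟩
    rw [hcs, ← prod_sdiff hsub]
    have h2 : ∏ p ∈ ((Icc 1 (2 * κ)).filter Nat.Prime) \ ((P \ A).filter (fun p => p ≤ 2 * κ)), (1 / (p : ℝ)) ≤ 1 := by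
      refine prod_le_one (fun p _ => by positivity) fun p hp => ?_
      rw [mem_sdiff, mem_filter, mem_Icc] at hp
      have : (1 : ℝ) ≤ p := by exact_mod_cast hp.1.1.1
      rw [div_le_one (by linarith)]
      exact this
    have h3 : ∏ p ∈ (P \ A).filter (fun p => p ≤ 2 * κ), (1 / (p : ℝ)) ≤ ∏ p ∈ (P \ A).filter (fun p => p ≤ 2 * κ), (1 - (oF V p : ℝ) / p) := by
      refine prod_le_prod (fun p _ => by positivity) fun p hp => ?_
      rw [mem_filter, mem_sdiff] at hp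
      have hp1 := hPp p hp.1.1
      have hp0 : (0 : ℝ) < p := by exact_mod_cast hp1.1.pos
      rw [le_sub_iff_add_le, ← add_div, div_le_one hp0]
      have := oF_lt_AdQ hA hp1.1 hp1.2.1
      have h4 : 1 + oF V p ≤ p := by omega
      exact_mod_cast h4
    have h4 : 0 ≤ ∏ p ∈ (P \ A).filter (fun p => p ≤ 2 * κ), (1 / (p : ℝ)) := prod_nonneg fun p _ => by positivity
    calc _ ≤ 1 * ∏ p ∈ (P \ A).filter (fun p => p ≤ 2 * κ), (1 / (p : ℝ)) := mul_le_mul_of_nonneg_right h2 h4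
      _ ≤ _ := by rw [one_mul]; exact h3
  -- the large primes
  have h2 : cD ≤ ∏ p ∈ (P \ A).filter (fun p => ¬ p ≤ 2 * κ), (1 - (oF V p : ℝ) / p) := by
    have hd := hden z y hR hyz (fun _ => range κ) (by
      intro p hp
      rw [Pool.Agent.Y843.HS.Pr_mem] at hp
      refine ⟨by rw [card_range], fun c hc => ?_⟩
      rw [mem_range] at hc
      omega)
    refine hd.trans ?_
    unfold Pool.Agent.Y843.HS.VV
    have hsub : (P \ A).filter (fun p => ¬ p ≤ 2 * κ) ⊆ Pool.Agent.Y843.HS.Pr z y := by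
      intro p hp
      rw [mem_filter, mem_sdiff] at hp
      obtain ⟨⟨hp1, hp2⟩, hp3⟩ := hp
      obtain ⟨q1, q2, q3⟩ := hPp p hp1
      rw [Pool.Agent.Y843.HS.Pr_mem]
      have h4 : z ≤ p := by
        by_contra hcon
        push Not at hcon
        apply hp2
        rw [hAd, mem_filter]
        refine ⟨?_, fun h => q2 (h.trans (Dvd.intro_left 2 rfl))⟩
        unfold Pr
        rw [mem_filter, mem_range, ← hzd]
        exact ⟨hcon, q1, by omega⟩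
      have h5 : z ≠ p := by
        intro h5
        rw [← h5, hzd] at q1
        rcases Nat.eq_zero_or_pos J with h6 | h6
        · rw [hzd, h6] at hκz
          norm_num at hκz
          omega
        · have h7 : 2 ≤ 2 ^ J := by
            calc 2 = 2 ^ 1 := by norm_num
              _ ≤ 2 ^ J := Nat.pow_le_pow_right (by norm_num) h6
          exact Nat.Prime.not_prime_pow h7 q1
      exact ⟨⟨by omega, q3⟩, q1⟩
    have hpos : ∀ p ∈ Pool.Agent.Y843.HS.Pr z y, 0 ≤ 1 - ((range κ).card : ℝ) / p ∧ 1 - ((range κ).card : ℝ) / p ≤ 1 := by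
      intro p hp
      rw [Pool.Agent.Y843.HS.Pr_mem] at hp
      have hp0 : (0 : ℝ) < p := by exact_mod_cast hp.2.pos
      rw [card_range]
      constructor
      · rw [sub_nonneg, div_le_one hp0]
        exact_mod_cast (by omega : κ ≤ p)
      · have : (0 : ℝ) ≤ (κ : ℝ) / p := by positivity
        linarith
    rw [← prod_sdiff hsub]
    have h3 : ∏ p ∈ Pool.Agent.Y843.HS.Pr z y \ ((P \ A).filter (fun p => ¬ p ≤ 2 * κ)), (1 - ((range κ).card : ℝ) / p) ≤ 1 :=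
      prod_le_one (fun p hp => (hpos p (sdiff_subset hp)).1) fun p hp => (hpos p (sdiff_subset hp)).2
    have h4 : 0 ≤ ∏ p ∈ (P \ A).filter (fun p => ¬ p ≤ 2 * κ), (1 - ((range κ).card : ℝ) / p) :=
      prod_nonneg fun p hp => (hpos p (hsub hp)).1
    have h5 : ∏ p ∈ (P \ A).filter (fun p => ¬ p ≤ 2 * κ), (1 - ((range κ).card : ℝ) / p) ≤
        ∏ p ∈ (P \ A).filter (fun p => ¬ p ≤ 2 * κ), (1 - (oF V p : ℝ) / p) := by
      refine prod_le_prod (fun p hp => (hpos p (hsub hp)).1) fun p hp => ?_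
      have hp1 : 0 < p := by
        have := hsub hp
        rw [Pool.Agent.Y843.HS.Pr_mem] at this
        exact this.2.pos
      have hp0 : (0 : ℝ) < p := by exact_mod_cast hp1
      apply sub_le_sub_left
      apply div_le_div_of_nonneg_right _ hp0.le
      rw [card_range]
      have h6 := nuB_le_card V hp1
      rw [nuB_Qv V hp1] at h6
      exact_mod_cast h6.trans hV
    calc _ ≤ 1 * ∏ p ∈ (P \ A).filter (fun p => ¬ p ≤ 2 * κ), (1 - ((range κ).card : ℝ) / p) := mul_le_mul_of_nonneg_right h3 h4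
      _ ≤ _ := by rw [one_mul]; exact h5
  have h3 : cs * cD ≤ ∏ p ∈ P \ A, (1 - (oF V p : ℝ) / p) := by
    rw [← prod_filter_mul_prod_filter_not (P \ A) (fun p => p ≤ 2 * κ)]
    exact mul_le_mul h1 h2 hcD.le (hcs0.le.trans h1)
  rw [hVQ]
  calc ∏ p ∈ A, (1 - (oF V p : ℝ) / p) = 1 / (cs * cD) * ((cs * cD) * ∏ p ∈ A, (1 - (oF V p : ℝ) / p)) := by
        field_simp
    _ ≤ _ := by
        apply mul_le_mul_of_nonneg_left _ (by positivity)
        exact mul_le_mul_of_nonneg_right h3 hAnn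

/-- the error term -/
lemma err_small (b r : ℕ) (hb : 2 ≤ b) (c1 : ℝ) (hc1 : 0 < c1) : ∃ L0 : ℕ, ∀ L : ℕ, L0 ≤ L → ∀ V : Finset ℤ, V.card ≤ r → AdQ (2 * b) V →
    1 / (L : ℝ) ^ (r + 2) ≤ c1 * VQ (b ^ L) (2 * b) V := by
  obtain ⟨cV, hcV, hlow⟩ := Pool.Agent.Q117.MG.SMUa.VQ_low r
  have hbR : (2 : ℝ) ≤ b := by exact_mod_cast hb
  have hlb : 0 < Real.log b := Real.log_pos (by linarith)
  obtain ⟨N, hN⟩ := exists_nat_ge (Real.log b ^ (r + 1) / (c1 * cV))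
  refine ⟨max N 1, ?_⟩
  intro L hL V hV hA
  have hL1 : 1 ≤ L := le_trans (le_max_right _ _) hL
  have hLN : N ≤ L := le_trans (le_max_left _ _) hL
  have hL0 : (0 : ℝ) < L := by exact_mod_cast hL1
  have h1 := hlow (b ^ L) (by
    calc 2 = 2 ^ 1 := by norm_num
      _ ≤ 2 ^ L := Nat.pow_le_pow_right (by norm_num) hL1
      _ ≤ b ^ L := Nat.pow_le_pow_left hb _) (2 * b) V hV hA
  have h2 : Real.log ((b ^ L : ℕ) : ℝ) = L * Real.log b := by
    push_cast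
    rw [Real.log_pow]
  rw [h2] at h1
  have h3 : Real.log b ^ (r + 1) / (c1 * cV) ≤ L := hN.trans (by exact_mod_cast hLN)
  rw [div_le_iff₀ (by positivity)] at h3
  have h4 : 1 / (L : ℝ) ^ (r + 2) ≤ c1 * (cV / (L * Real.log b) ^ (r + 1)) := by
    rw [← mul_div_assoc, div_le_div_iff₀ (by positivity) (by positivity), one_mul, mul_pow]
    calc (L : ℝ) ^ (r + 1) * Real.log b ^ (r + 1) ≤ (L : ℝ) ^ (r + 1) * (L * (c1 * cV)) :=
          mul_le_mul_of_nonneg_left h3 (by positivity)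
      _ = c1 * cV * (L : ℝ) ^ (r + 2) := by ring
  exact h4.trans (mul_le_mul_of_nonneg_left h1 hc1.le)

end Pool.Agent.Q117.PL.SUa

namespace Pool.Agent.Q117.PL

open Finset Pool.Agent.H373R2.T7 Pool.Agent.H410R2.ED
open Pool.Agent.Q117.LF (oF)
open Pool.Agent.Q117.AP (AdQ VQ)
open Pool.Agent.Q117.PL.SUa

/-- **SU**: the upper bound sieve for the outer digits -/
theorem su : St_SU := by
  classical
  intro hOD b hb r T hT
  obtain ⟨c, hc, δ, hδ, houter⟩ := outer hOD hb (r + 1) (by omega)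
  obtain ⟨L1, hout⟩ := houter (r + 2)
  obtain ⟨n, hn⟩ := exists_nat_ge (2 * (c : ℝ) / δ)
  obtain ⟨E, hE⟩ : ∃ E, E = T + n := ⟨_, rfl⟩
  have hE1 : 1 ≤ E := by omega
  have hcE : 2 * (c : ℝ) ≤ δ * E := by
    rw [div_le_iff₀ hδ] at hn
    have : (n : ℝ) ≤ E := by rw [hE]; exact_mod_cast (by omega : n ≤ T + n)
    nlinarith
  obtain ⟨C1, hC1, R0, hmid⟩ := mid_le (r + 1) E (by omega)
  obtain ⟨L2, hscale⟩ := scaleL hb E (R0 + r) hE1
  obtain ⟨L3, herr⟩ := err_small b r hb 1 one_pos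
  refine ⟨2 * C1 + 1, by positivity, max L1 (max L2 L3), ?_⟩
  intro L hL K hK hKL V hV hVn
  have hL1 : L1 ≤ L := le_trans (le_max_left _ _) hL
  have hL2 : L2 ≤ L := le_trans (le_trans (le_max_left _ _) (le_max_right _ _)) hL
  have hL3 : L3 ≤ L := le_trans (le_trans (le_max_right _ _) (le_max_right _ _)) hL
  obtain ⟨J, hJ1, hJ2, hJ3⟩ := hscale L hL2
  obtain ⟨z, hz⟩ : ∃ z, z = 2 ^ 2 ^ J := ⟨_, rfl⟩
  have hz1 : 1 ≤ z := by rw [hz]; exact Nat.one_le_pow _ _ (by norm_num)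
  rw [← hz] at hJ1 hJ2 hJ3
  have hb1 : (1 : ℝ) ≤ b := by exact_mod_cast (by omega : 1 ≤ b)
  have hzT : (z : ℝ) ≤ (b : ℝ) ^ ((L : ℝ) / T) :=
    z_le hb hT ((Nat.pow_le_pow_right hz1 (by omega)).trans hJ1)
  have hX0 : (0 : ℝ) ≤ (b : ℝ) ^ (L - K) := by positivity
  by_cases hA : AdQ (2 * b) V
  · -- the sieve
    have hzb : z ≤ b ^ L := le_trans (by
      calc z = z ^ 1 := (pow_one z).symm
        _ ≤ z ^ E := Nat.pow_le_pow_right hz1 hE1) hJ1
    have hlev := level (M := 1) hb hE1 hJ1 hcE (by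
      push_cast
      apply Real.one_le_rpow hb1 (by positivity))
    rw [hz] at hlev hzb
    obtain ⟨G, hG⟩ := exG (b ^ (L - K)) (fun o => OutP b L K o % 1 = 0 % 1 ∧ ∀ l ∈ Pr (r + 1) J, ¬ l ∣ b → ¬ Qv V l (OutP b L K o))
    have hsv := (hout L hL1 K hK hKL V (by omega) 1 one_pos (Nat.coprime_one_left _) (by
      intro p hp hd
      have := Nat.le_of_dvd one_pos hd
      have := hp.two_le
      omega) 0 J hlev hzb G hG).2
    have hm := hmid b (b ^ L) J V (by omega) hA (by rw [← hz]; omega) hzb (by rw [← hz]; exact hJ2.le)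
    have he := herr L hL3 V hV hA
    obtain ⟨W, hW⟩ : ∃ W, W = VQ (b ^ L) (2 * b) V := ⟨_, rfl⟩
    rw [← hW] at hm he ⊢
    refine le_trans (Nat.cast_le.2 (card_le_card (t := G) ?_)) (hsv.trans ?_)
    · intro o ho
      rw [mem_filter, mem_range] at ho
      rw [hG]
      refine ⟨ho.1, by omega, ?_⟩
      intro l hl hlb ⟨v, hv, hd⟩
      unfold Pr at hl
      rw [mem_filter, mem_range, ← hz] at hl
      have h1 := ho.2 v hv l hl.2.1 (by
        intro h5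
        rcases (Nat.Prime.dvd_mul hl.2.1).1 h5 with h6 | h6
        · have := Nat.le_of_dvd (by norm_num) h6
          omega
        · exact hlb h6) hd
      have h2 : (l : ℝ) < z := by exact_mod_cast hl.1
      linarith
    · rw [Nat.cast_one, div_one]
      have h2 : 2 * (b : ℝ) ^ (L - K) * ∏ l ∈ (Pr (r + 1) J).filter (fun l => ¬ l ∣ b), (1 - (nuB (Qv V) l : ℝ) / l) ≤
          2 * (b : ℝ) ^ (L - K) * (C1 * W) := mul_le_mul_of_nonneg_left hm (by positivity)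
      have h3 : (b : ℝ) ^ (L - K) / (L : ℝ) ^ (r + 2) ≤ (b : ℝ) ^ (L - K) * (1 * W) := by
        have := mul_le_mul_of_nonneg_left he hX0
        rw [mul_one_div] at this
        exact this
      calc _ ≤ 2 * (b : ℝ) ^ (L - K) * (C1 * W) + (b : ℝ) ^ (L - K) * (1 * W) := add_le_add h2 h3
        _ = _ := by ring
  · -- an obstruction
    have hex : ∃ p : ℕ, p.Prime ∧ ¬ p ∣ 2 * b ∧ ∀ s : ℤ, ∃ v ∈ V, (p : ℤ) ∣ s + v := by
      unfold AdQ at hA
      push Not at hA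
      exact hA
    obtain ⟨p, hp, hpb, hall⟩ := hex
    have hpr : p ≤ r := by
      have h1 := nuB_le_card V hp.pos
      have h2 : nuB (Qv V) p = p := by
        unfold nuB
        have : (range p).filter (fun s => Qv V p s) = range p := by
          apply filter_true_of_mem
          intro s _
          exact hall s
        rw [this, card_range]
      omega
    have hemp : (range (b ^ (L - K))).filter (fun o : ℕ => ∀ v ∈ V, ∀ p : ℕ, p.Prime → ¬ p ∣ 2 * b → (p : ℤ) ∣ OutP b L K o + v → (b : ℝ) ^ ((L : ℝ) / T) < p) = ∅ := by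
      apply filter_false_of_mem
      intro o _ h
      obtain ⟨v, hv, hd⟩ := hall (OutP b L K o)
      have h1 := h v hv p hp hpb hd
      have h2 : (p : ℝ) ≤ z := by exact_mod_cast (by omega : p ≤ z)
      linarith
    have h0 : 0 ≤ (2 * C1 + 1) * ((b : ℝ) ^ (L - K) * VQ (b ^ L) (2 * b) V) := by
      have := VQ_nonneg (b ^ L) (2 * b) V
      positivity
    refine le_trans (le_of_eq ?_) h0
    rw [Nat.cast_eq_zero, card_eq_zero]
    convert hemp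

end Pool.Agent.Q117.PL
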