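import Pool.Agent.Q117.PL.Od
import Pool.Agent.Q117.PL.Su
import Pool.Agent.Q117.PL.Sl
import Pool.Agent.Q117.PL.Avm
import Pool.Agent.Q117.PL.Pt
import Pool.Agent.Q117.PL.Pd
import Pool.Agent.Q117.PL.Pa
import Pool.Agent.Q117.MG.Mgl

/-!
Project PL (helper117): the assembled theorems.
-/

set_option autoImplicit false

namespace Pool.Agent.Q117.PL

theorem ptC : PTc := pt (sl od) (su od) Pool.Agent.Q117.MG.mgl avm

theorem paC : PAc := pa pd (su od) Pool.Agent.Q117.MG.mgl avm

end Pool.Agent.Q117.PL
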