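import Pool.Agent.Q117.PL.Sr
import Pool.Agent.Q117.PL.Pa
import Pool.Agent.Q117.PL.Pd

/-!
Project PL (helper117): palindromes without small prime factors that have another such integer nearby are rare.
-/

set_option autoImplicit false

namespace Pool.Agent.Q117.PL

open Finset Filter
open Pool.Agent.Q117.LF (Ro oF)
open Pool.Agent.Q117.AP (AdQ VQ)
open Pool.Agent.Q117.MG (GQ)

open Classical in
/-- the palindromes with `2 L + 1` digits without prime factors `≤ z` which have another such integer at distance `≤ D` -/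
noncomputable def ClusS (b L : ℕ) (z D : ℝ) : Finset ℕ :=
  (Pal b L).filter (fun n : ℕ => Ro z n ∧ ∃ s : ℤ, s ≠ 0 ∧ |(s : ℝ)| ≤ D ∧ Ro z (n + s))

/-- conclusion -/
def ISc : Prop := ∀ b T : ℕ, 2 ≤ b → 1 ≤ T → ∃ C : ℝ, 0 < C ∧ ∃ L0 : ℕ, ∀ L : ℕ, L0 ≤ L → ∀ S : ℝ, 0 ≤ S → S ≤ L →
    ((ClusS b L ((b : ℝ) ^ ((L : ℝ) / T)) S).card : ℝ) ≤ C * (S + (L : ℝ) ^ (1 / 2 : ℝ)) * (b : ℝ) ^ L / (L : ℝ) ^ 2

namespace ISa

open PAa

open Classical in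
/-- a palindrome and a neighbour without small prime factors -/
noncomputable def N3 (b L l m : ℕ) (s : ℤ) (z : ℝ) : Finset ℕ :=
  (range (b ^ (L - 1))).filter (fun o : ℕ => Ro z (Pv b L 1 l o m) ∧ Ro z (Pv b L 1 l o m + s))

lemma N3_le {b T : ℕ} (hb : 2 ≤ b) (hT : 1 ≤ T) : ∃ C : ℝ, 0 < C ∧ ∃ L0 : ℕ, ∀ L : ℕ, L0 ≤ L →
    ∀ (l m : ℕ) (s : ℤ), ((N3 b L l m s ((b : ℝ) ^ ((L : ℝ) / T))).card : ℝ) ≤
      C * (b : ℝ) ^ (L - 1) / (L : ℝ) ^ 2 * GQ (2 * b) (b ^ L) s ^ 3 := by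
  classical
  obtain ⟨C, hC, L0, h⟩ := su od b hb 2 T hT
  obtain ⟨C', hC', h'⟩ := Q1_le hb
  refine ⟨C * C' ^ 2, by positivity, max L0 2, fun L hL l m s => ?_⟩
  have hL2 : 2 ≤ L := (le_max_right _ _).trans hL
  obtain ⟨v, hv⟩ : ∃ v : ℤ, v = ((l * (b ^ (2 * L) + 1) + Mid b L 1 m : ℕ) : ℤ) := ⟨_, rfl⟩
  obtain ⟨v', hv'⟩ : ∃ v' : ℤ, v' = v + s := ⟨_, rfl⟩
  have h1 := h L ((le_max_left _ _).trans hL) 1 le_rfl (by omega) ({v} ∪ {v'})
    ((card_union_le _ _).trans (by rw [card_singleton, card_singleton])) ⟨v, mem_union_left _ (mem_singleton_self v)⟩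
  have e : ∀ o : ℕ, ((Pv b L 1 l o m : ℕ) : ℤ) = (OutP b L 1 o : ℤ) + v := by
    intro o
    rw [hv, Pv]
    push_cast
    ring
  have h2 : (N3 b L l m s ((b : ℝ) ^ ((L : ℝ) / T))).card ≤ ((range (b ^ (L - 1))).filter (fun o : ℕ => ∀ w ∈ ({v} ∪ {v'} : Finset ℤ), ∀ p : ℕ, p.Prime → ¬ p ∣ 2 * b → (p : ℤ) ∣ OutP b L 1 o + w → (b : ℝ) ^ ((L : ℝ) / T) < p)).card := by
    refine card_le_card fun o ho => ?_
    rw [N3, mem_filter] at ho
    rw [mem_filter]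
    refine ⟨ho.1, fun w hw p hp _ hd => ?_⟩
    rw [mem_union, mem_singleton, mem_singleton] at hw
    rcases hw with hw | hw
    · refine ho.2.1 p hp ?_
      rw [hw] at hd
      rw [e]
      exact hd
    · refine ho.2.2 p hp ?_
      rw [hw, hv'] at hd
      rw [e, add_assoc]
      exact hd
  have h3 := h' L hL2
  have h4 := Pool.Agent.Q117.MG.mgl 1 (b ^ L) (2 * b) (2 * b) (fun p _ hp => hp) {v} {v'} (by rw [card_singleton]) (by rw [card_singleton]) (AdQ_single _ _) 0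
  rw [image_singleton, VQ_single, VQ_single, prod_singleton, prod_singleton] at h4
  have e1 : v' + ((2 * b : ℕ) : ℤ) * 0 = v' := by ring
  have e2 : v' - v = s := by
    rw [hv']
    ring
  rw [e1, e2, show 2 * 1 ^ 2 + 1 = 3 by norm_num] at h4
  have hb0 : (0 : ℝ) < (b : ℝ) ^ (L - 1) := by
    have : (0 : ℝ) < b := by exact_mod_cast (show 0 < b by omega)
    positivity
  have hG : 0 ≤ GQ (2 * b) (b ^ L) s := by
    unfold GQ
    exact prod_nonneg fun p _ => by positivity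
  have hQ := Q1_nonneg (b ^ L) (2 * b)
  have hL0 : (0 : ℝ) < L := by exact_mod_cast (show 0 < L by omega)
  have h5 : Q1 (b ^ L) (2 * b) * Q1 (b ^ L) (2 * b) ≤ (C' / L) * (C' / L) := mul_le_mul h3 h3 hQ (by positivity)
  calc ((N3 b L l m s ((b : ℝ) ^ ((L : ℝ) / T))).card : ℝ) ≤ _ := (Nat.cast_le (α := ℝ)).2 h2
    _ ≤ C * ((b : ℝ) ^ (L - 1) * VQ (b ^ L) (2 * b) ({v} ∪ {v'})) := by convert h1
    _ ≤ C * ((b : ℝ) ^ (L - 1) * (Q1 (b ^ L) (2 * b) * Q1 (b ^ L) (2 * b) * GQ (2 * b) (b ^ L) s ^ 3)) := by gcongr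
    _ ≤ C * ((b : ℝ) ^ (L - 1) * ((C' / L) * (C' / L) * GQ (2 * b) (b ^ L) s ^ 3)) := by gcongr
    _ = C * C' ^ 2 * (b : ℝ) ^ (L - 1) / (L : ℝ) ^ 2 * GQ (2 * b) (b ^ L) s ^ 3 := by
      field_simp

lemma clusS_card {b L f : ℕ} (hb : 2 ≤ b) (hL : 1 ≤ L) (z : ℝ) {D : ℝ} (hf : f = ⌊D⌋₊) :
    (ClusS b L z D).card ≤ ∑ l ∈ range b, ∑ m ∈ range b, ∑ s ∈ (Icc (-(f : ℤ)) f).filter (fun s => s + 0 ≠ 0), (N3 b L l m s z).card := by
  classical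
  obtain ⟨h1, h2, h3, h4⟩ := pd b L hb hL
  have hsub : ClusS b L z D ⊆
      (range b).biUnion fun l => (range b).biUnion fun m => ((Icc (-(f : ℤ)) f).filter (fun s => s + 0 ≠ 0)).biUnion fun s =>
        (N3 b L l m s z).image (fun o => Pv b L 1 l o m) := by
    intro n hn
    rw [ClusS, mem_filter] at hn
    obtain ⟨hn1, hn2, s, hs1, hs2, hs3⟩ := hn
    obtain ⟨x, _, hx, rfl⟩ := (h1 n).1 hn1
    obtain ⟨l, hl, o, ho, m, hm, e1, e2⟩ := decomp (K := 1) hb hL hx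
    have hP := h4 1 l o m hL hl ho hm
    rw [← e1] at hP
    rw [pow_one] at hm
    rw [mem_biUnion]
    refine ⟨l, mem_range.2 hl, ?_⟩
    rw [mem_biUnion]
    refine ⟨m, mem_range.2 hm, ?_⟩
    rw [mem_biUnion]
    refine ⟨s, ?_, ?_⟩
    · have h5 : s.natAbs ≤ f := by
        rw [hf]
        apply Nat.le_floor
        rw [Nat.cast_natAbs]
        push_cast
        exact hs2
      rw [mem_filter, mem_Icc]
      refine ⟨⟨by omega, by omega⟩, by omega⟩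
    · rw [mem_image]
      refine ⟨o, ?_, hP.symm⟩
      rw [N3, mem_filter, mem_range, ← hP]
      exact ⟨ho, hn2, hs3⟩
  refine (card_le_card hsub).trans ?_
  refine card_biUnion_le.trans (sum_le_sum fun l _ => ?_)
  refine card_biUnion_le.trans (sum_le_sum fun m _ => ?_)
  refine card_biUnion_le.trans (sum_le_sum fun s _ => ?_)
  exact card_image_le

end ISa

open ISa in
theorem isC : ISc := by
  classical
  intro b T hb hT
  obtain ⟨C1, hC1, L1, h1⟩ := N3_le hb hT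
  obtain ⟨C2, hC2, L2, h2⟩ := SRa.avg_s b 3 hb
  have hb0 : (0 : ℝ) < b := by exact_mod_cast (show 0 < b by omega)
  refine ⟨b * C1 * C2, by positivity, max (max L1 L2) 1, fun L hL S hS hSL => ?_⟩
  have hL1 : L1 ≤ L := (le_max_left _ _).trans ((le_max_left _ _).trans hL)
  have hL2 : L2 ≤ L := (le_max_right _ _).trans ((le_max_left _ _).trans hL)
  have hL3 : 1 ≤ L := (le_max_right _ _).trans hL
  have hL0 : (0 : ℝ) < L := by exact_mod_cast hL3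
  obtain ⟨f, hf⟩ : ∃ f, f = ⌊S⌋₊ := ⟨_, rfl⟩
  have hfS : (f : ℝ) ≤ S := by
    rw [hf]
    exact Nat.floor_le hS
  have hfb : f ≤ b ^ L := by
    have h3 : (f : ℝ) ≤ L := hfS.trans hSL
    have h4 : f ≤ L := by exact_mod_cast h3
    exact h4.trans (Nat.lt_pow_self (by omega)).le
  have h3 := clusS_card hb hL3 ((b : ℝ) ^ ((L : ℝ) / T)) hf
  have h4 := h2 L hL2 0 (by simp) f hfb
  set I : Finset ℤ := (Icc (-(f : ℤ)) f).filter (fun s => s + 0 ≠ 0) with hI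
  have h5 : ∀ l m : ℕ, ∑ s ∈ I, ((N3 b L l m s ((b : ℝ) ^ ((L : ℝ) / T))).card : ℝ) ≤
      C1 * (b : ℝ) ^ (L - 1) / (L : ℝ) ^ 2 * (C2 * (S + (L : ℝ) ^ (1 / 2 : ℝ))) := by
    intro l m
    calc ∑ s ∈ I, ((N3 b L l m s ((b : ℝ) ^ ((L : ℝ) / T))).card : ℝ)
        ≤ ∑ s ∈ I, C1 * (b : ℝ) ^ (L - 1) / (L : ℝ) ^ 2 * GQ 1 (b ^ L) (s + 0) ^ 3 := by
          refine sum_le_sum fun s _ => (h1 L hL1 l m s).trans ?_
          refine mul_le_mul_of_nonneg_left ?_ (by positivity)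
          rw [add_zero]
          exact pow_le_pow_left₀ (by linarith [PTa.GQ_one_le (2 * b) (b ^ L) s]) (SRa.GQ_le_one _ _ _) _
      _ = C1 * (b : ℝ) ^ (L - 1) / (L : ℝ) ^ 2 * ∑ s ∈ I, GQ 1 (b ^ L) (s + 0) ^ 3 := by rw [mul_sum]
      _ ≤ C1 * (b : ℝ) ^ (L - 1) / (L : ℝ) ^ 2 * (C2 * (S + (L : ℝ) ^ (1 / 2 : ℝ))) := by
          refine mul_le_mul_of_nonneg_left (h4.trans ?_) (by positivity)
          gcongr
  have h6 : ((ClusS b L ((b : ℝ) ^ ((L : ℝ) / T)) S).card : ℝ) ≤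
      ∑ l ∈ range b, ∑ m ∈ range b, ∑ s ∈ I, ((N3 b L l m s ((b : ℝ) ^ ((L : ℝ) / T))).card : ℝ) := by
    exact_mod_cast h3
  have hpow : (b : ℝ) ^ L = (b : ℝ) ^ (L - 1) * b := by
    rw [← pow_succ, Nat.sub_add_cancel hL3]
  calc ((ClusS b L ((b : ℝ) ^ ((L : ℝ) / T)) S).card : ℝ) ≤ _ := h6
    _ ≤ ∑ l ∈ range b, ∑ m ∈ range b, C1 * (b : ℝ) ^ (L - 1) / (L : ℝ) ^ 2 * (C2 * (S + (L : ℝ) ^ (1 / 2 : ℝ))) :=
        sum_le_sum fun l _ => sum_le_sum fun m _ => h5 l m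
    _ = b * C1 * C2 * (S + (L : ℝ) ^ (1 / 2 : ℝ)) * (b : ℝ) ^ L / (L : ℝ) ^ 2 := by
        rw [sum_const, sum_const, card_range, nsmul_eq_mul, nsmul_eq_mul, hpow]
        ring

end Pool.Agent.Q117.PL
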