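import Pool.Agent.Q117.PL.Stm
import Pool.Agent.H39R3.PB.Basic
import Pool.Agent.H316R2.LS
import Pool.Agent.H623R3.PBT8

/-!
Project PL (helper117), job OD, part 3: counting by exponential sums, and the weights.
-/

set_option autoImplicit false

namespace Pool.Agent.Q117.PL.ODa

open Finset Filter Topology Pool.Agent.Helper112 Pool.Agent.H39R3.PB
open Pool.Agent.H623R3.PBT8 (orth group coprime_pos)
open Pool.Agent.Q117.PL (OutP)

/-- the reduced part at the denominator `q` -/
noncomputable def US (b L K q : ℕ) : ℝ := ∑ a ∈ (range q).filter (fun a => a.Coprime q), Ps b L K (L - K) ((a : ℝ) / q)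

lemma US_nonneg (b L K q : ℕ) : 0 ≤ US b L K q := sum_nonneg fun _ _ => Ps_nonneg _ _ _ _ _

/-- the contribution of `n` outer digits -/
def Ou (b L K n o : ℕ) : ℕ := ∑ c ∈ range n, (o / b ^ c % b) * fr b L (K + c)

lemma Ou_top {b : ℕ} (hb : 0 < b) (L K n d o : ℕ) (hd : d < b) (ho : o < b ^ n) :
    Ou b L K (n + 1) (o + d * b ^ n) = Ou b L K n o + d * fr b L (K + n) := by
  unfold Ou
  rw [sum_range_succ]
  congr 1
  · refine sum_congr rfl fun c hc => ?_
    rw [mem_range] at hc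
    congr 1
    have hc0 : 0 < b ^ c := Nat.pow_pos hb
    have e : o + d * b ^ n = o + b ^ c * (b * (d * b ^ (n - c - 1))) := by
      have : b ^ n = b ^ c * b * b ^ (n - c - 1) := by
        rw [← pow_succ, ← pow_add]
        congr 1
        omega
      rw [this]
      ring
    rw [e, Nat.add_mul_div_left _ _ hc0, Nat.add_mul_mod_self_left]
  · congr 1
    have hn0 : 0 < b ^ n := Nat.pow_pos hb
    rw [Nat.add_mul_div_right _ _ hn0, Nat.div_eq_of_lt ho, Nat.zero_add, Nat.mod_eq_of_lt hd]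

/-- splitting off the leading digit -/
lemma sum_top {b : ℕ} (hb : 0 < b) (n : ℕ) (f : ℕ → ℂ) :
    ∑ o ∈ range (b ^ (n + 1)), f o = ∑ d ∈ range b, ∑ o ∈ range (b ^ n), f (o + d * b ^ n) := by
  have hn0 : 0 < b ^ n := Nat.pow_pos hb
  rw [← sum_product']
  symm
  refine sum_bij' (fun x _ => x.2 + x.1 * b ^ n) (fun o _ => (o / b ^ n, o % b ^ n)) ?_ ?_ ?_ ?_ ?_
  · intro x hx
    rw [mem_product, mem_range, mem_range] at hx
    rw [mem_range, pow_succ]
    calc x.2 + x.1 * b ^ n < b ^ n + x.1 * b ^ n := by omega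
      _ = (x.1 + 1) * b ^ n := by ring
      _ ≤ b * b ^ n := Nat.mul_le_mul_right _ hx.1
      _ = b ^ n * b := by ring
  · intro o ho
    rw [mem_range, pow_succ] at ho
    rw [mem_product, mem_range, mem_range]
    exact ⟨Nat.div_lt_of_lt_mul ho, Nat.mod_lt _ hn0⟩
  · intro x hx
    rw [mem_product, mem_range, mem_range] at hx
    refine Prod.ext ?_ ?_
    · show (x.2 + x.1 * b ^ n) / b ^ n = x.1
      rw [Nat.add_mul_div_right _ _ hn0, Nat.div_eq_of_lt hx.2, Nat.zero_add]
    · show (x.2 + x.1 * b ^ n) % b ^ n = x.2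
      rw [Nat.add_mul_mod_self_right, Nat.mod_eq_of_lt hx.2]
  · intro o _
    show o % b ^ n + o / b ^ n * b ^ n = o
    rw [Nat.add_comm, Nat.mul_comm]
    exact Nat.div_add_mod _ _
  · intro x _
    rfl

/-- the exponential sum over the outer digits is a product -/
lemma norm_sum_Ou {b : ℕ} (hb : 0 < b) (L K n : ℕ) (α : ℝ) :
    ‖∑ o ∈ range (b ^ n), ee (α * (Ou b L K n o : ℝ))‖ = (b : ℝ) ^ n * Ps b L K n α := by
  have hbr : (b : ℝ) ≠ 0 := by exact_mod_cast hb.ne'
  induction n with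
  | zero => simp [Ou, Ps_zero, ls_ee_zero]
  | succ n ih =>
    rw [sum_top hb]
    have h1 : ∑ d ∈ range b, ∑ o ∈ range (b ^ n), ee (α * (Ou b L K (n + 1) (o + d * b ^ n) : ℝ)) =
        (∑ d ∈ range b, ee ((d : ℝ) * (fr b L (K + n) * α))) * ∑ o ∈ range (b ^ n), ee (α * (Ou b L K n o : ℝ)) := by
      rw [sum_mul_sum]
      refine sum_congr rfl fun d hd => sum_congr rfl fun o ho => ?_
      rw [mem_range] at hd ho
      rw [Ou_top hb L K n d o hd ho, ← ls_ee_add]
      congr 1
      push_cast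
      ring
    rw [h1, norm_mul, ih]
    have h2 : Ps b L K (n + 1) α = Ps b L K n α * ph b (fr b L (K + n) * α) := by
      unfold Ps
      rw [prod_range_succ]
    rw [h2]
    have h3 : ‖∑ d ∈ range b, ee ((d : ℝ) * (fr b L (K + n) * α))‖ = b * ph b (fr b L (K + n) * α) := by
      unfold ph
      rw [mul_div_cancel₀ _ hbr]
    rw [h3, pow_succ]
    ring

/-- the number of outer digits in a residue class -/
noncomputable def cO (b L K q h : ℕ) : ℝ := ((range (b ^ (L - K))).filter (fun o => OutP b L K o ≡ h [MOD q])).card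

/-- counting by exponential sums -/
theorem cO_bound {b : ℕ} (hb : 0 < b) (L K q h : ℕ) (hq : q.Coprime (2 * b)) :
    |cO b L K q h - (b : ℝ) ^ (L - K) / q| ≤ (b : ℝ) ^ (L - K) / q * ∑ d ∈ q.divisors.filter (fun d => 1 < d), US b L K d := by
  have hq0 := coprime_pos hq
  have hqr : (0 : ℝ) < q := by exact_mod_cast hq0
  have hqc : (q : ℂ) ≠ 0 := by exact_mod_cast hq0.ne'
  obtain ⟨n, hn⟩ : ∃ n, n = L - K := ⟨_, rfl⟩
  -- Fourier expansion
  obtain ⟨T, hT⟩ : ∃ T : ℕ → ℂ, T = fun (a : ℕ) => ee (-((a : ℝ) * (h : ℝ) / q)) * ∑ o ∈ range (b ^ n), ee ((a : ℝ) / q * (Ou b L K n o : ℝ)) := ⟨_, rfl⟩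
  have h1 : (cO b L K q h : ℂ) = (1 / (q : ℂ)) * ∑ a ∈ range q, T a := by
    have h2 : (cO b L K q h : ℂ) = ∑ o ∈ range (b ^ n),
        (1 / (q : ℂ)) * ∑ a ∈ range q, ee ((a : ℝ) * ((((Ou b L K n o : ℕ) : ℝ) - h) / q)) := by
      unfold cO
      rw [Finset.card_filter, ← hn]
      push_cast
      refine sum_congr rfl fun o _ => ?_
      rw [orth hq0]
      have e : OutP b L K o = Ou b L K n o := by rw [hn]; rfl
      rw [e]
      split_ifs with hm
      · push_cast
        field_simp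
      · simp
    rw [h2, ← mul_sum, sum_comm]
    congr 1
    refine sum_congr rfl fun a _ => ?_
    simp only [hT]
    rw [mul_sum]
    refine sum_congr rfl fun m _ => ?_
    rw [← ls_ee_add]
    congr 1
    ring
  have hT0 : T 0 = (b : ℂ) ^ n := by
    simp only [hT]
    simp [ls_ee_zero]
  have hTn : ∀ a, ‖T a‖ = (b : ℝ) ^ n * Ps b L K n ((a : ℝ) / q) := by
    intro a
    simp only [hT]
    rw [norm_mul, ls_norm_ee, one_mul, norm_sum_Ou hb]
  have h3 : (cO b L K q h : ℂ) - (b : ℂ) ^ n / q = (1 / (q : ℂ)) * ∑ a ∈ (range q).erase 0, T a := by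
    rw [h1, ← Finset.add_sum_erase _ _ (mem_range.2 hq0), hT0]
    ring
  have h4 : |cO b L K q h - (b : ℝ) ^ n / q| ≤ (1 / (q : ℝ)) * ∑ a ∈ (range q).erase 0,
      (b : ℝ) ^ n * Ps b L K n ((a : ℝ) / q) := by
    have h5 : |cO b L K q h - (b : ℝ) ^ n / q| = ‖(cO b L K q h : ℂ) - (b : ℂ) ^ n / q‖ := by
      rw [← Real.norm_eq_abs, ← Complex.norm_real]
      push_cast
      rfl
    rw [h5, h3, norm_mul]
    have h6 : ‖(1 / (q : ℂ))‖ = 1 / (q : ℝ) := by simp
    rw [h6]
    refine mul_le_mul_of_nonneg_left ?_ (by positivity)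
    refine (norm_sum_le _ _).trans (le_of_eq ?_)
    exact sum_congr rfl fun a _ => hTn a
  rw [← hn]
  refine h4.trans (le_of_eq ?_)
  rw [← mul_sum]
  have h7 : ∑ a ∈ (range q).erase 0, Ps b L K n ((a : ℝ) / q) =
      ∑ d ∈ q.divisors.filter (fun d => 1 < d), US b L K d := by
    have h8 := group hq0 (Ps b L K n)
    rw [← Finset.add_sum_erase _ _ (mem_range.2 hq0)] at h8
    have h9 : q.divisors.filter (fun d => 1 < d) = q.divisors.erase 1 := by
      ext d
      rw [mem_filter, mem_erase, Nat.mem_divisors]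
      constructor
      · rintro ⟨h1, h2⟩
        exact ⟨by omega, h1⟩
      · rintro ⟨h1, h2⟩
        refine ⟨h2, ?_⟩
        have := Nat.pos_of_dvd_of_pos h2.1 hq0
        omega
    have h10 : (1 : ℕ) ∈ q.divisors := Nat.one_mem_divisors.2 hq0.ne'
    rw [← Finset.add_sum_erase _ _ h10] at h8
    have h11 : ∑ a ∈ (range 1).filter (fun a => a.Coprime 1), Ps b L K n ((a : ℝ) / (1 : ℕ)) =
        Ps b L K n (((0 : ℕ) : ℝ) / q) := by
      simp
    rw [h11] at h8
    rw [h9]
    unfold US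
    rw [← hn]
    linarith
  rw [h7]
  ring

/-- the double sum over multiples -/
lemma double (b L K D w : ℕ) :
    ∑ q ∈ (Icc 1 D).filter (fun q => q.Coprime (2 * b)),
      (q.divisors.card : ℝ) ^ w * ((b : ℝ) ^ (L - K) / q * ∑ d ∈ q.divisors.filter (fun d => 1 < d), US b L K d) ≤
    (b : ℝ) ^ (L - K) * ((∑ d ∈ (Icc 2 D).filter (fun q => q.Coprime (2 * b)),
      (d.divisors.card : ℝ) ^ w * US b L K d / d) *
        ∑ e ∈ Icc 1 D, (e.divisors.card : ℝ) ^ w / e) := by
  have h1 : ∀ q ∈ (Icc 1 D).filter (fun q => q.Coprime (2 * b)),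
      (q.divisors.card : ℝ) ^ w * ((b : ℝ) ^ (L - K) / q * ∑ d ∈ q.divisors.filter (fun d => 1 < d), US b L K d) ≤
      ∑ d ∈ q.divisors.filter (fun d => 1 < d), (b : ℝ) ^ (L - K) * (((d.divisors.card : ℝ) ^ w * US b L K d / d) *
        (((q / d).divisors.card : ℝ) ^ w / ((q / d : ℕ) : ℝ))) := by
    intro q hq
    rw [mem_filter, mem_Icc] at hq
    have hq0 : 0 < q := hq.1.1
    rw [mul_sum, mul_sum]
    refine sum_le_sum fun d hd => ?_
    rw [mem_filter, Nat.mem_divisors] at hd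
    obtain ⟨⟨⟨e, he⟩, _⟩, hd1⟩ := hd
    have hd0 : 0 < d := by omega
    have he0 : 0 < e := by
      rcases Nat.eq_zero_or_pos e with h0 | h0
      · subst h0; simp at he; omega
      · exact h0
    have hqd : q / d = e := by rw [he, Nat.mul_div_cancel_left _ hd0]
    rw [hqd, he]
    have hd' : (0 : ℝ) < d := by exact_mod_cast hd0
    have he' : (0 : ℝ) < e := by exact_mod_cast he0
    have ht : ((d * e).divisors.card : ℝ) ≤ (d.divisors.card : ℝ) * e.divisors.card := by
      exact_mod_cast Pool.Agent.H316R2.tau_mul_le d e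
    have ht2 : ((d * e).divisors.card : ℝ) ^ w ≤
        ((d.divisors.card : ℝ) * e.divisors.card) ^ w := by gcongr
    have hU := US_nonneg b L K d
    push_cast
    calc ((d * e).divisors.card : ℝ) ^ w * ((b : ℝ) ^ (L - K) / (d * e) * US b L K d)
        ≤ ((d.divisors.card : ℝ) * e.divisors.card) ^ w * ((b : ℝ) ^ (L - K) / (d * e) * US b L K d) := by
          gcongr
      _ = _ := by
          rw [mul_pow]
          field_simp
  refine (sum_le_sum h1).trans ?_
  rw [sum_sigma', sum_mul_sum, mul_sum]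
  simp_rw [mul_sum]
  rw [sum_sigma' (s := (Icc 2 D).filter (fun q => q.Coprime (2 * b))) (t := fun _ => Icc 1 D)]
  -- injection `(q, d) ↦ (d, q / d)`
  set g : (_ : ℕ) × ℕ → (_ : ℕ) × ℕ := fun x => ⟨x.2, x.1 / x.2⟩ with hg
  set F : (_ : ℕ) × ℕ → ℝ := fun x => (b : ℝ) ^ (L - K) * (((x.1.divisors.card : ℝ) ^ w * US b L K x.1 / x.1) *
        ((x.2.divisors.card : ℝ) ^ w / (x.2 : ℝ))) with hF
  have hinj : Set.InjOn g (((Icc 1 D).filter (fun q => q.Coprime (2 * b))).sigma
      (fun q => q.divisors.filter (fun d => 1 < d)) : Finset ((_ : ℕ) × ℕ)) := by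
    rintro ⟨q, d⟩ hx ⟨q', d'⟩ hx' hxx
    rw [Finset.mem_coe, mem_sigma, mem_filter, mem_filter, Nat.mem_divisors] at hx hx'
    simp only [hg, Sigma.mk.injEq, heq_eq_eq] at hxx
    obtain ⟨h1, h2⟩ := hxx
    simp only at hx hx'
    subst h1
    have h3 : q = q' := by
      rw [← Nat.div_mul_cancel hx.2.1.1, h2, Nat.div_mul_cancel hx'.2.1.1]
    subst h3
    rfl
  have hsum : ∑ x ∈ ((Icc 1 D).filter (fun q => q.Coprime (2 * b))).sigma
      (fun q => q.divisors.filter (fun d => 1 < d)), F (g x) =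
      ∑ y ∈ (((Icc 1 D).filter (fun q => q.Coprime (2 * b))).sigma
      (fun q => q.divisors.filter (fun d => 1 < d))).image g, F y := by
    rw [sum_image hinj]
  have hgoal : ∑ x ∈ ((Icc 1 D).filter (fun q => q.Coprime (2 * b))).sigma
      (fun q => q.divisors.filter (fun d => 1 < d)), F (g x) ≤
      ∑ y ∈ ((Icc 2 D).filter (fun q => q.Coprime (2 * b))).sigma (fun _ => Icc 1 D), F y := by
    rw [hsum]
    refine sum_le_sum_of_subset_of_nonneg ?_ ?_
    · intro y hy
      rw [mem_image] at hy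
      obtain ⟨⟨q, d⟩, hx, rfl⟩ := hy
      rw [mem_sigma, mem_filter, mem_filter, Nat.mem_divisors, mem_Icc] at hx
      simp only at hx
      obtain ⟨⟨⟨hq1, hqD⟩, hqc⟩, ⟨hdq, _⟩, hd1⟩ := hx
      rw [mem_sigma, mem_filter, mem_Icc, mem_Icc]
      simp only [hg]
      have hle := Nat.le_of_dvd hq1 hdq
      refine ⟨⟨⟨hd1, hle.trans hqD⟩, Nat.Coprime.coprime_dvd_left hdq hqc⟩, ?_, ?_⟩
      · exact Nat.div_pos hle (by omega)
      · exact (Nat.div_le_self _ _).trans hqD
    · intro y _ _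
      simp only [hF]
      have := US_nonneg b L K y.1
      positivity
  exact hgoal

/-- powers of the number of divisors on average -/
lemma tau_pow_sum (w N : ℕ) : ∑ n ∈ Icc 1 N, (n.divisors.card : ℝ) ^ w / n ≤ (1 + Real.log N) ^ (2 ^ w) := by
  have h0 : 0 ≤ Real.log (N:ℝ) := Real.log_natCast_nonneg N
  induction w with
  | zero =>
    have := Pool.Agent.H316R2.harm_sum_le N
    simpa using this
  | succ w ih =>
    have h1 : ∑ n ∈ Icc 1 N, (n.divisors.card : ℝ) ^ (w + 1) / n =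
        ∑ n ∈ Icc 1 N, ∑ i ∈ n.divisorsAntidiagonal, ((i.1 * i.2).divisors.card : ℝ) ^ w / (i.1 * i.2) := by
      apply sum_congr rfl
      intro n hn
      have h2 : ∀ i ∈ n.divisorsAntidiagonal, ((i.1 * i.2).divisors.card : ℝ) ^ w / (i.1 * i.2) =
          (n.divisors.card : ℝ) ^ w / n := by
        intro i hi
        rw [Nat.mem_divisorsAntidiagonal] at hi
        rw [← hi.1]; push_cast; rfl
      rw [sum_congr rfl h2, sum_const, nsmul_eq_mul]
      have : (n.divisorsAntidiagonal.card : ℝ) = n.divisors.card := by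
        rw [← Nat.map_div_right_divisors, card_map]
      rw [this, pow_succ]
      ring
    rw [h1, Pool.Agent.H316R2.hyperC N (fun b c => ((b * c).divisors.card : ℝ) ^ w / (b * c))]
    calc _ ≤ ∑ c ∈ Icc 1 N, ∑ b ∈ Icc 1 N, ((b.divisors.card : ℝ) ^ w / b) * ((c.divisors.card : ℝ) ^ w / c) := by
          apply sum_le_sum
          intro c hc
          refine le_trans (sum_le_sum_of_subset_of_nonneg (t := Icc 1 N)
            (Icc_subset_Icc_right (Nat.div_le_self _ _)) (fun b _ _ => by positivity)) ?_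
          apply sum_le_sum
          intro b _
          rw [div_mul_div_comm, ← mul_pow]
          gcongr
          exact_mod_cast Pool.Agent.H316R2.tau_mul_le b c
      _ = (∑ c ∈ Icc 1 N, (c.divisors.card : ℝ) ^ w / c) ^ 2 := by
          rw [sq, sum_mul_sum]
          rw [sum_comm]
      _ ≤ ((1 + Real.log N) ^ (2 ^ w)) ^ 2 := by
          have h3 : 0 ≤ ∑ c ∈ Icc 1 N, (c.divisors.card : ℝ) ^ w / c := sum_nonneg fun _ _ => by positivity
          gcongr
      _ = _ := by rw [← pow_mul, pow_succ]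

end Pool.Agent.Q117.PL.ODa
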