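import Pool.Agent.Q117.PL.Od2
import Pool.Agent.Q117.PL.Od3
import Pool.Agent.H885R3.PB_T7

/-!
Project PL (helper117), job OD: the distribution of the outer digits in residue classes.
-/

set_option autoImplicit false

namespace Pool.Agent.Q117.PL.ODa

open Finset Filter Topology Pool.Agent.Helper112 Pool.Agent.H39R3.PB Pool.Agent.H512R3.PBT6
open Pool.Agent.H760R2.PalT7 (dec)
open Pool.Agent.H885R3.PBT7 (cover clog_facts)
open Pool.Agent.H623R3.PBT8 (coprime_pos)

/-- the pointwise bound for the positions `K, .., L - 1` -/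
lemma blocksK {b : ℕ} (hb : 2 ≤ b) (q t a L K : ℕ) (hK : 1 ≤ K) (hq1 : 1 < q) (hq : q.Coprime (2 * b))
    (ha : a.Coprime q) (ht : q < b ^ t) (n : ℕ) (hn : K + n * (2 * t + 2) ≤ L) :
    Ps b L K (n * (2 * t + 2)) ((a : ℝ) / q) ≤ (1 - kap b) ^ n := by
  induction n with
  | zero => simp [Ps_zero]
  | succ n ih =>
    have h0 : K + n * (2 * t + 2) + (2 * t + 2) ≤ L := by
      have : (n + 1) * (2 * t + 2) = n * (2 * t + 2) + (2 * t + 2) := by ring
      omega
    rw [show (n + 1) * (2 * t + 2) = n * (2 * t + 2) + (2 * t + 2) by ring, Ps_add, pow_succ]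
    have h1 := ih (by omega)
    have h2 := block hb q t a L (K + n * (2 * t + 2)) hq1 hq ha ht (by omega) h0
    have h3 : 0 ≤ 1 - kap b := by linarith [kap_lt_one hb]
    exact mul_le_mul h1 h2 (Ps_nonneg _ _ _ _ _) (by positivity)

lemma pointK {b : ℕ} (hb : 2 ≤ b) (q t a L K : ℕ) (hK : 1 ≤ K) (hKL : K ≤ L) (hq1 : 1 < q) (hq : q.Coprime (2 * b))
    (ha : a.Coprime q) (ht : q < b ^ t) : Ps b L K (L - K) ((a : ℝ) / q) ≤ (1 - kap b) ^ ((L - K) / (2 * t + 2)) := by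
  have h1 : (L - K) / (2 * t + 2) * (2 * t + 2) ≤ L - K := Nat.div_mul_le_self _ _
  have h2 := blocksK hb q t a L K hK hq1 hq ha ht ((L - K) / (2 * t + 2)) (by omega)
  refine le_trans ?_ h2
  have h3 : L - K = (L - K) / (2 * t + 2) * (2 * t + 2) + (L - K - (L - K) / (2 * t + 2) * (2 * t + 2)) := by omega
  calc Ps b L K (L - K) ((a : ℝ) / q)
      = Ps b L K ((L - K) / (2 * t + 2) * (2 * t + 2) + (L - K - (L - K) / (2 * t + 2) * (2 * t + 2))) ((a : ℝ) / q) := by rw [← h3]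
    _ ≤ _ := by
      rw [Ps_add]
      exact mul_le_of_le_one_right (Ps_nonneg _ _ _ _ _) (Ps_le_one _ _ _ _ _)

/-- the small range -/
lemma smallK (κ : ℝ) (h0 : 0 < κ) (h1 : κ < 1) (w A : ℕ) :
    ∃ c1 : ℝ, 0 < c1 ∧ ∀ᶠ L : ℕ in atTop, ∀ K : ℕ, 2 * K ≤ L → ∀ j : ℕ, (j : ℝ) ≤ c1 * Real.sqrt L →
      (2 : ℝ) ^ ((w + 1) * (j + 1)) * (1 - κ) ^ ((L - K) / (2 * j + 4)) ≤ 1 / (L : ℝ) ^ A := by
  obtain ⟨lam, hlam⟩ : ∃ lam : ℝ, lam = -Real.log (1 - κ) := ⟨_, rfl⟩
  have hlam0 : 0 < lam := by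
    have := Real.log_neg (show 0 < 1 - κ by linarith) (by linarith)
    rw [hlam]; linarith
  obtain ⟨c1, hc1⟩ : ∃ c1 : ℝ, c1 = min 1 (lam / (12 * (w + 1))) := ⟨_, rfl⟩
  have hw : (0 : ℝ) < w + 1 := by positivity
  have hc10 : 0 < c1 := by rw [hc1]; exact lt_min one_pos (by positivity)
  have hc11 : c1 ≤ 1 := by rw [hc1]; exact min_le_left _ _
  have hc12 : 12 * ((w + 1) * c1) ≤ lam := by
    have : c1 ≤ lam / (12 * (w + 1)) := by rw [hc1]; exact min_le_right _ _
    rw [le_div_iff₀ (by positivity)] at this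
    linarith
  refine ⟨c1, hc10, ?_⟩
  have hsq : Tendsto (fun L : ℕ => Real.sqrt L) atTop atTop :=
    Real.tendsto_sqrt_atTop.comp tendsto_natCast_atTop_atTop
  filter_upwards [dec (lam / 12) (Real.exp ((w + 1) + lam)) (by positivity) (Real.exp_pos _).le A,
    hsq.eventually_ge_atTop (4 / c1), eventually_ge_atTop 2] with L hL hx hL2 K hK j hj
  refine le_trans ?_ hL
  rw [← Real.exp_add]
  obtain ⟨x, hxdef⟩ : ∃ x : ℝ, x = Real.sqrt L := ⟨_, rfl⟩
  rw [← hxdef] at hx hj ⊢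
  have hx2 : x ^ 2 = L := by rw [hxdef]; exact Real.sq_sqrt (Nat.cast_nonneg L)
  have hcx : 4 ≤ c1 * x := by
    rw [div_le_iff₀ hc10] at hx
    linarith
  have hx0 : 0 < x := by
    by_contra hcon
    push Not at hcon
    have := mul_nonpos_of_nonneg_of_nonpos hc10.le hcon
    linarith
  -- the number of blocks
  obtain ⟨n, hn⟩ : ∃ n, n = (L - K) / (2 * j + 4) := ⟨_, rfl⟩
  have hn1 : (x / (6 * c1) - 1) ≤ (n : ℝ) := by
    have h2 : L - K < (n + 1) * (2 * j + 4) := by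
      rw [hn]
      have := Nat.lt_mul_div_succ (L - K) (show 0 < 2 * j + 4 by omega)
      rw [Nat.mul_comm] at this
      exact this
    have h3 : L < 2 * ((n + 1) * (2 * j + 4)) := by omega
    have h4 : (L : ℝ) < 2 * (((n : ℝ) + 1) * (2 * j + 4)) := by exact_mod_cast h3
    have h5 : (2 * (j : ℝ) + 4) ≤ 3 * (c1 * x) := by linarith
    have h6 : (L : ℝ) < 2 * (((n : ℝ) + 1) * (3 * (c1 * x))) := by
      refine h4.trans_le ?_
      gcongr
    rw [← hx2] at h6
    have h7 : x * x < x * (6 * c1 * ((n : ℝ) + 1)) := by nlinarith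
    have h8 := lt_of_mul_lt_mul_left h7 hx0.le
    have h9 : x / (6 * c1) ≤ (n : ℝ) + 1 := by
      rw [div_le_iff₀ (by positivity)]
      linarith
    linarith
  have hE : (1 - κ) ^ n ≤ Real.exp (-(lam * (x / (6 * c1) - 1))) := by
    have e1 : 1 - κ = Real.exp (-lam) := by rw [hlam, neg_neg, Real.exp_log (by linarith)]
    rw [e1, ← Real.exp_nat_mul]
    apply Real.exp_le_exp.2
    have := mul_le_mul_of_nonneg_left hn1 hlam0.le
    linarith
  have h2 : (2 : ℝ) ^ ((w + 1) * (j + 1)) ≤ Real.exp ((w + 1) * (c1 * x + 1)) := by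
    have e1 : (2 : ℝ) ≤ Real.exp 1 := by
      have := Real.add_one_le_exp (1 : ℝ)
      linarith
    calc (2 : ℝ) ^ ((w + 1) * (j + 1)) ≤ Real.exp 1 ^ ((w + 1) * (j + 1)) := pow_le_pow_left₀ (by norm_num) e1 _
      _ = Real.exp (((w : ℝ) + 1) * ((j : ℝ) + 1)) := by
          rw [← Real.exp_nat_mul]
          push_cast
          ring_nf
      _ ≤ _ := by
          apply Real.exp_le_exp.2
          apply mul_le_mul_of_nonneg_left _ hw.le
          linarith
  rw [← hn]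
  calc (2 : ℝ) ^ ((w + 1) * (j + 1)) * (1 - κ) ^ n
      ≤ Real.exp ((w + 1) * (c1 * x + 1)) * Real.exp (-(lam * (x / (6 * c1) - 1))) :=
        mul_le_mul h2 hE (pow_nonneg (by linarith) _) (Real.exp_pos _).le
    _ = Real.exp ((w + 1) * (c1 * x + 1) + -(lam * (x / (6 * c1) - 1))) := by rw [Real.exp_add]
    _ ≤ _ := by
        apply Real.exp_le_exp.2
        have h3 : x ≤ x / c1 := by
          rw [le_div_iff₀ hc10]
          nlinarith
        have h4 : x / (6 * c1) = x / c1 / 6 := by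
          rw [div_div]
          congr 1
          ring
        rw [h4]
        have h5 : lam * x ≤ lam * (x / c1) := mul_le_mul_of_nonneg_left h3 hlam0.le
        have h6 : (w + 1) * c1 * x ≤ lam / 12 * x := by
          apply mul_le_mul_of_nonneg_right _ hx0.le
          linarith
        nlinarith

/-- a dyadic block in the small range -/
lemma block_smallK {b : ℕ} (hb : 2 ≤ b) (L K j w : ℕ) (hj : 1 ≤ j) (hK : 1 ≤ K) (hKL : K ≤ L) :
    ∑ q ∈ (Ico (2 ^ j) (2 * 2 ^ j)).filter (fun q => q.Coprime (2 * b)),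
      (q.divisors.card : ℝ) ^ w * US b L K q / q ≤
      (2 : ℝ) ^ ((w + 1) * (j + 1)) * (1 - kap b) ^ ((L - K) / (2 * j + 4)) := by
  have hk : 0 < 1 - kap b := by linarith [kap_lt_one hb]
  obtain ⟨E, hE⟩ : ∃ E : ℝ, E = (1 - kap b) ^ ((L - K) / (2 * j + 4)) := ⟨_, rfl⟩
  have hE0 : 0 < E := by rw [hE]; positivity
  rw [← hE]
  have hterm : ∀ q ∈ (Ico (2 ^ j) (2 * 2 ^ j)).filter (fun q => q.Coprime (2 * b)),
      (q.divisors.card : ℝ) ^ w * US b L K q / q ≤ (2 * 2 ^ j) ^ w * E := by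
    intro q hq
    rw [mem_filter, mem_Ico] at hq
    obtain ⟨⟨h2, h3⟩, h4⟩ := hq
    have h2j : 2 ^ 1 ≤ 2 ^ j := Nat.pow_le_pow_right (by norm_num) hj
    have hq1 : 1 < q := by omega
    have hq0 : (0 : ℝ) < q := by exact_mod_cast (show 0 < q by omega)
    have hq10 : q < b ^ (j + 1) := by
      calc q < 2 * 2 ^ j := h3
        _ = 2 ^ (j + 1) := by ring
        _ ≤ b ^ (j + 1) := Nat.pow_le_pow_left hb _
    have hU : US b L K q ≤ q * E := by
      unfold US
      calc ∑ a ∈ (range q).filter (fun a => a.Coprime q), Ps b L K (L - K) ((a : ℝ) / q)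
          ≤ ∑ a ∈ (range q).filter (fun a => a.Coprime q), E := by
            apply sum_le_sum
            intro a ha
            rw [mem_filter] at ha
            have := pointK hb q (j + 1) a L K hK hKL hq1 h4 ha.2 hq10
            have e : 2 * (j + 1) + 2 = 2 * j + 4 := by ring
            rw [e] at this
            rw [hE]
            exact this
        _ = (((range q).filter (fun a => a.Coprime q)).card : ℝ) * E := by
            rw [sum_const, nsmul_eq_mul]
        _ ≤ q * E := by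
            apply mul_le_mul_of_nonneg_right _ hE0.le
            have := card_filter_le (range q) (fun a => a.Coprime q)
            rw [card_range] at this
            exact_mod_cast this
    have hτ : (q.divisors.card : ℝ) ≤ 2 * 2 ^ j := by
      have e1 : q.divisors.card ≤ q := Nat.card_divisors_le_self q
      have e2 : q.divisors.card ≤ 2 * 2 ^ j := by omega
      exact_mod_cast e2
    rw [div_le_iff₀ hq0]
    calc (q.divisors.card : ℝ) ^ w * US b L K q ≤ (2 * 2 ^ j) ^ w * (q * E) := by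
          apply mul_le_mul _ hU (US_nonneg b L K q) (by positivity)
          exact pow_le_pow_left₀ (by positivity) hτ w
      _ = (2 * 2 ^ j) ^ w * E * q := by ring
  calc _ ≤ ∑ q ∈ (Ico (2 ^ j) (2 * 2 ^ j)).filter (fun q => q.Coprime (2 * b)),
        ((2 * 2 ^ j) ^ w * E : ℝ) := sum_le_sum hterm
    _ = (((Ico (2 ^ j) (2 * 2 ^ j)).filter (fun q => q.Coprime (2 * b))).card : ℝ)
        * ((2 * 2 ^ j) ^ w * E) := by rw [sum_const, nsmul_eq_mul]
    _ ≤ (2 * 2 ^ j) * ((2 * 2 ^ j) ^ w * E) := by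
        apply mul_le_mul_of_nonneg_right _ (by positivity)
        have := card_filter_le (Ico (2 ^ j) (2 * 2 ^ j)) (fun q => q.Coprime (2 * b))
        rw [Nat.card_Ico] at this
        have e : ((Ico (2 ^ j) (2 * 2 ^ j)).filter (fun q => q.Coprime (2 * b))).card ≤ 2 * 2 ^ j := by omega
        exact_mod_cast e
    _ = (2 : ℝ) ^ ((w + 1) * (j + 1)) * E := by
        have e : (2 : ℝ) * 2 ^ j = 2 ^ (j + 1) := by ring
        rw [e, ← mul_assoc, ← pow_succ', ← pow_mul, Nat.mul_comm (j + 1) (w + 1)]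

/-- powers of the number of divisors -/
lemma div_pow (w : ℕ) : ∃ C : ℝ, 0 < C ∧ ∀ n : ℕ, 1 ≤ n → (n.divisors.card : ℝ) ^ w ≤ C * (n : ℝ) ^ (1 / 4 : ℝ) := by
  obtain ⟨C, hC0, hC⟩ := divisor_bound (1 / (4 * ((w : ℝ) + 1))) (by positivity)
  refine ⟨C ^ w, by positivity, fun n hn => ?_⟩
  have hn1 : (1 : ℝ) ≤ n := by exact_mod_cast hn
  have h1 := hC n hn
  have h2 : ((n : ℝ) ^ (1 / (4 * ((w : ℝ) + 1)))) ^ w ≤ (n : ℝ) ^ (1 / 4 : ℝ) := by
    rw [← Real.rpow_natCast, ← Real.rpow_mul (by positivity)]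
    apply Real.rpow_le_rpow_of_exponent_le hn1
    rw [div_mul_eq_mul_div, one_mul, div_le_div_iff₀ (by positivity) (by norm_num)]
    linarith
  calc (n.divisors.card : ℝ) ^ w ≤ (C * (n : ℝ) ^ (1 / (4 * ((w : ℝ) + 1)))) ^ w := pow_le_pow_left₀ (by positivity) h1 w
    _ = C ^ w * ((n : ℝ) ^ (1 / (4 * ((w : ℝ) + 1)))) ^ w := mul_pow _ _ _
    _ ≤ _ := mul_le_mul_of_nonneg_left h2 (by positivity)

/-- a dyadic block in terms of `pts` -/
lemma blockK (b L K Q w : ℕ) (hQ : 1 ≤ Q) (C : ℝ) (hC : 0 ≤ C)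
    (hτ : ∀ n : ℕ, 1 ≤ n → (n.divisors.card : ℝ) ^ w ≤ C * (n : ℝ) ^ (1 / 4 : ℝ)) :
    ∑ q ∈ (Ico Q (2 * Q)).filter (fun q => q.Coprime (2 * b)),
      (q.divisors.card : ℝ) ^ w * US b L K q / q ≤
      C * (2 * Q : ℝ) ^ (1 / 4 : ℝ) / Q * pts b Q (Ps b L K (L - K)) := by
  unfold pts
  rw [mul_sum]
  apply sum_le_sum
  intro q hq
  rw [mem_filter, mem_Ico] at hq
  obtain ⟨⟨h1, h2⟩, h3⟩ := hq
  have hQ0 : (0 : ℝ) < Q := by exact_mod_cast hQ
  have hq0 : (0 : ℝ) < q := by exact_mod_cast (show 0 < q by omega)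
  have hU := US_nonneg b L K q
  have e1 : (q.divisors.card : ℝ) ^ w ≤ C * (2 * Q : ℝ) ^ (1 / 4 : ℝ) := by
    refine (hτ q (by omega)).trans (mul_le_mul_of_nonneg_left ?_ hC)
    apply Real.rpow_le_rpow hq0.le _ (by norm_num)
    exact_mod_cast h2.le
  have e2 : (1 : ℝ) / q ≤ 1 / Q := by
    apply one_div_le_one_div_of_le hQ0
    exact_mod_cast h1
  calc (q.divisors.card : ℝ) ^ w * US b L K q / q
      = (q.divisors.card : ℝ) ^ w * US b L K q * (1 / q) := by ring
    _ ≤ (C * (2 * Q : ℝ) ^ (1 / 4 : ℝ)) * US b L K q * (1 / Q) := by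
        apply mul_le_mul (mul_le_mul_of_nonneg_right e1 hU) e2 (by positivity)
        have : 0 ≤ C * (2 * Q : ℝ) ^ (1 / 4 : ℝ) := by positivity
        exact mul_nonneg this hU
    _ = C * (2 * Q : ℝ) ^ (1 / 4 : ℝ) / Q * US b L K q := by ring

/-- the sum over the moduli -/
theorem US_sum {b : ℕ} (hb : 2 ≤ b) : ∃ δ : ℝ, 0 < δ ∧ δ ≤ 1 / 2 ∧ ∀ w A : ℕ, ∀ᶠ L : ℕ in atTop, ∀ K : ℕ, 1 ≤ K → 2 * K ≤ L →
    ∑ q ∈ (Icc 2 ⌊(b : ℝ) ^ (δ * L)⌋₊).filter (fun q => q.Coprime (2 * b)),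
      (q.divisors.card : ℝ) ^ w * US b L K q / q ≤ 1 / (L : ℝ) ^ A := by
  have hbR : (2 : ℝ) ≤ b := by exact_mod_cast hb
  have hB : 0 < Real.log b := Real.log_pos (by linarith)
  have hl2 : 0 < Real.log 2 := Real.log_pos (by norm_num)
  obtain ⟨C, N, hC, hN, hmid⟩ := mid hb
  have hNR : (1 : ℝ) ≤ N := by exact_mod_cast hN
  obtain ⟨δ, hδ⟩ : ∃ δ : ℝ, δ = 1 / (16 * N) := ⟨_, rfl⟩
  have hδ0 : 0 < δ := by rw [hδ]; positivity
  have hδ1 : δ ≤ 1 / 2 := by
    rw [hδ, div_le_div_iff₀ (by positivity) (by norm_num)]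
    linarith
  refine ⟨δ, hδ0, hδ1, ?_⟩
  intro w A
  obtain ⟨c1, hc1, hsmall⟩ := smallK (kap b) (kap_pos hb) (kap_lt_one hb) w (A + 2)
  obtain ⟨C1, hC1, hτ⟩ := div_pow w
  have hLB : ∀ᶠ L : ℕ in atTop, Real.log b ≤ (L : ℝ) :=
    tendsto_natCast_atTop_atTop.eventually_ge_atTop _
  filter_upwards [hsmall, dec (Real.log 2 / 4 * c1) (2 * C1 * C) (by positivity) (by positivity) (A + 2),
    eventually_ge_atTop (48 * N), eventually_ge_atTop 2, hLB] with L h1 h2 h3 hL2 hLB' K hK hKL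
  obtain ⟨D, hD⟩ : ∃ D : ℕ, D = ⌊(b : ℝ) ^ (δ * L)⌋₊ := ⟨_, rfl⟩
  rw [← hD]
  have hLp : (2 : ℝ) ≤ L := by exact_mod_cast hL2
  have hg : ∀ q : ℕ, 0 ≤ (q.divisors.card : ℝ) ^ w * US b L K q / q := fun q =>
    div_nonneg (mul_nonneg (by positivity) (US_nonneg b L K q)) (Nat.cast_nonneg q)
  refine (cover (2 * b) D _ hg).trans ?_
  have hDr : (D : ℝ) ≤ (b : ℝ) ^ (δ * L) := by rw [hD]; exact Nat.floor_le (by positivity)
  have hterm : ∀ j ∈ Icc 1 (Nat.log 2 D),
      ∑ q ∈ (Ico (2 ^ j) (2 * 2 ^ j)).filter (fun q => q.Coprime (2 * b)),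
        (q.divisors.card : ℝ) ^ w * US b L K q / q ≤ 1 / (L : ℝ) ^ (A + 2) := by
    intro j hj
    rw [mem_Icc] at hj
    have hD0 : D ≠ 0 := by
      intro h0
      rw [h0] at hj
      simp at hj
      omega
    have hjD : (2 : ℝ) ^ j ≤ (b : ℝ) ^ (δ * L) := by
      have e1 : 2 ^ j ≤ D :=
        (Nat.pow_le_pow_right (by norm_num) hj.2).trans (Nat.pow_log_le_self 2 hD0)
      have e2 : (2 : ℝ) ^ j ≤ D := by exact_mod_cast e1
      exact e2.trans hDr
    rcases le_or_gt (j : ℝ) (c1 * Real.sqrt L) with h | h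
    · exact (block_smallK hb L K j w hj.1 hK (by omega)).trans (h1 K hKL j h)
    · -- the large range
      obtain ⟨Q, hQ⟩ : ∃ Q : ℕ, Q = 2 ^ j := ⟨_, rfl⟩
      rw [← hQ]
      have hQ1 : 1 ≤ Q := by rw [hQ]; exact Nat.one_le_pow _ _ (by norm_num)
      have hQ0 : (0 : ℝ) < Q := by exact_mod_cast hQ1
      have hQr : (Q : ℝ) = 2 ^ j := by rw [hQ]; push_cast; ring
      have hbig : 2 ≤ b ^ 5 * Q ^ 2 := by
        have e1 : 2 ^ 5 ≤ b ^ 5 := Nat.pow_le_pow_left hb _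
        have e2 : 1 ≤ Q ^ 2 := Nat.one_le_pow _ _ hQ1
        have e3 : b ^ 5 * 1 ≤ b ^ 5 * Q ^ 2 := Nat.mul_le_mul_left _ e2
        omega
      obtain ⟨f1, f2, f3⟩ := clog_facts b hb (b ^ 5 * Q ^ 2) hbig
      obtain ⟨H, hH⟩ : ∃ H, H = Nat.clog b (b ^ 5 * Q ^ 2) := ⟨_, rfl⟩
      rw [← hH] at f1 f2 f3
      have f4 : b ^ H ≤ b ^ 6 * Q ^ 2 := by
        refine f2.trans (le_of_eq ?_)
        ring
      have hlogQ : Real.log Q ≤ δ * L * Real.log b := by
        have := Real.log_le_log (by positivity) hjD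
        rw [Real.log_rpow (by linarith), ← hQr] at this
        exact this
      have hHL : K + N * (2 * H) ≤ L := by
        have e1 : ((b ^ H : ℕ) : ℝ) ≤ ((b ^ 6 * Q ^ 2 : ℕ) : ℝ) := by exact_mod_cast f4
        push_cast at e1
        have e2 := Real.log_le_log (by positivity) e1
        rw [Real.log_pow, Real.log_mul (by positivity) (by positivity), Real.log_pow, Real.log_pow] at e2
        push_cast at e2
        have e3 : (H : ℝ) * Real.log b ≤ (6 + 2 * (δ * L)) * Real.log b := by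
          rw [add_mul]
          linarith
        have e4 := le_of_mul_le_mul_right e3 hB
        have e5 : (48 : ℝ) * N ≤ L := by exact_mod_cast h3
        have e6 : 4 * (N * (δ * L)) = (L : ℝ) / 4 := by
          rw [hδ]
          field_simp
          ring
        have e7 : (N : ℝ) * (2 * H) ≤ N * (2 * (6 + 2 * (δ * L))) := by
          apply mul_le_mul_of_nonneg_left _ (by positivity)
          linarith
        have e8 : (2 : ℝ) * K ≤ L := by exact_mod_cast hKL
        have e9 : (K : ℝ) + N * (2 * H) ≤ L := by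
          have : (N : ℝ) * (2 * (6 + 2 * (δ * L))) = 12 * N + 4 * (N * (δ * L)) := by ring
          rw [this, e6] at e7
          linarith
        exact_mod_cast e9
      have hpts := hmid L K H Q hK hHL hQ1 f1 f4
      refine (blockK b L K Q w hQ1 C1 hC1.le hτ).trans ?_
      refine le_trans ?_ h2
      have hpos : 0 ≤ C1 * (2 * Q : ℝ) ^ (1 / 4 : ℝ) / Q := by positivity
      refine (mul_le_mul_of_nonneg_left hpts hpos).trans ?_
      have e1 : (2 * Q : ℝ) ^ (1 / 4 : ℝ) ≤ 2 * (Q : ℝ) ^ (1 / 4 : ℝ) := by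
        rw [Real.mul_rpow (by norm_num) hQ0.le]
        apply mul_le_mul_of_nonneg_right _ (by positivity)
        calc (2 : ℝ) ^ (1 / 4 : ℝ) ≤ 2 ^ (1 : ℝ) := Real.rpow_le_rpow_of_exponent_le (by norm_num) (by norm_num)
          _ = 2 := Real.rpow_one 2
      have e2 : (Q : ℝ) ^ (1 / 4 : ℝ) / Q * Real.sqrt Q ≤ Real.exp (-(Real.log 2 / 4 * c1 * Real.sqrt L)) := by
        have e3 : (Q : ℝ) ^ (1 / 4 : ℝ) / Q * Real.sqrt Q = (Q : ℝ) ^ (-(1 / 4) : ℝ) := by
          have a1 : (Q : ℝ) = (Q : ℝ) ^ (1 : ℝ) := (Real.rpow_one _).symm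
          rw [Real.sqrt_eq_rpow]
          nth_rewrite 2 [a1]
          rw [← Real.rpow_sub hQ0, ← Real.rpow_add hQ0]
          norm_num
        rw [e3, Real.rpow_def_of_pos hQ0]
        apply Real.exp_le_exp.2
        have e4 : Real.log Q = j * Real.log 2 := by rw [hQr, Real.log_pow]
        rw [e4]
        have e5 : c1 * Real.sqrt L * (Real.log 2 / 4) ≤ j * (Real.log 2 / 4) := mul_le_mul_of_nonneg_right h.le (by positivity)
        linarith
      calc C1 * (2 * Q : ℝ) ^ (1 / 4 : ℝ) / Q * (C * Real.sqrt Q)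
          ≤ C1 * (2 * (Q : ℝ) ^ (1 / 4 : ℝ)) / Q * (C * Real.sqrt Q) := by gcongr
        _ = 2 * C1 * C * ((Q : ℝ) ^ (1 / 4 : ℝ) / Q * Real.sqrt Q) := by ring
        _ ≤ _ := mul_le_mul_of_nonneg_left e2 (by positivity)
  refine (sum_le_sum hterm).trans ?_
  rw [sum_const, nsmul_eq_mul, Nat.card_Icc, Nat.add_sub_cancel]
  have hlog : (Nat.log 2 D : ℝ) ≤ L * Real.log b := by
    rcases Nat.eq_zero_or_pos D with h0 | h0
    · rw [h0]; simp; positivity
    have e1 : 2 ^ Nat.log 2 D ≤ D := Nat.pow_log_le_self 2 h0.ne'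
    have e2 : (2 : ℝ) ^ Nat.log 2 D ≤ (b : ℝ) ^ (δ * L) := by
      have : (2 : ℝ) ^ Nat.log 2 D ≤ D := by exact_mod_cast e1
      exact this.trans hDr
    have e3 := Real.log_le_log (by positivity) e2
    rw [Real.log_pow, Real.log_rpow (by linarith)] at e3
    have hl2 : 1 / 2 ≤ Real.log 2 := by
      have := Real.log_two_gt_d9
      linarith
    have e5 : δ * L * Real.log b ≤ (1 / 2 * L) * Real.log b := by
      apply mul_le_mul_of_nonneg_right _ hB.le
      nlinarith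
    have e6 : (1 / 2 * (L : ℝ)) * Real.log b ≤ L * Real.log b * Real.log 2 := by
      have : 0 ≤ (L : ℝ) * Real.log b := by positivity
      nlinarith
    exact le_of_mul_le_mul_right (e3.trans (e5.trans e6)) (by linarith)
  calc (Nat.log 2 D : ℝ) * (1 / (L : ℝ) ^ (A + 2)) ≤ L * Real.log b * (1 / (L : ℝ) ^ (A + 2)) :=
        mul_le_mul_of_nonneg_right hlog (by positivity)
    _ ≤ 1 / (L : ℝ) ^ A := by
        rw [mul_one_div, div_le_div_iff₀ (by positivity) (by positivity), one_mul, pow_add]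
        have h0 : 0 < (L : ℝ) ^ A := by positivity
        have : (L : ℝ) * Real.log b ≤ L ^ 2 := by nlinarith
        nlinarith

end Pool.Agent.Q117.PL.ODa

namespace Pool.Agent.Q117.PL

open Finset Filter Topology Pool.Agent.Helper112 Pool.Agent.H39R3.PB
open Pool.Agent.Q117.PL.ODa

/-- **OD**: the distribution of the outer digits in residue classes -/
theorem od : St_OD := by
  intro b hb
  obtain ⟨δ, hδ0, hδ1, hU⟩ := US_sum hb
  refine ⟨δ, hδ0, ?_⟩
  intro w A
  have hb0 : 0 < b := by omega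
  have hbr : (0 : ℝ) < b := by exact_mod_cast hb0
  have hb1 : (1 : ℝ) ≤ b := by exact_mod_cast hb0
  obtain ⟨W, hW⟩ : ∃ W : ℕ, W = 2 ^ w := ⟨_, rfl⟩
  have hev : ∀ᶠ L : ℕ in atTop, ∀ K : ℕ, 1 ≤ K → 2 * K ≤ L → ∀ h : ℕ → ℕ,
      ∑ q ∈ (Icc 1 ⌊(b : ℝ) ^ (δ * L)⌋₊).filter (fun q => q.Coprime (2 * b)),
        (q.divisors.card : ℝ) ^ w * |(((range (b ^ (L - K))).filter (fun o => OutP b L K o ≡ h q [MOD q])).card : ℝ) - (b : ℝ) ^ (L - K) / q| ≤
          (b : ℝ) ^ (L - K) / (L : ℝ) ^ A := by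
    filter_upwards [hU w (A + W + 1), eventually_ge_atTop ((b + 1) ^ W)] with L hL hLb K hK hKL h
    obtain ⟨D, hD⟩ : ∃ D : ℕ, D = ⌊(b : ℝ) ^ (δ * L)⌋₊ := ⟨_, rfl⟩
    have hL' := hL K hK hKL
    rw [← hD] at hL' ⊢
    have hLb' : ((b : ℝ) + 1) ^ W ≤ L := by exact_mod_cast hLb
    have hL1 : (1 : ℝ) ≤ L := by
      have : (1 : ℝ) ≤ ((b : ℝ) + 1) ^ W := one_le_pow₀ (by linarith)
      linarith
    have hL0 : (0 : ℝ) < L := by linarith
    have h1 : ∑ q ∈ (Icc 1 D).filter (fun q => q.Coprime (2 * b)),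
        (q.divisors.card : ℝ) ^ w * |(((range (b ^ (L - K))).filter (fun o => OutP b L K o ≡ h q [MOD q])).card : ℝ) - (b : ℝ) ^ (L - K) / q| ≤
        ∑ q ∈ (Icc 1 D).filter (fun q => q.Coprime (2 * b)),
        (q.divisors.card : ℝ) ^ w *
          ((b : ℝ) ^ (L - K) / q * ∑ d ∈ q.divisors.filter (fun d => 1 < d), US b L K d) := by
      refine sum_le_sum fun q hq => ?_
      rw [mem_filter] at hq
      exact mul_le_mul_of_nonneg_left (cO_bound hb0 L K q (h q) hq.2) (by positivity)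
    have h2 := h1.trans (double b L K D w)
    have h3 := tau_pow_sum w D
    have hlog : 1 + Real.log D ≤ (b + 1) * L := by
      rcases Nat.eq_zero_or_pos D with h0 | h0
      · rw [h0]
        simp only [Nat.cast_zero, Real.log_zero, add_zero]
        nlinarith
      · have hDle : (D : ℝ) ≤ (b : ℝ) ^ (δ * L) := by rw [hD]; exact Nat.floor_le (by positivity)
        have hDle2 : (D : ℝ) ≤ (b : ℝ) ^ ((1 / 2 : ℝ) * L) := by
          refine hDle.trans (Real.rpow_le_rpow_of_exponent_le hb1 ?_)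
          nlinarith
        have h4 : Real.log D ≤ (1 / 2 * L) * Real.log b := by
          rw [← Real.log_rpow hbr]
          exact Real.log_le_log (by exact_mod_cast h0) hDle2
        have h5 : Real.log b ≤ b := by
          have := Real.log_le_sub_one_of_pos hbr
          linarith
        have h6 : (1 / 2 * L) * Real.log b ≤ (1 / 2 * L) * (b : ℝ) :=
          mul_le_mul_of_nonneg_left h5 (by positivity)
        nlinarith [mul_pos hbr hL0]
    have hlog0 : 0 ≤ 1 + Real.log D := by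
      have := Real.log_natCast_nonneg D
      linarith
    have h4 : ∑ e ∈ Icc 1 D, (e.divisors.card : ℝ) ^ w / e ≤ (L : ℝ) ^ (W + 1) := by
      rw [← hW] at h3
      refine h3.trans ?_
      calc (1 + Real.log D) ^ W ≤ (((b : ℝ) + 1) * (L : ℝ)) ^ W := by gcongr
        _ = ((b : ℝ) + 1) ^ W * (L : ℝ) ^ W := mul_pow _ _ _
        _ ≤ L * (L : ℝ) ^ W := mul_le_mul_of_nonneg_right hLb' (by positivity)
        _ = _ := by rw [pow_succ]; ring
    refine h2.trans ?_
    have hS0 : 0 ≤ ∑ e ∈ Icc 1 D, (e.divisors.card : ℝ) ^ w / e :=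
      sum_nonneg fun _ _ => by positivity
    calc (b : ℝ) ^ (L - K) * ((∑ d ∈ (Icc 2 D).filter (fun q => q.Coprime (2 * b)),
        (d.divisors.card : ℝ) ^ w * US b L K d / d) *
          ∑ e ∈ Icc 1 D, (e.divisors.card : ℝ) ^ w / e)
        ≤ (b : ℝ) ^ (L - K) * ((1 / (L : ℝ) ^ (A + W + 1)) * (L : ℝ) ^ (W + 1)) :=
          mul_le_mul_of_nonneg_left (mul_le_mul hL' h4 hS0 (by positivity)) (by positivity)
      _ = (b : ℝ) ^ (L - K) / (L : ℝ) ^ A := by
          have e : (L : ℝ) ^ (A + W + 1) = (L : ℝ) ^ A * (L : ℝ) ^ (W + 1) := by rw [← pow_add]; congr 1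
          rw [e]
          field_simp
  exact eventually_atTop.1 hev

end Pool.Agent.Q117.PL
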