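import Pool.Agent.H512R3.PB_T6

/-!
Project PL (helper117), job OD, part 1: a short product over a block of positions is small at almost all fractions.
-/

set_option autoImplicit false

namespace Pool.Agent.Q117.PL.ODa

open Finset Pool.Agent.Helper112 Pool.Agent.H39R3.PB Pool.Agent.H512R3.PBT6

/-- the nearest integer at the position `c` -/
noncomputable def nn (b L c : ℕ) (α : ℝ) : ℤ := round ((fr b L c : ℝ) * α)

/-- the signed distance at the position `c` -/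
noncomputable def vv (b L c : ℕ) (α : ℝ) : ℝ := (fr b L c : ℝ) * α - nn b L c α

/-- the defect of the recurrence -/
noncomputable def kk (b L c : ℕ) (α : ℝ) : ℤ := -((b : ℤ) * nn b L (c + 2) α - ((b : ℤ) ^ 2 + 1) * nn b L (c + 1) α + b * nn b L c α)

lemma vv_abs (b L c : ℕ) (α : ℝ) : |vv b L c α| ≤ 1 / 2 := abs_sub_round _

lemma fr_rec {b L c : ℕ} (hc : 1 ≤ c) (hL : c + 2 ≤ L) :
    (b : ℤ) * fr b L (c + 2) - ((b : ℤ) ^ 2 + 1) * fr b L (c + 1) + b * fr b L c = 0 := by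
  unfold fr
  rw [if_neg (by omega), if_neg (by omega), if_neg (by omega)]
  obtain ⟨M, hM⟩ : ∃ M, L = M + (c + 2) := ⟨L - (c + 2), by omega⟩
  have e1 : L - (c + 2) = M := by omega
  have e2 : L - (c + 1) = M + 1 := by omega
  have e3 : L - c = M + 2 := by omega
  rw [e1, e2, e3, show L + (c + 2) = (L + c) + 2 by ring, show L + (c + 1) = (L + c) + 1 by ring]
  push_cast
  ring

lemma kk_eq {b L c : ℕ} (hc : 1 ≤ c) (hL : c + 2 ≤ L) (α : ℝ) :
    ((kk b L c α : ℤ) : ℝ) = b * vv b L (c + 2) α - ((b : ℝ) ^ 2 + 1) * vv b L (c + 1) α + b * vv b L c α := by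
  have h := fr_rec (b := b) hc hL
  have h' : (b : ℝ) * fr b L (c + 2) - ((b : ℝ) ^ 2 + 1) * fr b L (c + 1) + b * fr b L c = 0 := by exact_mod_cast h
  unfold kk vv
  push_cast
  have e : (b : ℝ) * ((fr b L (c + 2) : ℝ) * α - nn b L (c + 2) α) - ((b : ℝ) ^ 2 + 1) * ((fr b L (c + 1) : ℝ) * α - nn b L (c + 1) α) +
      b * ((fr b L c : ℝ) * α - nn b L c α) = ((b : ℝ) * fr b L (c + 2) - ((b : ℝ) ^ 2 + 1) * fr b L (c + 1) + b * fr b L c) * α -
      ((b : ℝ) * nn b L (c + 2) α - ((b : ℝ) ^ 2 + 1) * nn b L (c + 1) α + b * nn b L c α) := by ring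
  rw [e, h']
  ring

lemma kk_tri {b : ℕ} (x y z : ℝ) :
    |(b : ℝ) * x - ((b : ℝ) ^ 2 + 1) * y + b * z| ≤ b * |x| + ((b : ℝ) ^ 2 + 1) * |y| + b * |z| := by
  calc |(b : ℝ) * x - ((b : ℝ) ^ 2 + 1) * y + b * z| ≤ |(b : ℝ) * x - ((b : ℝ) ^ 2 + 1) * y| + |(b : ℝ) * z| := abs_add_le _ _
    _ ≤ |(b : ℝ) * x| + |((b : ℝ) ^ 2 + 1) * y| + |(b : ℝ) * z| := by
        gcongr
        exact abs_sub _ _
    _ = _ := by
        rw [abs_mul, abs_mul, abs_mul, Nat.abs_cast, abs_of_nonneg (by positivity : (0 : ℝ) ≤ (b : ℝ) ^ 2 + 1)]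

lemma kk_abs {b L c : ℕ} (hc : 1 ≤ c) (hL : c + 2 ≤ L) (α : ℝ) : |kk b L c α| ≤ ((b : ℤ) + 1) ^ 2 := by
  have h1 := kk_eq (b := b) hc hL α
  have h2 : |((kk b L c α : ℤ) : ℝ)| ≤ ((b : ℝ) + 1) ^ 2 := by
    rw [h1]
    refine (kk_tri _ _ _).trans ?_
    have a1 := vv_abs b L (c + 2) α
    have a2 := vv_abs b L (c + 1) α
    have a3 := vv_abs b L c α
    have hb : (0 : ℝ) ≤ b := Nat.cast_nonneg b
    have hb2 : (0 : ℝ) ≤ (b : ℝ) ^ 2 + 1 := by positivity
    nlinarith [mul_le_mul_of_nonneg_left a1 hb, mul_le_mul_of_nonneg_left a3 hb, mul_le_mul_of_nonneg_left a2 hb2]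
  exact_mod_cast h2

lemma kk_zero {b L c : ℕ} (hb : 2 ≤ b) (hc : 1 ≤ c) (hL : c + 2 ≤ L) (α : ℝ) (h0 : |vv b L c α| < 1 / KK b) (h1 : |vv b L (c + 1) α| < 1 / KK b)
    (h2 : |vv b L (c + 2) α| < 1 / KK b) : kk b L c α = 0 := by
  have h3 := kk_eq (b := b) hc hL α
  have hK : 0 < KK b := by
    have := KK_ge hb
    linarith
  have hb0 : (0 : ℝ) < b := by exact_mod_cast (by omega : 0 < b)
  have h4 : |((kk b L c α : ℤ) : ℝ)| < 1 := by
    rw [h3]
    refine (kk_tri _ _ _).trans_lt ?_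
    have e : (b : ℝ) * (1 / KK b) + ((b : ℝ) ^ 2 + 1) * (1 / KK b) + b * (1 / KK b) = 1 := by
      have : KK b = ((b : ℝ) + 1) ^ 2 := rfl
      field_simp
      rw [this]
      ring
    have hb2 : (0 : ℝ) < (b : ℝ) ^ 2 + 1 := by positivity
    have a1 := mul_lt_mul_of_pos_left h0 hb0
    have a2 := mul_lt_mul_of_pos_left h1 hb2
    have a3 := mul_lt_mul_of_pos_left h2 hb0
    linarith
  have h5 : |kk b L c α| < 1 := by exact_mod_cast h4
  exact Int.abs_lt_one_iff.1 h5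

open Classical in
/-- the positions of a block with a large distance -/
noncomputable def Bd (b L A J : ℕ) (α : ℝ) : Finset ℕ := (range J).filter (fun j => 1 / KK b ≤ |vv b L (A + j) α|)

lemma Ps_le_Bd {b : ℕ} (hb : 2 ≤ b) (L A J : ℕ) (α : ℝ) : Ps b L A J α ≤ (1 - kap b) ^ (Bd b L A J α).card := by
  classical
  unfold Ps
  rw [← prod_filter_mul_prod_filter_not (range J) (fun j => 1 / KK b ≤ |vv b L (A + j) α|)]
  have h1 : ∏ j ∈ (range J).filter (fun j => 1 / KK b ≤ |vv b L (A + j) α|), ph b ((fr b L (A + j) : ℝ) * α) ≤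
      (1 - kap b) ^ (Bd b L A J α).card := by
    unfold Bd
    rw [← prod_const]
    refine prod_le_prod (fun _ _ => ph_nonneg _ _) fun j hj => ?_
    rw [mem_filter] at hj
    exact ph_le hb _ hj.2
  have h2 : ∏ j ∈ (range J).filter (fun j => ¬ 1 / KK b ≤ |vv b L (A + j) α|), ph b ((fr b L (A + j) : ℝ) * α) ≤ 1 :=
    prod_le_one (fun _ _ => ph_nonneg _ _) fun _ _ => ph_le_one _ _
  have h3 : 0 ≤ ∏ j ∈ (range J).filter (fun j => 1 / KK b ≤ |vv b L (A + j) α|), ph b ((fr b L (A + j) : ℝ) * α) :=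
    prod_nonneg fun _ _ => ph_nonneg _ _
  calc _ ≤ (∏ j ∈ (range J).filter (fun j => 1 / KK b ≤ |vv b L (A + j) α|), ph b ((fr b L (A + j) : ℝ) * α)) * 1 :=
        mul_le_mul_of_nonneg_left h2 h3
    _ ≤ _ := by rw [mul_one]; exact h1

/-- the support of the defects -/
lemma supp_le {b L A J : ℕ} (hb : 2 ≤ b) (hA : 1 ≤ A) (hJ : A + J ≤ L) (α : ℝ) :
    ((range (J - 2)).filter (fun j => kk b L (A + j) α ≠ 0)).card ≤ 3 * (Bd b L A J α).card := by
  classical
  have hsub : (range (J - 2)).filter (fun j => kk b L (A + j) α ≠ 0) ⊆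
      Bd b L A J α ∪ ((Bd b L A J α).image (fun j => j - 1) ∪ (Bd b L A J α).image (fun j => j - 2)) := by
    intro j hj
    rw [mem_filter, mem_range] at hj
    obtain ⟨hj1, hj2⟩ := hj
    have h : 1 / KK b ≤ |vv b L (A + j) α| ∨ 1 / KK b ≤ |vv b L (A + (j + 1)) α| ∨ 1 / KK b ≤ |vv b L (A + (j + 2)) α| := by
      by_contra hcon
      push Not at hcon
      exact hj2 (kk_zero hb (by omega) (by omega) α hcon.1 hcon.2.1 hcon.2.2)
    rw [mem_union, mem_union, mem_image, mem_image]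
    rcases h with h | h | h
    · left
      exact mem_filter.2 ⟨mem_range.2 (by omega), h⟩
    · right; left
      exact ⟨j + 1, mem_filter.2 ⟨mem_range.2 (by omega), h⟩, by omega⟩
    · right; right
      exact ⟨j + 2, mem_filter.2 ⟨mem_range.2 (by omega), h⟩, by omega⟩
  refine (card_le_card hsub).trans ((card_union_le _ _).trans ?_)
  have h1 := card_union_le ((Bd b L A J α).image (fun j => j - 1)) ((Bd b L A J α).image (fun j => j - 2))
  have h2 : ((Bd b L A J α).image (fun j => j - 1)).card ≤ (Bd b L A J α).card := card_image_le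
  have h3 : ((Bd b L A J α).image (fun j => j - 2)).card ≤ (Bd b L A J α).card := card_image_le
  omega

/-- a bounded solution of the homogeneous recurrence is small in the middle -/
lemma middle {b : ℕ} (hb : 2 ≤ b) (h : ℕ) (hh : 1 ≤ h) (d : ℕ → ℝ) (hd : ∀ j < 2 * h, |d j| ≤ 1)
    (hr : ∀ j, j + 2 < 2 * h → (b : ℝ) * d (j + 2) - ((b : ℝ) ^ 2 + 1) * d (j + 1) + b * d j = 0) :
    |d (h - 1)| * (b : ℝ) ^ (h - 1) ≤ 3 ∧ |d h| * (b : ℝ) ^ (h - 1) ≤ 3 := by
  have hb2 : (2 : ℝ) ≤ b := by exact_mod_cast hb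
  have hb0 : (0 : ℝ) < b := by linarith
  -- the two first order recurrences
  have he : ∀ j, j + 1 < 2 * h → d (j + 1) - b * d j = (d 1 - b * d 0) / (b : ℝ) ^ j := by
    intro j
    induction j with
    | zero => intro _; simp
    | succ j ih =>
      intro hj
      have h1 := ih (by omega)
      have h2 := hr j (by omega)
      rw [pow_succ, ← div_div, ← h1]
      field_simp
      linarith
  have hg : ∀ i, ∀ j, j + i + 1 < 2 * h → d (j + i) - b * d (j + i + 1) = (b : ℝ) ^ i * (d j - b * d (j + 1)) := by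
    intro i
    induction i with
    | zero => intro j _; simp
    | succ i ih =>
      intro j hj
      have h1 := ih j (by omega)
      have h2 := hr (j + i) (by omega)
      have e1 : j + (i + 1) = j + i + 1 := by ring
      rw [e1, pow_succ]
      have e3 : (b : ℝ) ^ i * b * (d j - b * d (j + 1)) = b * ((b : ℝ) ^ i * (d j - b * d (j + 1))) := by ring
      rw [e3, ← h1]
      linarith
  obtain ⟨m, rfl⟩ : ∃ m, h = m + 1 := ⟨h - 1, by omega⟩
  rw [Nat.add_sub_cancel]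
  have h1 := he m (by omega)
  have h2 := hg m m (by omega)
  have hp : 0 < (b : ℝ) ^ m := by positivity
  -- the bounds of the two quantities
  have e0 : |d 1 - b * d 0| ≤ 1 + b := by
    have a1 := abs_sub (d 1) (b * d 0)
    rw [abs_mul, abs_of_pos hb0] at a1
    have a2 := hd 1 (by omega)
    have a3 := mul_le_mul_of_nonneg_left (hd 0 (by omega)) hb0.le
    linarith
  have g0 : |d (m + m) - b * d (m + m + 1)| ≤ 1 + b := by
    have a1 := abs_sub (d (m + m)) (b * d (m + m + 1))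
    rw [abs_mul, abs_of_pos hb0] at a1
    have a2 := hd (m + m) (by omega)
    have a3 := mul_le_mul_of_nonneg_left (hd (m + m + 1) (by omega)) hb0.le
    linarith
  obtain ⟨e, hee⟩ : ∃ e, e = d (m + 1) - b * d m := ⟨_, rfl⟩
  obtain ⟨g, hgg⟩ : ∃ g, g = d m - b * d (m + 1) := ⟨_, rfl⟩
  have e1 : |e| * (b : ℝ) ^ m ≤ 1 + b := by
    rw [hee, h1, abs_div, abs_of_pos hp, div_mul_cancel₀ _ hp.ne']
    exact e0
  have g1 : |g| * (b : ℝ) ^ m ≤ 1 + b := by
    rw [h2, abs_mul, abs_of_pos hp] at g0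
    rw [hgg]
    linarith
  have k1 : ((b : ℝ) ^ 2 - 1) * d m = -(b * e + g) := by rw [hee, hgg]; ring
  have k2 : ((b : ℝ) ^ 2 - 1) * d (m + 1) = -(b * g + e) := by rw [hee, hgg]; ring
  have hb3 : 0 < (b : ℝ) ^ 2 - 1 := by nlinarith
  have key : ∀ x y z : ℝ, ((b : ℝ) ^ 2 - 1) * x = -(b * y + z) → |y| * (b : ℝ) ^ m ≤ 1 + b → |z| * (b : ℝ) ^ m ≤ 1 + b →
      |x| * (b : ℝ) ^ m ≤ 3 := by
    intro x y z hx hy hz
    have a1 : ((b : ℝ) ^ 2 - 1) * |x| ≤ b * |y| + |z| := by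
      have : |((b : ℝ) ^ 2 - 1) * x| = |b * y + z| := by rw [hx, abs_neg]
      rw [abs_mul, abs_of_pos hb3] at this
      rw [this]
      refine (abs_add_le _ _).trans (le_of_eq ?_)
      rw [abs_mul, abs_of_pos hb0]
    have a2 : ((b : ℝ) ^ 2 - 1) * (|x| * (b : ℝ) ^ m) ≤ (b + 1) * (1 + b) := by
      calc ((b : ℝ) ^ 2 - 1) * (|x| * (b : ℝ) ^ m) = (((b : ℝ) ^ 2 - 1) * |x|) * (b : ℝ) ^ m := by ring
        _ ≤ (b * |y| + |z|) * (b : ℝ) ^ m := mul_le_mul_of_nonneg_right a1 hp.le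
        _ = b * (|y| * (b : ℝ) ^ m) + |z| * (b : ℝ) ^ m := by ring
        _ ≤ b * (1 + b) + (1 + b) := add_le_add (mul_le_mul_of_nonneg_left hy hb0.le) hz
        _ = _ := by ring
    have a3 : ((b : ℝ) + 1) * (1 + b) ≤ ((b : ℝ) ^ 2 - 1) * 3 := by nlinarith
    exact le_of_mul_le_mul_left (a2.trans a3) hb3
  exact ⟨key _ _ _ k1 e1 g1, key _ _ _ k2 g1 e1⟩

/-- an integer multiple of `q q'` which is small is zero -/
lemma frac_int {q q' : ℕ} (hq : 0 < q) (hq' : 0 < q') (f n n' : ℤ) (a a' : ℕ) {T : ℝ} (hT : 0 < T)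
    (hd : |((f : ℝ) * ((a : ℝ) / q) - n) - ((f : ℝ) * ((a' : ℝ) / q') - n')| * T ≤ 3) (hqq : 3 * ((q : ℝ) * q') < T) :
    ((q : ℤ) * q') ∣ f * ((a : ℤ) * q' - a' * q) := by
  have hq0 : (0 : ℝ) < q := by exact_mod_cast hq
  have hq0' : (0 : ℝ) < q' := by exact_mod_cast hq'
  refine ⟨n - n', ?_⟩
  have h1 : (((f * ((a : ℤ) * q' - a' * q) - (q : ℤ) * q' * (n - n') : ℤ)) : ℝ) =
      ((q : ℝ) * q') * (((f : ℝ) * ((a : ℝ) / q) - n) - ((f : ℝ) * ((a' : ℝ) / q') - n')) := by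
    push_cast
    field_simp
    ring
  have h2 : |(((f * ((a : ℤ) * q' - a' * q) - (q : ℤ) * q' * (n - n') : ℤ)) : ℝ)| < 1 := by
    rw [h1, abs_mul, abs_of_pos (by positivity : (0 : ℝ) < (q : ℝ) * q')]
    generalize |((f : ℝ) * ((a : ℝ) / q) - n) - ((f : ℝ) * ((a' : ℝ) / q') - n')| = x at hd
    by_contra hcon
    push Not at hcon
    have hx : 0 ≤ x := by
      by_contra hx
      push Not at hx
      have : (q : ℝ) * q' * x < 0 := mul_neg_of_pos_of_neg (by positivity) hx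
      linarith
    have h3 : T ≤ ((q : ℝ) * q' * x) * T := by
      calc T = 1 * T := (one_mul T).symm
        _ ≤ _ := mul_le_mul_of_nonneg_right hcon hT.le
    have h4 : ((q : ℝ) * q' * x) * T ≤ (q : ℝ) * q' * 3 := by
      calc ((q : ℝ) * q' * x) * T = (q : ℝ) * q' * (x * T) := by ring
        _ ≤ _ := mul_le_mul_of_nonneg_left hd (by positivity)
    linarith
  have h3 : |f * ((a : ℤ) * q' - a' * q) - (q : ℤ) * q' * (n - n')| < 1 := by exact_mod_cast h2
  have h4 := Int.abs_lt_one_iff.1 h3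
  linarith

/-- equal fractions -/
lemma eq_of_dvd {b L c q q' a a' : ℕ} (hc : c + 1 ≤ L) (hc1 : 1 ≤ c) (hq : q.Coprime (2 * b)) (hq' : q'.Coprime (2 * b))
    (haq : a < q) (haq' : a' < q') (ha : a.Coprime q) (ha' : a'.Coprime q')
    (h1 : ((q : ℤ) * q') ∣ (fr b L c : ℤ) * ((a : ℤ) * q' - a' * q))
    (h2 : ((q : ℤ) * q') ∣ (fr b L (c + 1) : ℤ) * ((a : ℤ) * q' - a' * q)) : q = q' ∧ a = a' := by
  have hco : IsCoprime ((q : ℤ) * q') (b : ℤ) :=
    IsCoprime.mul_left (Nat.isCoprime_iff_coprime.2 (coprime_b hq)) (Nat.isCoprime_iff_coprime.2 (coprime_b hq'))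
  have h2q : ∀ x : ℕ, x.Coprime (2 * b) → x.Coprime 2 := fun x hx => Nat.Coprime.coprime_dvd_right (Dvd.intro b rfl) hx
  have hco2 : IsCoprime ((q : ℤ) * q') (2 : ℤ) :=
    IsCoprime.mul_left (Nat.isCoprime_iff_coprime.2 (h2q q hq)) (Nat.isCoprime_iff_coprime.2 (h2q q' hq'))
  obtain ⟨P, hP⟩ : ∃ P : ℤ, P = (a : ℤ) * q' - a' * q := ⟨_, rfl⟩
  rw [← hP] at h1 h2
  have hf : ∀ c : ℕ, 1 ≤ c → c ≤ L → (fr b L c : ℤ) = (b : ℤ) ^ (L - c) * ((b : ℤ) ^ (2 * c) + 1) := by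
    intro c hc0 hcL
    unfold fr
    rw [if_neg (by omega), mul_add, ← pow_add, mul_one]
    push_cast
    congr 2
    omega
  rw [hf c hc1 (by omega), mul_assoc] at h1
  rw [hf (c + 1) (by omega) hc, mul_assoc] at h2
  have h3 := (hco.pow_right (n := L - c)).dvd_of_dvd_mul_left h1
  have h4 := (hco.pow_right (n := L - (c + 1))).dvd_of_dvd_mul_left h2
  have h5 : ((q : ℤ) * q') ∣ ((b : ℤ) ^ 2 - 1) * P := by
    have := (h3.mul_left ((b : ℤ) ^ 2)).sub h4
    have e : (b : ℤ) ^ 2 * (((b : ℤ) ^ (2 * c) + 1) * P) - ((b : ℤ) ^ (2 * (c + 1)) + 1) * P = ((b : ℤ) ^ 2 - 1) * P := by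
      rw [show 2 * (c + 1) = 2 * c + 2 by ring, pow_add]
      ring
    rwa [e] at this
  have h6 : ((q : ℤ) * q') ∣ ((b : ℤ) ^ (2 * c) - 1) * P := by
    have e : (b : ℤ) ^ 2 - 1 ∣ (b : ℤ) ^ (2 * c) - 1 := by
      rw [pow_mul]
      have := sub_dvd_pow_sub_pow ((b : ℤ) ^ 2) 1 c
      simpa using this
    exact h5.trans (mul_dvd_mul_right e P)
  have h7 : ((q : ℤ) * q') ∣ 2 * P := by
    have := h3.sub h6
    have e : ((b : ℤ) ^ (2 * c) + 1) * P - ((b : ℤ) ^ (2 * c) - 1) * P = 2 * P := by ring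
    rwa [e] at this
  have h8 : ((q : ℤ) * q') ∣ P := hco2.dvd_of_dvd_mul_left h7
  have hq0 : (0 : ℤ) < q := by exact_mod_cast (by omega : 0 < q)
  have hq0' : (0 : ℤ) < q' := by exact_mod_cast (by omega : 0 < q')
  have h9 : P = 0 := by
    apply Int.eq_zero_of_abs_lt_dvd h8
    rw [abs_lt, hP]
    have a1 : (a : ℤ) * q' < q * q' := mul_lt_mul_of_pos_right (by exact_mod_cast haq) hq0'
    have a2 : (a' : ℤ) * q < q' * q := mul_lt_mul_of_pos_right (by exact_mod_cast haq') hq0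
    have a3 : (0 : ℤ) ≤ (a : ℤ) * q' := by positivity
    have a4 : (0 : ℤ) ≤ (a' : ℤ) * q := by positivity
    constructor <;> linarith
  have h10 : a * q' = a' * q := by
    have : (a : ℤ) * q' = a' * q := by linarith
    exact_mod_cast this
  have h11 : q ∣ q' := by
    have : q ∣ a * q' := by rw [h10]; exact Dvd.intro_left _ rfl
    exact ha.symm.dvd_of_dvd_mul_left this
  have h12 : q' ∣ q := by
    have : q' ∣ a' * q := by rw [← h10]; exact Dvd.intro_left _ rfl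
    exact ha'.symm.dvd_of_dvd_mul_left this
  have h13 := Nat.dvd_antisymm h11 h12
  refine ⟨h13, ?_⟩
  rw [← h13] at h10
  exact Nat.eq_of_mul_eq_mul_right (by omega) h10

/-- the defects determine the fraction -/
lemma inj {b L A h q q' a a' : ℕ} (hb : 2 ≤ b) (hA : 1 ≤ A) (hh : 1 ≤ h) (hL : A + 2 * h ≤ L) (hq : q.Coprime (2 * b)) (hq' : q'.Coprime (2 * b))
    (haq : a < q) (haq' : a' < q') (ha : a.Coprime q) (ha' : a'.Coprime q')
    (hs : 3 * ((q : ℝ) * q') < (b : ℝ) ^ (h - 1))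
    (hk : ∀ j, j + 2 < 2 * h → kk b L (A + j) ((a : ℝ) / q) = kk b L (A + j) ((a' : ℝ) / q')) : q = q' ∧ a = a' := by
  have hb0 : (0 : ℝ) < b := by exact_mod_cast (by omega : 0 < b)
  obtain ⟨d, hd⟩ : ∃ d : ℕ → ℝ, d = fun j => vv b L (A + j) ((a : ℝ) / q) - vv b L (A + j) ((a' : ℝ) / q') := ⟨_, rfl⟩
  have hm := middle hb h hh d (by
    intro j _
    rw [hd]
    have h1 := vv_abs b L (A + j) ((a : ℝ) / q)
    have h2 := vv_abs b L (A + j) ((a' : ℝ) / q')
    have h3 := abs_sub (vv b L (A + j) ((a : ℝ) / q)) (vv b L (A + j) ((a' : ℝ) / q'))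
    show |vv b L (A + j) ((a : ℝ) / q) - vv b L (A + j) ((a' : ℝ) / q')| ≤ 1
    linarith) (by
    intro j hj
    have h1 := kk_eq (b := b) (L := L) (c := A + j) (by omega) (by omega) ((a : ℝ) / q)
    have h2 := kk_eq (b := b) (L := L) (c := A + j) (by omega) (by omega) ((a' : ℝ) / q')
    rw [hk j hj] at h1
    rw [hd]
    show (b : ℝ) * (vv b L (A + (j + 2)) ((a : ℝ) / q) - vv b L (A + (j + 2)) ((a' : ℝ) / q')) -
      ((b : ℝ) ^ 2 + 1) * (vv b L (A + (j + 1)) ((a : ℝ) / q) - vv b L (A + (j + 1)) ((a' : ℝ) / q')) +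
      b * (vv b L (A + j) ((a : ℝ) / q) - vv b L (A + j) ((a' : ℝ) / q')) = 0
    have e1 : A + (j + 2) = A + j + 2 := by ring
    have e2 : A + (j + 1) = A + j + 1 := by ring
    rw [e1, e2]
    linarith)
  have hp : (0 : ℝ) < (b : ℝ) ^ (h - 1) := by positivity
  have e : A + h = A + (h - 1) + 1 := by omega
  have k1 := frac_int (q := q) (q' := q') (by omega) (by omega) (fr b L (A + (h - 1)) : ℤ) (nn b L (A + (h - 1)) ((a : ℝ) / q))
    (nn b L (A + (h - 1)) ((a' : ℝ) / q')) a a' hp (by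
      have := hm.1
      rw [hd] at this
      unfold vv at this
      exact_mod_cast this) hs
  have k2 := frac_int (q := q) (q' := q') (by omega) (by omega) (fr b L (A + h) : ℤ) (nn b L (A + h) ((a : ℝ) / q))
    (nn b L (A + h) ((a' : ℝ) / q')) a a' hp (by
      have := hm.2
      rw [hd] at this
      unfold vv at this
      exact_mod_cast this) hs
  rw [e] at k2
  exact eq_of_dvd (by omega) (by omega) hq hq' haq haq' ha ha' k1 k2

/-- weighted count of sparse integer vectors -/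
lemma count_sparse (n B M s : ℕ) (hM : 1 ≤ M) (S : Finset (Fin n → ℤ)) (hS : ∀ k ∈ S, (∀ i, |k i| ≤ B) ∧ (univ.filter (fun i => k i ≠ 0)).card ≤ s) :
    (S.card : ℝ) ≤ (M : ℝ) ^ s * (1 + 2 * B / M) ^ n := by
  classical
  have hM0 : (0 : ℝ) < M := by exact_mod_cast hM
  have hM1 : (1 : ℝ) ≤ M := by exact_mod_cast hM
  obtain ⟨I, hI⟩ : ∃ I : Finset ℤ, I = Icc (-(B : ℤ)) B := ⟨_, rfl⟩
  obtain ⟨f, hf⟩ : ∃ f : ℤ → ℝ, f = fun v => if v = 0 then 1 else 1 / (M : ℝ) := ⟨_, rfl⟩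
  have hf0 : ∀ v, 0 ≤ f v := fun v => by
    rw [hf]
    dsimp only
    split_ifs <;> positivity
  have h1 : ∑ v ∈ I, f v = 1 + 2 * B / M := by
    have h0 : (0 : ℤ) ∈ I := by rw [hI, mem_Icc]; constructor <;> omega
    rw [← add_sum_erase I f h0]
    have h2 : ∑ v ∈ I.erase 0, f v = ∑ _v ∈ I.erase 0, 1 / (M : ℝ) := by
      refine sum_congr rfl fun v hv => ?_
      rw [hf]
      dsimp only
      rw [if_neg (ne_of_mem_erase hv)]
    rw [h2, sum_const, card_erase_of_mem h0, hI, Int.card_Icc, nsmul_eq_mul]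
    have h3 : ((B : ℤ) + 1 - -(B : ℤ)).toNat - 1 = 2 * B := by omega
    rw [h3, hf]
    dsimp only
    rw [if_pos rfl]
    push_cast
    ring
  have h2 : ∑ k ∈ Fintype.piFinset (fun _ : Fin n => I), ∏ i, f (k i) = (1 + 2 * (B : ℝ) / M) ^ n := by
    rw [← prod_univ_sum (fun _ : Fin n => I) (fun _ v => f v), h1, prod_const, card_univ, Fintype.card_fin]
  have h3 : ∀ k ∈ S, 1 ≤ (M : ℝ) ^ s * ∏ i, f (k i) := by
    intro k hk
    have h4 : ∏ i, f (k i) = (1 / (M : ℝ)) ^ (univ.filter (fun i => k i ≠ 0)).card := by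
      rw [← prod_filter_mul_prod_filter_not univ (fun i => k i ≠ 0), ← prod_const]
      have h5 : ∏ i ∈ univ.filter (fun i => ¬ k i ≠ 0), f (k i) = 1 := by
        refine prod_eq_one fun i hi => ?_
        rw [mem_filter] at hi
        rw [hf]
        dsimp only
        rw [if_pos (not_not.1 hi.2)]
      rw [h5, mul_one]
      refine prod_congr rfl fun i hi => ?_
      rw [mem_filter] at hi
      rw [hf]
      dsimp only
      rw [if_neg hi.2]
    rw [h4, one_div, inv_pow, ← div_eq_mul_inv, one_le_div (by positivity)]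
    exact pow_le_pow_right₀ hM1 (hS k hk).2
  have h4 : S ⊆ Fintype.piFinset (fun _ : Fin n => I) := by
    intro k hk
    rw [Fintype.mem_piFinset]
    intro i
    have := (hS k hk).1 i
    rw [abs_le] at this
    rw [hI, mem_Icc]
    exact this
  calc (S.card : ℝ) = ∑ _k ∈ S, (1 : ℝ) := by rw [sum_const, nsmul_eq_mul, mul_one]
    _ ≤ ∑ k ∈ S, (M : ℝ) ^ s * ∏ i, f (k i) := sum_le_sum h3
    _ = (M : ℝ) ^ s * ∑ k ∈ S, ∏ i, f (k i) := by rw [mul_sum]
    _ ≤ (M : ℝ) ^ s * ∑ k ∈ Fintype.piFinset (fun _ : Fin n => I), ∏ i, f (k i) := by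
        apply mul_le_mul_of_nonneg_left _ (by positivity)
        exact sum_le_sum_of_subset_of_nonneg h4 fun k _ _ => prod_nonneg fun i _ => hf0 _
    _ = _ := by rw [h2]

end Pool.Agent.Q117.PL.ODa
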