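import Pool.Agent.Q117.PL.Od1

/-!
Project PL (helper117), job OD, part 2: the sum over the fractions of a dyadic block.
-/

set_option autoImplicit false

namespace Pool.Agent.Q117.PL.ODa

open Finset Pool.Agent.Helper112 Pool.Agent.H39R3.PB Pool.Agent.H512R3.PBT6

/-- the reduced fractions with denominators `Q ≤ q < 2 Q` -/
def FP (b Q : ℕ) : Finset ((_ : ℕ) × ℕ) :=
  ((Ico Q (2 * Q)).filter (fun q => q.Coprime (2 * b))).sigma (fun q => (range q).filter (fun a => a.Coprime q))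

lemma mem_FP {b Q : ℕ} {x : (_ : ℕ) × ℕ} (hx : x ∈ FP b Q) :
    Q ≤ x.1 ∧ x.1 < 2 * Q ∧ x.1.Coprime (2 * b) ∧ x.2 < x.1 ∧ x.2.Coprime x.1 := by
  unfold FP at hx
  rw [mem_sigma, mem_filter, mem_filter, mem_Ico, mem_range] at hx
  exact ⟨hx.1.1.1, hx.1.1.2, hx.1.2, hx.2.1, hx.2.2⟩

lemma pts_FP (b Q : ℕ) (f : ℝ → ℝ) : pts b Q f = ∑ x ∈ FP b Q, f ((x.2 : ℝ) / x.1) := by
  unfold pts FP
  rw [sum_sigma']

lemma card_FP (b Q : ℕ) : ((FP b Q).card : ℝ) ≤ 2 * (Q : ℝ) ^ 2 := by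
  have h1 : (FP b Q).card ≤ Q * (2 * Q) := by
    unfold FP
    rw [card_sigma]
    have h2 : ∀ q ∈ (Ico Q (2 * Q)).filter (fun q => q.Coprime (2 * b)), ((range q).filter (fun a => a.Coprime q)).card ≤ 2 * Q := by
      intro q hq
      rw [mem_filter, mem_Ico] at hq
      refine (card_filter_le _ _).trans ?_
      rw [card_range]
      exact hq.1.2.le
    refine (sum_le_card_nsmul _ _ _ h2).trans ?_
    rw [smul_eq_mul]
    refine Nat.mul_le_mul_right _ ?_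
    refine (card_filter_le _ _).trans ?_
    rw [Nat.card_Ico]
    omega
  have h3 : ((FP b Q).card : ℝ) ≤ ((Q * (2 * Q) : ℕ) : ℝ) := by exact_mod_cast h1
  refine h3.trans (le_of_eq ?_)
  push_cast
  ring

open Classical in
/-- the number of the fractions with few large distances in a block -/
theorem good_count {b : ℕ} (hb : 2 ≤ b) : ∃ E : ℕ, 1 ≤ E ∧ ∀ L A h Q : ℕ, 1 ≤ A → A + 2 * h ≤ L → 1 ≤ Q → b ^ 5 * Q ^ 2 ≤ b ^ h →
    (((FP b Q).filter (fun x => E * (Bd b L A (2 * h) ((x.2 : ℝ) / x.1)).card < 2 * h)).card : ℝ) ^ 4 ≤ (b : ℝ) ^ h := by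
  have hb2 : (2 : ℝ) ≤ b := by exact_mod_cast hb
  have hb0 : (0 : ℝ) < b := by linarith
  obtain ⟨β, hβ⟩ : ∃ β : ℝ, β = (b : ℝ) ^ (1 / 16 : ℝ) := ⟨_, rfl⟩
  have hβ16 : β ^ 16 = b := by
    rw [hβ, ← Real.rpow_natCast, ← Real.rpow_mul hb0.le]
    norm_num
  have hβ1 : 1 < β := by
    rw [hβ]
    exact Real.one_lt_rpow (by linarith) (by norm_num)
  have hβ0 : 0 < β := by linarith
  obtain ⟨B, hB⟩ : ∃ B : ℕ, B = (b + 1) ^ 2 := ⟨_, rfl⟩
  have hβ1' : 0 < β - 1 := by linarith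
  obtain ⟨M, hM⟩ : ∃ M : ℕ, 2 * (B : ℝ) / (β - 1) + 1 ≤ M := exists_nat_ge _
  have hM1 : (1 : ℝ) ≤ M := by
    have : 0 ≤ 2 * (B : ℝ) / (β - 1) := by positivity
    linarith
  have hM0 : (0 : ℝ) < M := by linarith
  have hMn : 1 ≤ M := by exact_mod_cast hM1
  have hMβ : 1 + 2 * (B : ℝ) / M ≤ β := by
    have h1 : 2 * (B : ℝ) / (β - 1) ≤ M := by linarith
    rw [div_le_iff₀ hβ1'] at h1
    have h2 : 2 * (B : ℝ) / M ≤ β - 1 := by
      rw [div_le_iff₀ hM0]
      linarith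
    linarith
  obtain ⟨E, hE⟩ := pow_unbounded_of_one_lt ((M : ℝ) ^ 3) hβ1
  have hE1 : (M : ℝ) ^ 3 ≤ β ^ (E + 1) := hE.le.trans (pow_le_pow_right₀ hβ1.le (by omega))
  refine ⟨E + 1, by omega, ?_⟩
  intro L A h Q hA hL hQ hbQ
  have hh : 5 ≤ h := by
    by_contra hcon
    push Not at hcon
    have h1 : b ^ h < b ^ 5 := Nat.pow_lt_pow_right (by omega) hcon
    have h2 : b ^ 5 * 1 ≤ b ^ 5 * Q ^ 2 := Nat.mul_le_mul_left _ (Nat.one_le_pow _ _ hQ)
    omega
  obtain ⟨G, hG⟩ : ∃ G, G = (FP b Q).filter (fun x => (E + 1) * (Bd b L A (2 * h) ((x.2 : ℝ) / x.1)).card < 2 * h) := ⟨_, rfl⟩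
  rw [← hG]
  -- the injection
  obtain ⟨φ, hφ⟩ : ∃ φ : ((_ : ℕ) × ℕ) → (Fin (2 * h - 2) → ℤ), φ =
    fun (x : (_ : ℕ) × ℕ) (i : Fin (2 * h - 2)) => kk b L (A + (i : ℕ)) ((x.2 : ℝ) / x.1) := ⟨_, rfl⟩
  have hinj : Set.InjOn φ (G : Set ((_ : ℕ) × ℕ)) := by
    intro x hx y hy hxy
    rw [mem_coe, hG, mem_filter] at hx hy
    obtain ⟨x1, x2, x3, x4, x5⟩ := mem_FP hx.1
    obtain ⟨y1, y2, y3, y4, y5⟩ := mem_FP hy.1
    have hxQ : (x.1 : ℝ) ≤ 2 * Q := by exact_mod_cast x2.le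
    have hyQ : (y.1 : ℝ) ≤ 2 * Q := by exact_mod_cast y2.le
    have hQ0 : (0 : ℝ) < Q := by exact_mod_cast hQ
    have hs : 3 * ((x.1 : ℝ) * y.1) < (b : ℝ) ^ (h - 1) := by
      have h1 : (b : ℝ) ^ 5 * (Q : ℝ) ^ 2 ≤ (b : ℝ) ^ h := by exact_mod_cast hbQ
      have h2 : (b : ℝ) ^ h = b * (b : ℝ) ^ (h - 1) := by
        rw [← pow_succ']
        congr 1
        omega
      rw [h2] at h1
      have h3 : (b : ℝ) ^ 4 * (Q : ℝ) ^ 2 ≤ (b : ℝ) ^ (h - 1) := by
        have h4 : b * ((b : ℝ) ^ 4 * (Q : ℝ) ^ 2) ≤ b * (b : ℝ) ^ (h - 1) := by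
          refine le_trans (le_of_eq ?_) h1
          ring
        exact le_of_mul_le_mul_left h4 hb0
      have h4 : (16 : ℝ) ≤ (b : ℝ) ^ 4 := by
        calc (16 : ℝ) = 2 ^ 4 := by norm_num
          _ ≤ _ := pow_le_pow_left₀ (by norm_num) hb2 4
      have h5 : (x.1 : ℝ) * y.1 ≤ (2 * Q) * (2 * Q) := mul_le_mul hxQ hyQ (by positivity) (by positivity)
      have h6 : (0 : ℝ) < (Q : ℝ) ^ 2 := by positivity
      nlinarith
    have hk : ∀ j, j + 2 < 2 * h → kk b L (A + j) ((x.2 : ℝ) / x.1) = kk b L (A + j) ((y.2 : ℝ) / y.1) := by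
      intro j hj
      have := congrFun hxy ⟨j, by omega⟩
      rw [hφ] at this
      exact this
    have := inj hb hA (by omega) hL x3 y3 x4 y4 x5 y5 hs hk
    exact Sigma.ext this.1 (heq_of_eq this.2)
  have hcard : (G.card : ℝ) ≤ (M : ℝ) ^ (3 * (2 * h / (E + 1))) * (1 + 2 * B / M) ^ (2 * h - 2) := by
    have h1 := count_sparse (2 * h - 2) B M (3 * (2 * h / (E + 1))) hMn (G.image φ) (by
      intro k hk
      rw [mem_image] at hk
      obtain ⟨x, hx, rfl⟩ := hk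
      rw [hG, mem_filter] at hx
      constructor
      · intro i
        have hi := i.isLt
        rw [hφ, hB]
        push_cast
        exact kk_abs (by omega) (by omega) _
      · have h2 := supp_le (b := b) (L := L) (A := A) (J := 2 * h) hb hA hL ((x.2 : ℝ) / x.1)
        have h3 : (univ.filter (fun i : Fin (2 * h - 2) => φ x i ≠ 0)).card =
            ((range (2 * h - 2)).filter (fun j => kk b L (A + j) ((x.2 : ℝ) / x.1) ≠ 0)).card := by
          refine card_bij (fun i _ => (i : ℕ)) ?_ ?_ ?_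
          · intro i hi
            rw [mem_filter] at hi ⊢
            refine ⟨mem_range.2 i.isLt, ?_⟩
            have := hi.2
            rw [hφ] at this
            exact this
          · intro i _ j _ hij
            exact Fin.ext hij
          · intro j hj
            rw [mem_filter, mem_range] at hj
            refine ⟨⟨j, hj.1⟩, ?_, rfl⟩
            rw [mem_filter]
            refine ⟨mem_univ _, ?_⟩
            rw [hφ]
            exact hj.2
        have h4 : (Bd b L A (2 * h) ((x.2 : ℝ) / x.1)).card ≤ 2 * h / (E + 1) := by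
          rw [Nat.le_div_iff_mul_le (by omega)]
          have := hx.2
          rw [Nat.mul_comm] at this
          omega
        omega)
    rw [card_image_of_injOn hinj] at h1
    exact h1
  have h2 : (M : ℝ) ^ (3 * (2 * h / (E + 1))) ≤ β ^ (2 * h) := by
    rw [pow_mul]
    calc ((M : ℝ) ^ 3) ^ (2 * h / (E + 1)) ≤ (β ^ (E + 1)) ^ (2 * h / (E + 1)) := pow_le_pow_left₀ (by positivity) hE1 _
      _ = β ^ ((E + 1) * (2 * h / (E + 1))) := by rw [pow_mul]
      _ ≤ β ^ (2 * h) := pow_le_pow_right₀ hβ1.le (Nat.mul_div_le _ _)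
  have h3 : (1 + 2 * (B : ℝ) / M) ^ (2 * h - 2) ≤ β ^ (2 * h) := by
    calc (1 + 2 * (B : ℝ) / M) ^ (2 * h - 2) ≤ β ^ (2 * h - 2) := pow_le_pow_left₀ (by positivity) hMβ _
      _ ≤ β ^ (2 * h) := pow_le_pow_right₀ hβ1.le (by omega)
  have h4 : (G.card : ℝ) ≤ β ^ (4 * h) := by
    refine hcard.trans ?_
    calc _ ≤ β ^ (2 * h) * β ^ (2 * h) := mul_le_mul h2 h3 (by positivity) (by positivity)
      _ = _ := by rw [← pow_add]; congr 1; ring
  calc (G.card : ℝ) ^ 4 ≤ (β ^ (4 * h)) ^ 4 := pow_le_pow_left₀ (by positivity) h4 4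
    _ = (β ^ 16) ^ h := by rw [← pow_mul, ← pow_mul]; congr 1; ring
    _ = _ := by rw [hβ16]

open Classical in
/-- the sum over a dyadic block -/
theorem mid {b : ℕ} (hb : 2 ≤ b) : ∃ (C : ℝ) (N : ℕ), 0 < C ∧ 1 ≤ N ∧ ∀ L K h Q : ℕ, 1 ≤ K → K + N * (2 * h) ≤ L → 1 ≤ Q →
    b ^ 5 * Q ^ 2 ≤ b ^ h → b ^ h ≤ b ^ 6 * Q ^ 2 → pts b Q (Ps b L K (L - K)) ≤ C * Real.sqrt Q := by
  have hb2 : (2 : ℝ) ≤ b := by exact_mod_cast hb
  have hb0 : (0 : ℝ) < b := by linarith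
  obtain ⟨E, hE, hgood⟩ := good_count hb
  have hk0 := kap_pos hb
  have hk1 := kap_lt_one hb
  have hk : 0 < 1 - kap b := by linarith
  obtain ⟨n, hn⟩ := exists_pow_lt_of_lt_one (show (0 : ℝ) < 1 / b by positivity) (show 1 - kap b < 1 by linarith)
  have hn0 : 1 ≤ n := by
    rcases Nat.eq_zero_or_pos n with h0 | h0
    · rw [h0, pow_zero, lt_div_iff₀ hb0] at hn
      linarith
    · exact h0
  refine ⟨2 + E * n * (b : ℝ) ^ 2, E * n, by positivity, Nat.one_le_iff_ne_zero.2 (by positivity), ?_⟩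
  intro L K h Q hK hL hQ h1 h2
  have hQ0 : (1 : ℝ) ≤ Q := by exact_mod_cast hQ
  have hsQ : 1 ≤ Real.sqrt Q := Real.one_le_sqrt.2 hQ0
  have h1' : (b : ℝ) ^ 5 * (Q : ℝ) ^ 2 ≤ (b : ℝ) ^ h := by exact_mod_cast h1
  have h2' : (b : ℝ) ^ h ≤ (b : ℝ) ^ 6 * (Q : ℝ) ^ 2 := by exact_mod_cast h2
  -- the pointwise bound
  have hpt : ∀ α : ℝ, Ps b L K (L - K) α ≤ ((b : ℝ) ^ (2 * h))⁻¹ +
      ∑ i ∈ range (E * n), (if E * (Bd b L (K + i * (2 * h)) (2 * h) α).card < 2 * h then (1 : ℝ) else 0) := by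
    intro α
    have e1 : Ps b L K (L - K) α ≤ Ps b L K (E * n * (2 * h)) α := by
      have : L - K = E * n * (2 * h) + (L - K - E * n * (2 * h)) := by omega
      rw [this, Ps_add]
      exact mul_le_of_le_one_right (Ps_nonneg _ _ _ _ _) (Ps_le_one _ _ _ _ _)
    refine e1.trans ?_
    by_cases hall : ∃ i ∈ range (E * n), E * (Bd b L (K + i * (2 * h)) (2 * h) α).card < 2 * h
    · obtain ⟨i, hi, hi2⟩ := hall
      have e2 : (1 : ℝ) ≤ ∑ i ∈ range (E * n), (if E * (Bd b L (K + i * (2 * h)) (2 * h) α).card < 2 * h then (1 : ℝ) else 0) := by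
        have := single_le_sum (f := fun i => (if E * (Bd b L (K + i * (2 * h)) (2 * h) α).card < 2 * h then (1 : ℝ) else 0))
          (fun j _ => by
            split_ifs <;> norm_num) hi
        rwa [if_pos hi2] at this
      have e3 : (0 : ℝ) ≤ ((b : ℝ) ^ (2 * h))⁻¹ := by positivity
      have := Ps_le_one b L K (E * n * (2 * h)) α
      linarith
    · push Not at hall
      have e2 : 0 ≤ ∑ i ∈ range (E * n), (if E * (Bd b L (K + i * (2 * h)) (2 * h) α).card < 2 * h then (1 : ℝ) else 0) :=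
        sum_nonneg fun i _ => by split_ifs <;> norm_num
      have e3 : Ps b L K (E * n * (2 * h)) α ≤ ((b : ℝ) ^ (2 * h))⁻¹ := by
        rw [Ps_blocks]
        have e4 : ∏ i ∈ range (E * n), Ps b L (K + i * (2 * h)) (2 * h) α ≤
            ∏ i ∈ range (E * n), (1 - kap b) ^ (Bd b L (K + i * (2 * h)) (2 * h) α).card :=
          prod_le_prod (fun i _ => Ps_nonneg _ _ _ _ _) fun i _ => Ps_le_Bd hb _ _ _ _
        refine e4.trans ?_
        rw [prod_pow_eq_pow_sum]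
        have e5 : n * (2 * h) ≤ ∑ i ∈ range (E * n), (Bd b L (K + i * (2 * h)) (2 * h) α).card := by
          have e6 : ∑ _i ∈ range (E * n), 2 * h ≤ ∑ i ∈ range (E * n), E * (Bd b L (K + i * (2 * h)) (2 * h) α).card :=
            sum_le_sum fun i hi => hall i hi
          rw [sum_const, card_range, smul_eq_mul, ← mul_sum, Nat.mul_assoc] at e6
          exact Nat.le_of_mul_le_mul_left e6 (by omega)
        calc (1 - kap b) ^ (∑ i ∈ range (E * n), (Bd b L (K + i * (2 * h)) (2 * h) α).card)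
            ≤ (1 - kap b) ^ (n * (2 * h)) := pow_le_pow_of_le_one hk.le (by linarith) e5
          _ = ((1 - kap b) ^ n) ^ (2 * h) := by rw [pow_mul]
          _ ≤ (1 / (b : ℝ)) ^ (2 * h) := pow_le_pow_left₀ (by positivity) hn.le _
          _ = _ := by rw [one_div, inv_pow]
      linarith
  refine (pts_mono hpt).trans ?_
  rw [pts_add, pts_sum]
  -- the first part
  have k1 : pts b Q (fun _ => ((b : ℝ) ^ (2 * h))⁻¹) ≤ 2 := by
    rw [pts_FP, sum_const, nsmul_eq_mul]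
    have h3 : (Q : ℝ) ^ 2 ≤ (b : ℝ) ^ (2 * h) := by
      have h4 : (Q : ℝ) ^ 2 ≤ (b : ℝ) ^ h := by
        refine le_trans ?_ h1'
        exact le_mul_of_one_le_left (by positivity) (one_le_pow₀ (by linarith))
      have h5 : (1 : ℝ) ≤ (b : ℝ) ^ h := one_le_pow₀ (by linarith)
      rw [two_mul, pow_add]
      nlinarith
    have h6 : (0 : ℝ) < (b : ℝ) ^ (2 * h) := by positivity
    rw [← div_eq_mul_inv, div_le_iff₀ h6]
    have := card_FP b Q
    linarith
  -- the second part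
  have k2 : ∀ i ∈ range (E * n), pts b Q (fun α => (if E * (Bd b L (K + i * (2 * h)) (2 * h) α).card < 2 * h then (1 : ℝ) else 0)) ≤
      (b : ℝ) ^ 2 * Real.sqrt Q := by
    intro i hi
    rw [mem_range] at hi
    rw [pts_FP, ← sum_filter, sum_const, nsmul_eq_mul, mul_one]
    have h3 := hgood L (K + i * (2 * h)) h Q (by omega) (by
      have : (i + 1) * (2 * h) ≤ E * n * (2 * h) := Nat.mul_le_mul_right _ hi
      have e : (i + 1) * (2 * h) = i * (2 * h) + 2 * h := by ring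
      omega) hQ h1
    have h4 : (0 : ℝ) ≤ (b : ℝ) ^ 2 * Real.sqrt Q := by positivity
    refine le_of_pow_le_pow_left₀ (n := 4) (by norm_num) h4 ?_
    refine h3.trans (h2'.trans ?_)
    have h5 : ((b : ℝ) ^ 2 * Real.sqrt Q) ^ 4 = (b : ℝ) ^ 8 * (Q : ℝ) ^ 2 := by
      rw [mul_pow, ← pow_mul]
      have : Real.sqrt Q ^ 4 = (Real.sqrt Q ^ 2) ^ 2 := by ring
      rw [this, Real.sq_sqrt (by positivity)]
    rw [h5]
    apply mul_le_mul_of_nonneg_right _ (by positivity)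
    exact pow_le_pow_right₀ (by linarith) (by norm_num)
  have k3 : ∑ i ∈ range (E * n), pts b Q (fun α => (if E * (Bd b L (K + i * (2 * h)) (2 * h) α).card < 2 * h then (1 : ℝ) else 0)) ≤
      (E * n : ℝ) * ((b : ℝ) ^ 2 * Real.sqrt Q) := by
    refine (sum_le_sum k2).trans (le_of_eq ?_)
    rw [sum_const, card_range, nsmul_eq_mul]
    push_cast
    ring
  calc _ ≤ 2 + (E * n : ℝ) * ((b : ℝ) ^ 2 * Real.sqrt Q) := add_le_add k1 k3
    _ ≤ 2 * Real.sqrt Q + (E * n : ℝ) * ((b : ℝ) ^ 2 * Real.sqrt Q) := by linarith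
    _ = _ := by ring

end Pool.Agent.Q117.PL.ODa
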