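import Pool.Agent.Q117.PL.Pt
import Pool.Agent.Q117.PL.Sl
import Pool.Agent.Q117.PL.Su
import Pool.Agent.Q117.PL.Od
import Pool.Agent.Q117.MG.Mgl
import Pool.Agent.Q117.MG.Mga

/-!
Project PL (helper117): palindromes with prescribed surroundings among the integers.
-/

set_option autoImplicit false

namespace Pool.Agent.Q117.PL

open Finset Filter
open Pool.Agent.H39R3.PB (fr)
open Pool.Agent.Q117.LF (Ro oF)
open Pool.Agent.Q117.AP (AdQ VQ)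
open Pool.Agent.Q117.MG (GQ Cu)

open Classical in
/-- the outer digits `o` for which all the `OutP o + v`, `v ∈ V`, have no prime factor `≤ z` and all the other `OutP o + v + s`, `|s| ≤ D`, have one -/
noncomputable def PtsS (b L K : ℕ) (V : Finset ℤ) (z D : ℝ) : Finset ℕ :=
  (range (b ^ (L - K))).filter (fun o : ℕ => (∀ v ∈ V, Ro z (OutP b L K o + v)) ∧
    ∀ v ∈ V, ∀ s : ℤ, |(s : ℝ)| ≤ D → v + s ∉ V → ¬ Ro z (OutP b L K o + (v + s)))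

/-- conclusion of SR -/
def SRc : Prop := ∀ b : ℕ, 2 ≤ b → ∀ r : ℕ, ∃ t : ℕ, 1 ≤ t ∧ ∀ T : ℕ, t ≤ T → ∃ c : ℝ, 0 < c ∧ ∃ ν : ℝ, 0 < ν ∧ ∃ L0 : ℕ, ∀ L : ℕ, L0 ≤ L → ∀ K : ℕ, 1 ≤ K → 2 * K ≤ L →
  ∀ V : Finset ℤ, V.Nonempty → V.card ≤ r → (∀ v ∈ V, |(v : ℝ)| ≤ (b : ℝ) ^ (3 * L) / 2) → Cu (2 * b) V → AdQ (2 * b) V →
    c * ((b : ℝ) ^ (L - K) * VQ (b ^ L) (2 * b) V) ≤ ((PtsS b L K V ((b : ℝ) ^ ((L : ℝ) / T)) (ν * L)).card : ℝ)

namespace SRa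

open PTa

theorem OutP_dvd {b L K o : ℕ} (hK : 1 ≤ K) {p : ℕ} (hp : p.Prime) (hpb : p ∣ 2 * b) : p ∣ OutP b L K o := by
  by_cases h : p ∣ b
  · exact dvd_sum fun c hc => Dvd.dvd.mul_left (fr_dvd (by have := mem_range.1 hc; omega) h) _
  · have h2p : p = 2 := by
      rcases hp.dvd_mul.1 hpb with h1 | h1
      · exact (Nat.prime_dvd_prime_iff_eq hp Nat.prime_two).1 h1
      · exact absurd h1 h
    subst h2p
    have hodd : Odd b := Nat.not_even_iff_odd.1 fun he => h he.two_dvd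
    exact dvd_sum fun c hc => Dvd.dvd.mul_left (fr_even hodd (by omega)) _

theorem Ro_of_Rg {b L K o : ℕ} {z : ℝ} {V : Finset ℤ} (hK : 1 ≤ K) (hCu : Cu (2 * b) V)
    (h : Rg b L K z V o) {v : ℤ} (hv : v ∈ V) : Ro z (OutP b L K o + v) := by
  intro p hp hd
  by_cases h1 : p ∣ 2 * b
  · exfalso
    have h2 : (p : ℤ) ∣ OutP b L K o := by exact_mod_cast OutP_dvd hK hp h1
    exact hCu p hp h1 v hv ((dvd_add_right h2).1 hd)
  · exact h v hv p hp h1 hd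

/-- `GQ` for fewer primes -/
theorem GQ_le_one (q y : ℕ) (m : ℤ) : GQ q y m ≤ GQ 1 y m := by
  unfold GQ
  have hsub : (Icc 1 y).filter (fun p : ℕ => p.Prime ∧ ¬ p ∣ q ∧ (p : ℤ) ∣ m) ⊆
      (Icc 1 y).filter (fun p : ℕ => p.Prime ∧ ¬ p ∣ 1 ∧ (p : ℤ) ∣ m) := by
    intro p hp
    rw [mem_filter] at hp ⊢
    exact ⟨hp.1, hp.2.1, fun h => hp.2.1.one_lt.ne' (Nat.dvd_one.1 h), hp.2.2.2⟩
  refine Finset.prod_le_prod_of_subset_of_one_le hsub (fun p _ => by positivity) (fun p _ _ => ?_)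
  have : (0 : ℝ) ≤ 2 / (p : ℝ) := by positivity
  linarith

open Classical in
/-- one exception: all the `OutP o + v`, `v ∈ V`, and `OutP o + v'` sifted -/
theorem one_exc {b r T : ℕ} (hb : 2 ≤ b) {C : ℝ} (hC : 0 < C) {Lu : ℕ}
    (hU : ∀ L : ℕ, Lu ≤ L → ∀ K : ℕ, 1 ≤ K → 2 * K ≤ L → ∀ V : Finset ℤ, V.card ≤ r + 1 → V.Nonempty →
      (((range (b ^ (L - K))).filter (fun o : ℕ => Rg b L K ((b : ℝ) ^ ((L : ℝ) / T)) V o)).card : ℝ) ≤
        C * ((b : ℝ) ^ (L - K) * VQ (b ^ L) (2 * b) V))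
    {Cb : ℝ} {L K : ℕ} (hLu : Lu ≤ L) (hK : 1 ≤ K) (hK2 : 2 * K ≤ L) (hLr : (0 : ℝ) < L)
    (hQb : Pool.Agent.Q117.AP.PATa.Q1 (b ^ L) (2 * b) ≤ Cb / L) (hCb : 0 ≤ Cb)
    {V : Finset ℤ} (hVne : V.Nonempty) (hVc : V.card ≤ r) (v' : ℤ) :
    (((range (b ^ (L - K))).filter (fun o : ℕ => Rg b L K ((b : ℝ) ^ ((L : ℝ) / T)) (insert v' V) o)).card : ℝ) ≤
      C * ((b : ℝ) ^ (L - K) * (VQ (b ^ L) (2 * b) V * (Cb / L *
        ∑ v ∈ V, GQ 1 (b ^ L) (v' - v) ^ (r * (2 * (r + 1) ^ 2 + (r + 1)))))) := by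
  classical
  set N₀ : ℕ := 2 * (r + 1) ^ 2 + (r + 1) with hN₀
  have hW0 : 0 ≤ VQ (b ^ L) (2 * b) V := Pool.Agent.Q117.AP.PATa.VQ_nonneg _ _ _
  have h2 := hU L hLu K hK hK2 (insert v' V) ((card_insert_le _ _).trans (by omega)) (insert_nonempty _ _)
  have h3 := Pool.Agent.Q117.MG.mgl (r + 1) (b ^ L) (2 * b) (2 * b) (fun p _ h => h) V {v'} (by omega) (by simp) (by
    intro p hp _
    refine ⟨1 - v', fun e he => ?_⟩
    rw [mem_singleton.1 he, show (1 - v' + v' : ℤ) = 1 by ring]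
    intro h4
    exact hp.one_lt.ne' (by exact_mod_cast Int.eq_one_of_dvd_one (by positivity) h4)) 0
  have h4 : V ∪ ({v'} : Finset ℤ).image (fun f => f + ((2 * b : ℕ) : ℤ) * 0) = insert v' V := by
    rw [image_singleton, mul_zero, add_zero, union_comm]
    rfl
  rw [h4, prod_singleton, Pool.Agent.Q117.AP.PATa.VQ_single] at h3
  have h5 : ∀ v ∈ V, GQ (2 * b) (b ^ L) (v' + ((2 * b : ℕ) : ℤ) * 0 - v) = GQ (2 * b) (b ^ L) (v' - v) :=
    fun v _ => by rw [mul_zero, add_zero]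
  rw [prod_congr rfl h5] at h3
  obtain ⟨v, hv, h6⟩ := prod_le_one_pow (N := N₀) hVne hVc (fun v => GQ (2 * b) (b ^ L) (v' - v))
    (fun v => GQ_one_le _ _ _)
  have h7 : (∏ u ∈ V, GQ (2 * b) (b ^ L) (v' - u)) ^ N₀ ≤ ∑ v ∈ V, GQ 1 (b ^ L) (v' - v) ^ (r * N₀) := by
    refine h6.trans ?_
    have h8 : GQ (2 * b) (b ^ L) (v' - v) ^ (r * N₀) ≤ GQ 1 (b ^ L) (v' - v) ^ (r * N₀) :=
      pow_le_pow_left₀ (by linarith [GQ_one_le (2 * b) (b ^ L) (v' - v)]) (GQ_le_one _ _ _) _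
    refine h8.trans ?_
    exact single_le_sum (f := fun v => GQ 1 (b ^ L) (v' - v) ^ (r * N₀))
      (fun v _ => pow_nonneg (by linarith [GQ_one_le 1 (b ^ L) (v' - v)]) _) hv
  refine h2.trans (mul_le_mul_of_nonneg_left (mul_le_mul_of_nonneg_left (h3.trans ?_) (by positivity)) hC.le)
  rw [mul_assoc]
  refine mul_le_mul_of_nonneg_left ?_ hW0
  exact mul_le_mul hQb h7 (pow_nonneg (prod_nonneg fun u _ => by
    linarith [GQ_one_le (2 * b) (b ^ L) (v' - u)]) _) (by positivity)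

/-- the average of the singular factor over the integers near -/
theorem avg_s (b N : ℕ) (hb : 2 ≤ b) : ∃ C : ℝ, 0 < C ∧ ∃ L0 : ℕ, ∀ L : ℕ, L0 ≤ L → ∀ β : ℤ, |(β : ℝ)| ≤ (b : ℝ) ^ (3 * L) →
    ∀ f : ℕ, f ≤ b ^ L → ∑ s ∈ (Icc (-(f : ℤ)) f).filter (fun s => s + β ≠ 0), GQ 1 (b ^ L) (s + β) ^ N ≤ C * (f + (L : ℝ) ^ (1 / 2 : ℝ)) := by
  obtain ⟨C, hC, X0, hX⟩ := Pool.Agent.Q117.MG.mga (N + 1)
  obtain ⟨N1, hN1⟩ := exists_nat_ge X0
  have hbr : (2 : ℝ) ≤ b := by exact_mod_cast hb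
  have hlb : 0 < Real.log b := Real.log_pos (by linarith)
  refine ⟨C * (1 + Real.log b ^ (1 / 2 : ℝ)), by positivity, N1, ?_⟩
  intro L hL β hβ f hf
  have hXL : X0 ≤ ((b ^ L : ℕ) : ℝ) := by
    have h1 : L ≤ b ^ L := (Nat.lt_pow_self (by omega)).le
    have h2 : (N1 : ℝ) ≤ ((b ^ L : ℕ) : ℝ) := by exact_mod_cast hL.trans h1
    linarith
  have h1 := hX _ hXL 1 le_rfl (by
    have : 1 ≤ b ^ L := Nat.one_le_pow _ _ (by omega)
    exact_mod_cast this) (fun _ => β) (by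
    intro _
    push_cast
    rw [← pow_mul, mul_comm L 3]
    exact hβ) f (by exact_mod_cast hf)
  rw [Nat.floor_natCast] at h1
  have h2 : ∑ s ∈ (Icc (-(f : ℤ)) f).filter (fun s => s + β ≠ 0), GQ 1 (b ^ L) (s + β) ^ N ≤
      ∑ s ∈ (Icc (-(f : ℤ)) f).filter (fun s => ∀ _x : Fin (N + 1), ((1 : ℕ) : ℤ) * s + β ≠ 0),
        ∏ _x : Fin (N + 1), GQ 1 (b ^ L) (((1 : ℕ) : ℤ) * s + β) := by
    have h3 : (Icc (-(f : ℤ)) f).filter (fun s => ∀ _x : Fin (N + 1), ((1 : ℕ) : ℤ) * s + β ≠ 0) =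
        (Icc (-(f : ℤ)) f).filter (fun s => s + β ≠ 0) := by
      refine filter_congr fun s _ => ?_
      rw [Nat.cast_one, one_mul]
      exact ⟨fun h => h 0, fun h _ => h⟩
    rw [h3]
    refine sum_le_sum fun s _ => ?_
    rw [prod_const, card_univ, Fintype.card_fin, Nat.cast_one, one_mul]
    exact pow_le_pow_right₀ (GQ_one_le _ _ _) (Nat.le_succ N)
  refine h2.trans (h1.trans ?_)
  have h4 : Real.log ((b ^ L : ℕ) : ℝ) = L * Real.log b := by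
    push_cast
    rw [Real.log_pow]
  rw [h4, Real.mul_rpow (Nat.cast_nonneg L) hlb.le]
  have h5 : (0 : ℝ) ≤ Real.log b ^ (1 / 2 : ℝ) := by positivity
  have h6 : (0 : ℝ) ≤ (L : ℝ) ^ (1 / 2 : ℝ) := by positivity
  have h7 : (0 : ℝ) ≤ f := by positivity
  rw [mul_assoc]
  refine mul_le_mul_of_nonneg_left ?_ hC.le
  nlinarith [mul_nonneg h5 h7]

end SRa

open PTa SRa in
open Pool.Agent.Q117.AP.PATa (VQ_nonneg Q1 VQ_single Q1_le tot_pos) in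
theorem srC : SRc := by
  classical
  intro b hb r
  obtain ⟨t, ht, c₀, hc₀, Ls, hS⟩ := sl od b hb r
  refine ⟨t, ht, fun T hT => ?_⟩
  obtain ⟨C, hC, Lu, hU⟩ := su od b hb (r + 1) T (ht.trans hT)
  set N₀ : ℕ := 2 * (r + 1) ^ 2 + (r + 1) with hN₀
  obtain ⟨CA, hCA, La, hA⟩ := avg_s b (r * N₀) hb
  obtain ⟨CQ, hCQ, hQ⟩ := Q1_le
  have hbr : (2 : ℝ) ≤ b := by exact_mod_cast hb
  have hlb : 0 < Real.log b := Real.log_pos (by linarith)
  have hφ := tot_pos (show 1 ≤ 2 * b by omega)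
  set Cb : ℝ := CQ / ((Nat.totient (2 * b) : ℝ) / ((2 * b : ℕ) : ℝ) * Real.log b) with hCb
  have hCb0 : 0 < Cb := by positivity
  set D : ℝ := r * r * (C * Cb * CA) + 1 with hD
  have hD0 : 0 < D := by positivity
  set ν : ℝ := min (c₀ / (8 * D)) 1 with hν
  have hν0 : 0 < ν := by positivity
  refine ⟨c₀ / 2, by positivity, ν, hν0, ?_⟩
  -- the size of `L`
  have hev : ∀ᶠ L : ℕ in atTop, (L : ℝ) ^ (1 / 2 : ℝ) ≤ c₀ / (4 * D) * L := by
    have h1 : ∀ᶠ x : ℝ in atTop, 1 / (c₀ / (4 * D)) ≤ x ^ (1 / 2 : ℝ) :=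
      (tendsto_rpow_atTop (by norm_num)).eventually_ge_atTop _
    have h2 := tendsto_natCast_atTop_atTop (R := ℝ) |>.eventually h1
    filter_upwards [h2, eventually_ge_atTop 1] with L hL hL1
    have hL1' : (1 : ℝ) ≤ L := by exact_mod_cast hL1
    have h3 : (L : ℝ) = (L : ℝ) ^ (1 / 2 : ℝ) * (L : ℝ) ^ (1 / 2 : ℝ) := by
      rw [← Real.rpow_add (by linarith)]
      norm_num
    have h4 : 0 < c₀ / (4 * D) := by positivity
    rw [div_le_iff₀ h4] at hL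
    have h5 : (0 : ℝ) ≤ (L : ℝ) ^ (1 / 2 : ℝ) := by positivity
    calc (L : ℝ) ^ (1 / 2 : ℝ) = 1 * (L : ℝ) ^ (1 / 2 : ℝ) := (one_mul _).symm
      _ ≤ ((L : ℝ) ^ (1 / 2 : ℝ) * (c₀ / (4 * D))) * (L : ℝ) ^ (1 / 2 : ℝ) := mul_le_mul_of_nonneg_right hL h5
      _ = c₀ / (4 * D) * ((L : ℝ) ^ (1 / 2 : ℝ) * (L : ℝ) ^ (1 / 2 : ℝ)) := by ring
      _ = c₀ / (4 * D) * L := by rw [← h3]
  obtain ⟨Le, hLe⟩ := eventually_atTop.1 hev
  refine ⟨max (max Ls Lu) (max (max Le La) 2), fun L hL K hK hK2 V hVne hVc hVb hVu hVA => ?_⟩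
  simp only [max_le_iff] at hL
  obtain ⟨⟨hLs, hLu⟩, ⟨hLe1, hLa⟩, hL2⟩ := hL
  have hLe' := hLe L hLe1
  have hLr : (0 : ℝ) < L := by exact_mod_cast (show 0 < L by omega)
  set W : ℝ := VQ (b ^ L) (2 * b) V with hW
  have hW0 : 0 ≤ W := VQ_nonneg _ _ _
  set z : ℝ := (b : ℝ) ^ ((L : ℝ) / T) with hz
  have htr : (1 : ℝ) ≤ t := by exact_mod_cast ht
  have htT : (t : ℝ) ≤ T := by exact_mod_cast hT
  have hzt : z ≤ (b : ℝ) ^ ((L : ℝ) / t) := by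
    refine Real.rpow_le_rpow_of_exponent_le (by linarith) ?_
    exact div_le_div_of_nonneg_left hLr.le (by linarith) htT
  -- the lower bound
  have hlow := hS L hLs K hK hK2 V hVc hVne hVA
  set O1 : Finset ℕ := (range (b ^ (L - K))).filter (fun o => Rg b L K ((b : ℝ) ^ ((L : ℝ) / t)) V o) with hO1
  have hlow' : c₀ * ((b : ℝ) ^ (L - K) * W) ≤ (O1.card : ℝ) := by
    refine hlow.trans (le_of_eq ?_)
    rw [hO1]
    congr 2
    exact filter_congr fun o _ => Iff.rfl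
  -- the exceptions
  set f : ℕ := ⌊ν * L⌋₊ with hf
  have hfle : (f : ℝ) ≤ ν * L := Nat.floor_le (by positivity)
  have hfb : f ≤ b ^ L := by
    have h1 : (f : ℝ) ≤ L := by
      have : ν ≤ 1 := min_le_right _ _
      nlinarith
    have h2 : f ≤ L := by exact_mod_cast h1
    exact h2.trans (Nat.lt_pow_self (by omega)).le
  set NB : ℤ → Finset ℤ := fun v₁ => (Icc (-(f : ℤ)) f).filter (fun s => v₁ + s ∉ V) with hNB
  set EX : ℤ → Finset ℕ := fun v' => (range (b ^ (L - K))).filter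
    (fun o => Rg b L K z (insert v' V) o) with hEX
  have hsub : O1 \ PtsS b L K V z (ν * L) ⊆ V.biUnion (fun v₁ => (NB v₁).biUnion (fun s => EX (v₁ + s))) := by
    intro o ho
    rw [Finset.mem_sdiff] at ho
    obtain ⟨ho1, ho2⟩ := ho
    rw [hO1, mem_filter] at ho1
    obtain ⟨hor, hoR⟩ := ho1
    have hRg : Rg b L K z V o := fun v hv p hp h1 h2 => hzt.trans_lt (hoR v hv p hp h1 h2)
    have hRo : ∀ v ∈ V, Ro z (OutP b L K o + v) := fun v hv => Ro_of_Rg hK hVu hRg hv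
    have h3 : ¬ ∀ v ∈ V, ∀ s : ℤ, |(s : ℝ)| ≤ ν * L → v + s ∉ V → ¬ Ro z (OutP b L K o + (v + s)) := by
      intro hall
      exact ho2 (mem_filter.2 ⟨hor, hRo, hall⟩)
    push Not at h3
    obtain ⟨v₁, hv₁, s, hs, hsV, hro⟩ := h3
    rw [mem_biUnion]
    refine ⟨v₁, hv₁, ?_⟩
    rw [mem_biUnion]
    refine ⟨s, mem_filter.2 ⟨?_, hsV⟩, mem_filter.2 ⟨hor, fun v hv p hp h1 h2 => ?_⟩⟩
    · have h4 : (s.natAbs : ℝ) ≤ ν * L := by
        rw [Nat.cast_natAbs]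
        push_cast
        exact hs
      have h5 := Nat.le_floor h4
      rw [mem_Icc]
      omega
    · rcases mem_insert.1 hv with rfl | hv
      · exact hro p hp h2
      · exact hRg v hv p hp h1 h2
  have hy2 : 2 * b ≤ b ^ L := by
    calc 2 * b ≤ b * b := Nat.mul_le_mul_right b hb
      _ = b ^ 2 := by ring
      _ ≤ b ^ L := Nat.pow_le_pow_right (by omega) hL2
  have hQb : Q1 (b ^ L) (2 * b) ≤ Cb / L := by
    have h1 := hQ (b ^ L) (2 * b) (by omega) (by omega) hy2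
    rw [hCb, div_div, le_div_iff₀ (by positivity)]
    refine le_trans (le_of_eq ?_) h1
    push_cast
    rw [Real.log_pow]
    ring
  have hU' : ∀ L : ℕ, Lu ≤ L → ∀ K : ℕ, 1 ≤ K → 2 * K ≤ L → ∀ V : Finset ℤ, V.card ≤ r + 1 → V.Nonempty →
      (((range (b ^ (L - K))).filter (fun o : ℕ => Rg b L K ((b : ℝ) ^ ((L : ℝ) / T)) V o)).card : ℝ) ≤
        C * ((b : ℝ) ^ (L - K) * VQ (b ^ L) (2 * b) V) := by
    intro L hL K hK hK2 V hV hVn
    refine le_trans (le_of_eq ?_) (hU L hL K hK hK2 V hV hVn)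
    congr 2
    exact filter_congr fun o _ => Iff.rfl
  have hone : ∀ v' : ℤ, ((EX v').card : ℝ) ≤ C * ((b : ℝ) ^ (L - K) * (W * (Cb / L *
      ∑ v ∈ V, GQ 1 (b ^ L) (v' - v) ^ (r * N₀)))) := fun v' =>
    one_exc hb hC hU' hLu hK hK2 hLr hQb hCb0.le hVne hVc v'
  have hnear : ∀ v₁ ∈ V, ∑ s ∈ NB v₁, ((EX (v₁ + s)).card : ℝ) ≤
      C * ((b : ℝ) ^ (L - K) * (W * (Cb / L * (r * (CA * (f + (L : ℝ) ^ (1 / 2 : ℝ))))))) := by
    intro v₁ hv₁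
    have h1 : ∑ s ∈ NB v₁, ((EX (v₁ + s)).card : ℝ) ≤ ∑ s ∈ NB v₁, C * ((b : ℝ) ^ (L - K) * (W * (Cb / L *
      ∑ v ∈ V, GQ 1 (b ^ L) (v₁ + s - v) ^ (r * N₀)))) :=
      sum_le_sum fun s _ => hone (v₁ + s)
    refine h1.trans ?_
    rw [← mul_sum, ← mul_sum, ← mul_sum, ← mul_sum]
    refine mul_le_mul_of_nonneg_left (mul_le_mul_of_nonneg_left (mul_le_mul_of_nonneg_left
      (mul_le_mul_of_nonneg_left ?_ (by positivity)) hW0) (by positivity)) hC.le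
    rw [sum_comm]
    have h2 : ∀ v ∈ V, ∑ s ∈ NB v₁, GQ 1 (b ^ L) (v₁ + s - v) ^ (r * N₀) ≤ CA * (f + (L : ℝ) ^ (1 / 2 : ℝ)) := by
      intro v hv
      have h3 := hA L hLa (v₁ - v) (by
        push_cast
        have a1 := hVb v₁ hv₁
        have a2 := hVb v hv
        calc |(v₁ : ℝ) - v| ≤ |(v₁ : ℝ)| + |(v : ℝ)| := abs_sub _ _
          _ ≤ (b : ℝ) ^ (3 * L) := by linarith) f hfb
      refine le_trans ?_ h3
      have h4 : ∀ s : ℤ, v₁ + s - v = s + (v₁ - v) := fun s => by ring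
      simp only [h4]
      refine sum_le_sum_of_subset_of_nonneg ?_ ?_
      · intro s hs
        rw [hNB, mem_filter] at hs
        rw [mem_filter]
        refine ⟨hs.1, fun h => hs.2 ?_⟩
        have : v₁ + s = v := by linarith
        rw [this]
        exact hv
      · intro s _ _
        exact pow_nonneg (by linarith [GQ_one_le 1 (b ^ L) (s + (v₁ - v))]) _
    calc _ ≤ ∑ _v ∈ V, CA * ((f : ℝ) + (L : ℝ) ^ (1 / 2 : ℝ)) := sum_le_sum h2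
      _ = V.card * (CA * ((f : ℝ) + (L : ℝ) ^ (1 / 2 : ℝ))) := by rw [sum_const, nsmul_eq_mul]
      _ ≤ r * (CA * ((f : ℝ) + (L : ℝ) ^ (1 / 2 : ℝ))) := mul_le_mul_of_nonneg_right (by exact_mod_cast hVc) (by positivity)
  have hexc : ((O1 \ PtsS b L K V z (ν * L)).card : ℝ) ≤ c₀ / 2 * ((b : ℝ) ^ (L - K) * W) := by
    have h1 : ((O1 \ PtsS b L K V z (ν * L)).card : ℝ) ≤ ∑ v₁ ∈ V, ∑ s ∈ NB v₁, ((EX (v₁ + s)).card : ℝ) := by
      have h2 := (card_le_card hsub).trans (card_biUnion_le.trans (sum_le_sum fun v₁ _ => card_biUnion_le))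
      exact_mod_cast h2
    have h2 : ∑ v₁ ∈ V, ∑ s ∈ NB v₁, ((EX (v₁ + s)).card : ℝ) ≤
        r * (C * ((b : ℝ) ^ (L - K) * (W * (Cb / L * (r * (CA * (f + (L : ℝ) ^ (1 / 2 : ℝ)))))))) := by
      refine (sum_le_sum hnear).trans ?_
      rw [sum_const, nsmul_eq_mul]
      exact mul_le_mul_of_nonneg_right (by exact_mod_cast hVc) (by positivity)
    refine h1.trans (h2.trans ?_)
    have h3 : (r : ℝ) * (C * ((b : ℝ) ^ (L - K) * (W * (Cb / L * (r * (CA * (f + (L : ℝ) ^ (1 / 2 : ℝ)))))))) =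
        (r * r * (C * Cb * CA)) * ((f + (L : ℝ) ^ (1 / 2 : ℝ)) / L) * ((b : ℝ) ^ (L - K) * W) := by ring
    rw [h3]
    refine mul_le_mul_of_nonneg_right ?_ (by positivity)
    have h4 : ((f : ℝ) + (L : ℝ) ^ (1 / 2 : ℝ)) / L ≤ ν + c₀ / (4 * D) := by
      rw [div_le_iff₀ hLr]
      nlinarith
    have h5 : (0 : ℝ) ≤ ((f : ℝ) + (L : ℝ) ^ (1 / 2 : ℝ)) / L := by positivity
    have h6 : ν ≤ c₀ / (8 * D) := min_le_left _ _
    calc (r * r * (C * Cb * CA)) * ((f + (L : ℝ) ^ (1 / 2 : ℝ)) / L) ≤ D * ((f + (L : ℝ) ^ (1 / 2 : ℝ)) / L) :=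
          mul_le_mul_of_nonneg_right (by rw [hD]; linarith) h5
      _ ≤ D * (c₀ / (8 * D) + c₀ / (4 * D)) := mul_le_mul_of_nonneg_left (by linarith) hD0.le
      _ ≤ c₀ / 2 := by
        have : D * (c₀ / (8 * D) + c₀ / (4 * D)) = 3 / 8 * c₀ := by field_simp; ring
        rw [this]
        linarith
  have hfin : (O1.card : ℝ) ≤ ((O1 \ PtsS b L K V z (ν * L)).card : ℝ) + ((PtsS b L K V z (ν * L)).card : ℝ) := by
    have h1 : O1.card ≤ (O1 \ PtsS b L K V z (ν * L)).card + (PtsS b L K V z (ν * L)).card := by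
      have h2 : O1 ⊆ (O1 \ PtsS b L K V z (ν * L)) ∪ PtsS b L K V z (ν * L) := by
        intro x hx
        by_cases h : x ∈ PtsS b L K V z (ν * L)
        · exact mem_union_right _ h
        · exact mem_union_left _ (Finset.mem_sdiff.2 ⟨hx, h⟩)
      exact (card_le_card h2).trans (card_union_le _ _)
    exact_mod_cast h1
  have h6 : c₀ / 2 * ((b : ℝ) ^ (L - K) * W) + c₀ / 2 * ((b : ℝ) ^ (L - K) * W) = c₀ * ((b : ℝ) ^ (L - K) * W) := by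
    ring
  linarith

end Pool.Agent.Q117.PL
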