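import Pool.Agent.Q117.MG.Stm
import Pool.Agent.H39R3.PB.Defs

/-!
Project PL (helper117): palindromes in base `b` at the natural scale: tuples of palindromes with prescribed middle blocks, and gaps between palindromes
without small prime factors.

Every `St_X` below is the statement of one job; the doc comment is its complete proof. The file of a job is `Pool/Agent/Q117/PL/<Name>.lean`, the theorem
has the name given in the comment (namespace `Pool.Agent.Q117.PL`). The hypotheses of a statement are the conclusions of other jobs (they are assembled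
later), so all jobs are independent.
-/

set_option autoImplicit false

namespace Pool.Agent.Q117.PL

open Finset Filter
open Pool.Agent.H39R3.PB (fr)
open Pool.Agent.Q117.LF (Ro oF)
open Pool.Agent.Q117.AP (AdQ VQ)
open Pool.Agent.Q117.MG (GQ St_MGL)

/-- the contribution of the digits of `m` at the distances `c < K` from the middle -/
def Mid (b L K m : ℕ) : ℕ := ∑ c ∈ range K, (m / b ^ c % b) * fr b L c

/-- the contribution of the digits of `o` at the distances `K, .., L - 1` from the middle -/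
def OutP (b L K o : ℕ) : ℕ := ∑ c ∈ range (L - K), (o / b ^ c % b) * fr b L (K + c)

/-- the palindrome with `2 L + 1` digits, leading digit `l`, outer digits `o`, middle block `m` -/
def Pv (b L K l o m : ℕ) : ℕ := l * (b ^ (2 * L) + 1) + OutP b L K o + Mid b L K m

/-- conclusion of OD -/
def ODc : Prop := ∀ b : ℕ, 2 ≤ b → ∃ δ : ℝ, 0 < δ ∧ ∀ w A : ℕ, ∃ L0 : ℕ, ∀ L : ℕ, L0 ≤ L → ∀ K : ℕ, 1 ≤ K → 2 * K ≤ L → ∀ h : ℕ → ℕ,
  ∑ q ∈ (Icc 1 ⌊(b : ℝ) ^ (δ * L)⌋₊).filter (fun q => q.Coprime (2 * b)),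
    (q.divisors.card : ℝ) ^ w * |(((range (b ^ (L - K))).filter (fun o => OutP b L K o ≡ h q [MOD q])).card : ℝ) - (b : ℝ) ^ (L - K) / q| ≤
      (b : ℝ) ^ (L - K) / (L : ℝ) ^ A

/-- **OD** (theorem `od : ODc`): the distribution of the outer digits in residue classes, for a small level.

Proof. The library has this for `K = 0` and a large level (`Pool/Agent/H39R3/PB/Defs.lean` and its tasks, `Pool/Agent/H623R3` (T8), `Pool/Agent/W139/PX/F5.lean`, `Pool/Agent/Y816/PS/A.lean`); here the positions `0, .., K - 1` are missing and any `δ > 0` will do, so only the two easy parts of the proof are needed. For `q` prime to `2 b`, by orthogonality (copy `cnt_bound`, `Pool.Agent.H623R3.PBT8.cnt_bound`, or `cnth_bound`, `Y816/PS/A.lean`):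
`|#{o : OutP o ≡ h (mod q)} - b ^ (L - K) / q| ≤ (b ^ (L - K) / q) ∑_{d ∣ q, d > 1} U' d` with `U' d = ∑_{a mod d, (a, d) = 1} Ps b L K (L - K) (a / d)` (`Ps b L A J` is the product over the positions `A, .., A + J - 1`; `o ↦` its digits is a bijection of `range (b ^ (L - K))` with the digit vectors). As in `double` (`Pool.Agent.H623R3.PBT8.double`, for `w = 2`): `∑_{q ≤ D} d(q) ^ w (1 / q) ∑_{d ∣ q} U' d ≤ (∑_{d ≤ D} d(d) ^ w U' d / d) (∑_{e ≤ D} d(e) ^ w / e)` since `d(q) ≤ d(d) d(q / d)`; the second factor is at most `(1 + log D) ^ (2 ^ w)` (induction over `w`, or any polynomial bound in `log D`). So it is enough that `∑_{2 ≤ q ≤ b ^ (δ L)} d(q) ^ w U' q / q ≤ 1 / L ^ A` for every `A`.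
SMALL `q < b ^ t`, `t = ⌊ε √L⌋`: the pointwise bound of task T6 (`PointB`) for the positions `K, .., L - 1`: `Ps b L K (L - K) (a / q) ≤ (1 - κ) ^ ((L - K - 1) / (2 t + 2))`, by the same proof (among `2 t + 2` consecutive positions one has a factor `≤ 1 - κ`); so this part of the sum is at most `b ^ (2 t) (1 - κ) ^ ((L - K - 1) / (2 t + 2))`-like (`d(q) ≤ q`: at most `b ^ ((w + 2) t)` in front), very small if `ε = ε(w)` is small, since `L - K ≥ L / 2`.
LARGE `q`, dyadic blocks `[Q, 2 Q)`, `b ^ t ≤ 2 Q`, `Q ≤ b ^ (δ L)`: the bound `MidB` for the positions `K, .., L - 1`: `pts b Q (Ps b L K (L - K)) ≤ C Q θ ^ J` for `Q ^ 2 ≤ b ^ J ≤ b Q ^ 2` and `K + N J ≤ L`, by the same proof (it uses blocks at the positions `≥ 1` only, `TaskT4` and the like hold for every block `A, .., A + J - 1` with `A ≥ 1`; Hölder's inequality over several disjoint blocks). With `δ = 1 / (8 N)` the condition `K + N J ≤ L` holds (`K ≤ L / 2`). `d(q) ^ w ≤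 C_η q ^ η` with `η` so small that `b ^ (η J) θ ^ J ≤ θ ^ (J / 2)`; `J ≥ t`: the sum over the dyadic blocks is at most `C L θ ^ (t / 2)`-like, `t ≥ ε √L / 2`. -/
def St_OD : Prop := ODc

open Classical in
/-- conclusion of SU -/
def SUc : Prop := ∀ b : ℕ, 2 ≤ b → ∀ r T : ℕ, 1 ≤ T → ∃ C : ℝ, 0 < C ∧ ∃ L0 : ℕ, ∀ L : ℕ, L0 ≤ L → ∀ K : ℕ, 1 ≤ K → 2 * K ≤ L → ∀ V : Finset ℤ, V.card ≤ r → V.Nonempty →
  (((range (b ^ (L - K))).filter (fun o : ℕ => ∀ v ∈ V, ∀ p : ℕ, p.Prime → ¬ p ∣ 2 * b → (p : ℤ) ∣ OutP b L K o + v → (b : ℝ) ^ ((L : ℝ) / T) < p)).card : ℝ) ≤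
    C * ((b : ℝ) ^ (L - K) * VQ (b ^ L) (2 * b) V)

/-- **SU** (theorem `su : St_SU`): the upper bound sieve for the outer digits.

Proof. An upper bound sieve of dimension `r` (for instance the Brun-Hooley sieve behind `svG`, `Pool/Agent/Y816/PS/G.lean`: look at `bh2` and at the upper bound used in `Pool/Agent/Y816/PS/E.lean` (`upperE`); or the fundamental lemma behind `int_upper`, `Pool/Agent/Q253/Thin/UpperS.lean`, `fll` in `Y151/HS`) for the set of the `o`, the primes `2 r + 2 < p ≤ b ^ (η L)`, `p ∤ 2 b`, the classes of `OutP o` modulo `p` equal to the `- v`, `v ∈ V` (`oF V p` classes, at most `r`), level `b ^ (δ L)`. The number of the classes modulo a squarefree `q` is `≤ r ^ ω(q) ≤ d(q) ^ w`, `r ≤ 2 ^ w`; the remainders are bounded by `ODc` (choose for every `q` the worst class `h q`; if a divisor structure of the error bound is needed take `ER q = max_h |..|`). `η ≤ 1 / T`.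
The product over the primes `2 r + 2 < p ≤ b ^ (η L)`, `p ∤ 2 b`, of `1 - oF V p / p` is at most `C' VQ (b ^ L) (2 b) V` by Mertens (`oF V p ≤ r`; the factors of the primes `p ≤ 2 r + 2` are bounded below by `1 / (2 r + 2)` if they are positive). If `oF V p = p` for some prime `p ∤ 2 b` then `p ≤ r`, for every `o` some `OutP o + v` is divisible by `p`, and the set on the left is empty for `L` large; `VQ ≥ 0`. The error terms are `≤ b ^ (L - K) / L ^ A` for every `A`, and `VQ (b ^ L) (2 b) V ≥ c₂ / L ^ (r + 1)` by Mertens if it is positive. -/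
def St_SU : Prop := ODc → SUc

open Classical in
/-- conclusion of SL -/
def SLc : Prop := ∀ b : ℕ, 2 ≤ b → ∀ r : ℕ, ∃ t : ℕ, 1 ≤ t ∧ ∃ c : ℝ, 0 < c ∧ ∃ L0 : ℕ, ∀ L : ℕ, L0 ≤ L → ∀ K : ℕ, 1 ≤ K → 2 * K ≤ L → ∀ V : Finset ℤ, V.card ≤ r → V.Nonempty → AdQ (2 * b) V →
  c * ((b : ℝ) ^ (L - K) * VQ (b ^ L) (2 * b) V) ≤
    (((range (b ^ (L - K))).filter (fun o : ℕ => ∀ v ∈ V, ∀ p : ℕ, p.Prime → ¬ p ∣ 2 * b → (p : ℤ) ∣ OutP b L K o + v → (b : ℝ) ^ ((L : ℝ) / t) < p)).card : ℝ)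

/-- **SL** (theorem `sl : St_SL`): the lower bound sieve for the outer digits.

Proof. The lower bound sieve of dimension `r` (as `svG`, `Pool/Agent/Y816/PS/G.lean`, which is for `κ ≤ 4` and the weight `d(q)²`: the same proof with `d(q) ^ w`, `r ≤ 2 ^ w`, works for every `κ = r`; it is based on `bh2 κ`) for the primes `p ≤ b ^ (L / t)`, `p ∤ 2 b`, `t` large. The small primes `p ≤ 2 r + 2` (those which do not divide `2 b`) are treated by fixing a class of `OutP o` modulo their product `M` which avoids all the `- v` (`AdQ (2 b) V`); one such class gives the lower bound with a constant `c(r)`. The product over the primes `2 r + 2 < p ≤ b ^ (L / t)` is `≥ VQ (b ^ L) (2 b) V` (all factors are in `[0, 1]`). The error terms are `≤ b ^ (L - K) / L ^ A` for every `A`, and `VQ (b ^ L) (2 b) V ≥ c₂ / L ^ (r + 1)` by Mertens. -/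
def St_SL : Prop := ODc → SLc

/-- conclusion of AVM -/
def AVMc : Prop := ∀ b N : ℕ, 2 ≤ b → ∃ C : ℝ, 0 < C ∧ ∀ L K y m a S : ℕ, 1 ≤ K → K ≤ L → m < b ^ K →
  ∑ m' ∈ (range (b ^ K)).filter (fun m' => m' ≠ m ∧ a ≤ m' ∧ m' ≤ a + S), GQ (2 * b) y ((Mid b L K m' : ℤ) - Mid b L K m) ^ N ≤ C * (S + K)

/-- **AVM** (theorem `avm : AVMc`): the average of the singular factor over a window of middle blocks.

Proof. `fr b L c = b ^ (L - K + 1) * w c`, `w c = b ^ (K - 1 + c) + b ^ (K - 1 - c)` for `1 ≤ c < K`, `w 0 = b ^ (K - 1)`; so `Mid m' - Mid m = b ^ (L - K + 1) D'`, `|D'| ≤ b ^ (2 K)`, and `D' ≠ 0` (`Mid` is injective on `range (b ^ K)`: it is a number with the digits of `m` around the middle). Only the primes `p ∣ D'` count in `GQ` (`p ∤ b`). The primes `p > K` dividing `D'`: there are at most `2 K log b / log K` of them (`K ≥ 2`), so `∑ 1 / p` is bounded in terms of `b`. So `GQ ^ N ≤ C₁ ∏_{p ≤ K, p ∤ 2 b, p ∣ D'} (1 + 2 / p) ^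 N ≤ C₁ ∏ (1 + N' / p)`, `N' = 3 ^ N`, and `∏_{p ∣ D', p ≤ K} (1 + N' / p) = ∑_e N' ^ ω(e) / e` over the squarefree `e ∣ D'` composed of primes `≤ K` not dividing `2 b`.
COUNT: for fixed `e` prime to `b` the number of the `m'` in `[a, a + S]`, `m' < b ^ K`, with `e ∣ D'` is at most `3 + 2 b S / √e`: let `j ≤ K` be the largest number with `j = 0` or `b ^ (2 j - 1) ≤ e`; the window meets at most `2 + S / b ^ j` intervals `[u b ^ j, (u + 1) b ^ j)`, and in each of them at most one `m'` has `e ∣ D'`: the digits of `m'` at the positions `≥ j` are fixed, the others contribute `b ^ (K - j) P(v)` to `D'` with `P(v) = v_0 b ^ (j - 1) + ∑_{1 ≤ c < j} v_c (b ^ (j - 1 + c) + b ^ (j - 1 - c)) ∈ [0, b ^ (2 j - 1))` (`j ≥ 1`), which is injective in `v`, so it is injective modulo `e`. If `j < K` then `b ^ (2 j + 1) > e`, so `b ^ j > √(e / b)`. If `j = K` there is only one such interval, so at most one `m'`.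
The sum over `e` is at most `C ∏_{p ≤ K} (1 + N' / p) + C S ∏_p (1 + N' / p ^ (3/2)) ≤ C (log (K + 1) + 1) ^ N' + C S ≤ C' (K + S)`. -/
def St_AVM : Prop := AVMc

open Classical in
/-- the outer digits for which all the palindromes with leading digit `1` and middle block in `M` have no prime factor `≤ z`, and those with another middle block `m'`, `|m' - m| ≤ D` for some `m ∈ M`, have one -/
noncomputable def PtsT (b L K : ℕ) (M : Finset ℕ) (z D : ℝ) : Finset ℕ :=
  (range (b ^ (L - K))).filter (fun o : ℕ => (∀ m ∈ M, Ro z (Pv b L K 1 o m)) ∧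
    ∀ m' < b ^ K, m' ∉ M → (∃ m ∈ M, |((m' : ℝ) - m)| ≤ D) → ¬ Ro z (Pv b L K 1 o m'))

/-- conclusion of PT -/
def PTc : Prop := ∀ b : ℕ, 2 ≤ b → ∀ r : ℕ, ∃ t : ℕ, 1 ≤ t ∧ ∀ T : ℕ, t ≤ T → ∃ c : ℝ, 0 < c ∧ ∃ ν : ℝ, 0 < ν ∧ ∀ U : ℝ, 0 < U → ∃ L0 : ℕ, ∀ L : ℕ, L0 ≤ L → ∀ K : ℕ, 1 ≤ K → (K : ℝ) ≤ U * Real.log L →
  ∀ M : Finset ℕ, M.Nonempty → M.card ≤ r → (∀ m ∈ M, m < b ^ K ∧ (Even b ∨ Odd (m % b))) → AdQ (2 * b) (M.image (fun m => (Mid b L K m : ℤ))) →
    c * ((b : ℝ) ^ (L - K) * VQ (b ^ L) (2 * b) (M.image (fun m => (Mid b L K m : ℤ)))) ≤ ((PtsT b L K M ((b : ℝ) ^ ((L : ℝ) / T)) (ν * L)).card : ℝ)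

/-- **PT** (theorem `pt : St_PT`): tuples of palindromes with prescribed middle blocks, isolated.

Proof. `t`, `c₀` from `SLc b r`; `T ≥ t`, `z = b ^ (L / T) ≤ b ^ (L / t)`. `V₀ = {Mid m : m ∈ M}`, `a = b ^ (2 L) + 1`, `V = V₀ + a`: `Pv b L K 1 o m = OutP o + (Mid m + a)`; `oF V = oF V₀`, so `VQ .. V = VQ .. V₀ =: W`, `AdQ (2 b) V`. LOWER BOUND: `SLc` gives `≥ c₀ b ^ (L - K) W` numbers `o` such that no prime `p ∤ 2 b`, `p ≤ z`, divides any of the `Pv b L K 1 o m`, `m ∈ M`. The primes `p ∣ b`: `Pv ≡ 1 (mod p)` since `p ∣ fr b L c` for `c < L` (`L ≥ 1`, `K ≤ L`). The prime `2` for odd `b`: `fr b L c` is even for `c ≥ 1`, `fr b L 0 = b ^ L` is odd, `b ^ (2 L) + 1` is even, so `Pv ≡ m % b ≡ 1 (mod 2)`. So `Ro z` holds.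
EXCEPTIONS: the `m' ∉ M`, `m' < b ^ K`, `|m' - m| ≤ ν L` for some `m ∈ M`, with `Ro z (Pv b L K 1 o m')`: the number of the `o` with all of `V ∪ {Mid m' + a}` rough is at most `C b ^ (L - K) VQ (b ^ L) (2 b) (V ∪ {v'})` (`SUc b (r + 1) T`) `≤ C b ^ (L - K) W VQ (b ^ L) (2 b) {v'} (∏_{m ∈ M} GQ (2 b) (b ^ L) (Mid m' - Mid m)) ^ N` (`St_MGL` with `u = q = 2 b`, `s = 0`, `k = r + 1`, `F = {v'}`), `VQ (b ^ L) (2 b) {v'} ≤ C_b / L` (Mertens). `∏_{m ∈ M} x_m ^ N ≤ ∑_{m ∈ M} x_m ^ (N r)` for `x_m ≥ 1`.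
SUM over the `m'` with `|m' - m₁| ≤ ν L` for a fixed `m₁ ∈ M`: by `AVMc` with `a = m₁ - ⌊ν L⌋` (or `0`), `S = 2 ⌊ν L⌋ + 1`, for every `m ∈ M`: at most `r C (2 ν L + 1 + K)`. The total is `≤ C'' b ^ (L - K) W (ν L + 1 + K) / L`, and `K ≤ U log L`: `ν = c₀ / (8 C'')`, `L` large, `c = c₀ / 2`. -/
def St_PT : Prop := SLc → SUc → St_MGL → AVMc → PTc

/-- the palindrome with `2 L + 1` digits whose left half (with the middle digit) is `l` -/
def Pl (b L l : ℕ) : ℕ := ∑ c ∈ range (L + 1), (l / b ^ c % b) * fr b L c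

/-- the palindromes with `2 L + 1` digits -/
def Pal (b L : ℕ) : Finset ℕ := (range (b ^ (2 * L + 1))).filter (fun n => b ^ (2 * L) ≤ n ∧ (Nat.digits b n).reverse = Nat.digits b n)

/-- conclusion of PD -/
def PDc : Prop := ∀ b L : ℕ, 2 ≤ b → 1 ≤ L →
  (∀ n : ℕ, n ∈ Pal b L ↔ ∃ l : ℕ, b ^ L ≤ l ∧ l < b ^ (L + 1) ∧ n = Pl b L l) ∧
  (∀ l l' : ℕ, l < b ^ (L + 1) → l' < b ^ (L + 1) → |((Pl b L l' : ℤ) - Pl b L l) - ((l' : ℤ) - l) * b ^ L| < b ^ L) ∧
  (∀ l l' : ℕ, l < b ^ (L + 1) → l' < b ^ (L + 1) → Pl b L l = Pl b L l' → l = l') ∧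
  ∀ K l o m : ℕ, K ≤ L → l < b → o < b ^ (L - K) → m < b ^ K → Pl b L (l * b ^ L + o * b ^ K + m) = Pv b L K l o m

/-- **PD** (theorem `pd : PDc`): digits.

Proof. With the digits `d_c = l / b ^ c % b`, `c ≤ L`: `Pl b L l = d_0 b ^ L + ∑_{1 ≤ c ≤ L} d_c (b ^ (L + c) + b ^ (L - c)) = l b ^ L + ∑_{1 ≤ c ≤ L} d_c b ^ (L - c)`, the last sum is in `[0, b ^ L)`: this gives the second assertion, and the third one (the quotient of `Pl b L l` by `b ^ L` is `l`). The base `b` digits of `Pl b L l` are `d_L, .., d_1, d_0, d_1, .., d_L` (see `Pool.Agent.H181R5.PBT9` (`PB_T9.lean`), `W139/PX/D4.lean` (`dig2`), `Y816/PS/B.lean` for such facts): it is a palindrome, with `2 L + 1` digits if `d_L ≥ 1`, and every palindrome with `2 L + 1` digits is of this form with `l = n / b ^ L`. The last assertion: the digits of `l b ^ L + o b ^ K + m` are those of `m` at `c < K`, those of `o` at `K ≤ c < L`, and `l` at `c = L`; `fr b L L = b ^ (2 L) + 1`.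 -/
def St_PD : Prop := PDc

open Classical in
/-- the palindromes with `2 L + 1` digits without prime factors `≤ z` which have another one at distance `≤ D` -/
noncomputable def Clus (b L : ℕ) (z D : ℝ) : Finset ℕ :=
  (Pal b L).filter (fun n : ℕ => Ro z n ∧ ∃ n' ∈ Pal b L, n' ≠ n ∧ |((n' : ℝ) - n)| ≤ D ∧ Ro z n')

open Classical in
/-- the palindromes with `2 L + 1` digits with at most `R` prime factors, all `> w`, for which all the other palindromes with `2 L + 1` digits at distance `≤ D` have a prime factor `≤ z` -/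
noncomputable def Isol (b L R : ℕ) (w z D : ℝ) : Finset ℕ :=
  (Pal b L).filter (fun n : ℕ => n.primeFactorsList.length ≤ R ∧ (∀ p : ℕ, p.Prime → p ∣ n → w < p) ∧
    ∀ n' ∈ Pal b L, n' ≠ n → |((n' : ℝ) - n)| ≤ D → ¬ Ro z n')

/-- conclusion of PA -/
def PAc : Prop := ∀ b T : ℕ, 2 ≤ b → 1 ≤ T → (∃ C : ℝ, 0 < C ∧ ∃ L0 : ℕ, ∀ L : ℕ, L0 ≤ L → ∀ S : ℝ, 0 ≤ S → S ≤ L →
    ((Clus b L ((b : ℝ) ^ ((L : ℝ) / T)) (S * b ^ L)).card : ℝ) ≤ C * (S + Real.log L) * (b : ℝ) ^ L / (L : ℝ) ^ 2) ∧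
  (13 ≤ T → ∃ c : ℝ, 0 < c ∧ ∃ ν : ℝ, 0 < ν ∧ ∃ L0 : ℕ, ∀ L : ℕ, L0 ≤ L →
    c * (b : ℝ) ^ L / L ≤ ((Isol b L (if 1000 ≤ b then 3 else if 64 ≤ b then 4 else 5) ((b : ℝ) ^ ((L : ℝ) / 13)) ((b : ℝ) ^ ((L : ℝ) / T)) (ν * L * b ^ L)).card : ℝ))

/-- **PA** (theorem `pa : St_PA`): clusters of palindromes without small prime factors are rare; isolated palindromes with few prime factors.

Proof. `K = ⌈4 log L / log b⌉₊`, so `L ^ 4 ≤ b ^ K`, `K ≤ C log L`, `2 K ≤ L`; `z = b ^ (L / T)`. By `PDc` the palindromes are the `Pl b L l'` with `l' = l b ^ L + o b ^ K + m`, `1 ≤ l < b`, `o < b ^ (L - K)`, `m < b ^ K`, and `|n' - n| ≤ S b ^ L` implies `|l'' - l'| ≤ S + 1` for the left halves. FIRST PART. (a) pairs with the same `l` and `o`: for fixed `l`, `m ≠ m'`: the number of the `o` with both `Pv b L K l o m` and `Pv b L K l o m'` in `Ro z` is at most `C b ^ (L - K) VQ (b ^ L) (2 b) {v, v'}` (`SUc b 2 T`, `v = l (b ^ (2 L) + 1) + Mid m`),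 and by `St_MGL` (`u = q = 2 b`, `s = 0`, `k = 1`, `V = {v}`, `F = {v'}`; `v ≠ v'` as `Mid` is injective, see AVM) this is
`≤ C b ^ (L - K) VQ {v} VQ {v'} GQ (2 b) (b ^ L) (v' - v) ^ 3 ≤ C_b b ^ (L - K) L ^ (-2) GQ (2 b) (b ^ L) (Mid m' - Mid m) ^ 3` (Mertens). Sum over `l < b`, `m < b ^ K` and the `m'` with `|m' - m| ≤ S + 1` by `AVMc`: at most `C b ^ L (S + 1 + K) / L ^ 2`. (b) pairs with different `(l, o)`: then `m` is within `S + 1` of `0` or of `b ^ K`, at most `2 (S + 2)` values of `m`, and for each of them and each `l` at most `C b ^ (L - K) / L` values of `o` (`SUc b 1 T`, Mertens): in total `≤ C (S + 2) b ^ (L - K) / L ≤ C (S + 2) b ^ L / L ^ 5`.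
SECOND PART. `Pool.Agent.W139.PX.finU` (`W139/PX/F4.lean`): at least `c₀ b ^ L / L` elements of `Pal b L` have at most `3`, `4` or `5` prime factors, all `> b ^ (L / 13) ≥ z` (so they are in `Ro z`; a prime factor of `n` is an element of `n.primeFactorsList`, `n ≠ 0`). Those which are not in `Isol` are in `Clus b L z (ν L b ^ L)`: at most `C (ν L + log L) b ^ L / L ^ 2` by the first part (`ν ≤ 1`). `ν = c₀ / (4 C)`, `c = c₀ / 2`. -/
def St_PA : Prop := PDc → SUc → St_MGL → AVMc → PAc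

end Pool.Agent.Q117.PL
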