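import Pool.Agent.Y816.PD.Sv

/-!
Project PL (helper117), jobs SU and SL: a two-sided sieve of any dimension for a set of natural numbers with a level of distribution (as `svG`,
`Y816/PS/G.lean`, with a general power of the divisor function as weight).
-/

set_option autoImplicit false

namespace Pool.Agent.Q117.PL.SUa

open Finset Pool.Agent.H373R2.T7 Pool.Agent.H410R2.ED Pool.Agent.Helper112.LP
open Pool.Agent.Helper112.LP.Kba Pool.Agent.Helper112.LP.Kbh Pool.Agent.H483R2.BHKD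
open Pool.Agent.Y816.PD (bh2 crt_card)

open Classical in
lemma local_gen {S : Finset ℕ} {X : ℝ} {ER : ℕ → ℝ} {b : ℕ}
    (hS : ∀ q h : ℕ, q.Coprime (2 * b) → |((S.filter (fun n => n % q = h % q)).card : ℝ) - X / q| ≤ ER q)
    (M n0 : ℕ) (hM : 0 < M) (hMb : M.Coprime (2 * b))
    (Q : ℕ → ℕ → Prop) (hper : ∀ p n, Q p n ↔ Q p (n % p)) (D : Finset ℕ) (hD : ∀ l ∈ D, l.Prime)
    (hDM : ∀ l ∈ D, ¬ l ∣ M) (hDb : ∀ l ∈ D, ¬ l ∣ 2 * b) :
    |((S.filter (fun n => n % M = n0 % M ∧ ∀ l ∈ D, Q l n)).card : ℝ) -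
      X / M * ∏ l ∈ D, ((nuB Q l : ℝ) / l)| ≤ (∏ l ∈ D, (nuB Q l : ℝ)) * ER (M * ∏ l ∈ D, l) := by
  obtain ⟨x, hx⟩ : ∃ x, x = M * ∏ l ∈ D, l := ⟨_, rfl⟩
  have hx0 : 0 < x := by
    rw [hx]
    exact Nat.mul_pos hM (prod_pos fun l' h => (hD l' h).pos)
  have hxc : x.Coprime (2 * b) := by
    rw [hx]
    exact Nat.Coprime.mul_left hMb (Nat.Coprime.prod_left fun l hl =>
      (Nat.Prime.coprime_iff_not_dvd (hD l hl)).2 (hDb l hl))
  obtain ⟨T, hT⟩ : ∃ T, T = (range x).filter (fun h => h % M = n0 % M ∧ ∀ l ∈ D, Q l (h % l)) := ⟨_, rfl⟩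
  have hTc : T.card = ∏ l ∈ D, nuB Q l := by
    rw [hT, hx, crt_card Q M n0 hM D hD hDM]
    apply prod_congr rfl
    intro l _
    unfold nuB
    congr
  have hMx : M ∣ x := ⟨_, hx⟩
  have hDx : ∀ l' ∈ D, l' ∣ x := fun l' h => by
    rw [hx]
    exact (dvd_prod_of_mem (fun l => l) h).mul_left _
  have hmaps : ∀ n ∈ S.filter (fun n => n % M = n0 % M ∧ ∀ l ∈ D, Q l n), n % x ∈ T := by
    intro n hn
    rw [mem_filter] at hn
    rw [hT, mem_filter, mem_range]
    refine ⟨Nat.mod_lt _ hx0, ?_, ?_⟩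
    · rw [Nat.mod_mod_of_dvd _ hMx]
      exact hn.2.1
    · intro l hl
      rw [Nat.mod_mod_of_dvd _ (hDx l hl), ← hper]
      exact hn.2.2 l hl
  have h1 : ((S.filter (fun n => n % M = n0 % M ∧ ∀ l ∈ D, Q l n)).card : ℝ) =
      ∑ h ∈ T, ((S.filter (fun n => n % x = h % x)).card : ℝ) := by
    rw [card_eq_sum_card_fiberwise hmaps]
    push_cast
    apply sum_congr rfl
    intro h hh
    rw [hT, mem_filter, mem_range] at hh
    rw [filter_filter]
    congr 2
    apply filter_congr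
    intro n _
    rw [Nat.mod_eq_of_lt hh.1]
    constructor
    · exact fun h6 => h6.2
    · intro h6
      refine ⟨⟨?_, ?_⟩, h6⟩
      · rw [← Nat.mod_mod_of_dvd n hMx, h6]
        exact hh.2.1
      · intro l hl
        rw [hper, ← Nat.mod_mod_of_dvd n (hDx l hl), h6]
        exact hh.2.2 l hl
  have h2 : X / M * ∏ l ∈ D, ((nuB Q l : ℝ) / l) = ∑ h ∈ T, X / x := by
    rw [sum_const, nsmul_eq_mul, hTc, hx, prod_div_distrib]
    push_cast
    field_simp
  have h3 : (∏ l ∈ D, (nuB Q l : ℝ)) * ER x = ∑ h ∈ T, ER x := by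
    rw [sum_const, nsmul_eq_mul, hTc]
    push_cast
    rfl
  rw [h1, h2, ← sum_sub_distrib, ← hx, h3]
  exact (abs_sum_le_sum_abs _ _).trans (sum_le_sum fun h _ => hS x h hxc)

lemma pow_card_le_tau {κ M w : ℕ} (hκw : κ ≤ 2 ^ w) (hM : 0 < M) (D : Finset ℕ) (hD : ∀ l ∈ D, l.Prime) :
    (κ : ℝ) ^ D.card ≤ ((M * ∏ l ∈ D, l).divisors.card : ℝ) ^ w := by
  classical
  have h1 : 2 ^ D.card ≤ (M * ∏ l ∈ D, l).divisors.card := by
    rw [← card_powerset]
    apply card_le_card_of_injOn (fun T => ∏ l ∈ T, l)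
    · intro T hT
      rw [mem_coe, mem_powerset] at hT
      rw [mem_coe, Nat.mem_divisors]
      refine ⟨(prod_dvd_prod_of_subset _ _ _ hT).mul_left _, ?_⟩
      exact (Nat.mul_pos hM (prod_pos fun l h => (hD l h).pos)).ne'
    · intro T hT T' hT' h
      rw [mem_coe, mem_powerset] at hT hT'
      have h2 := Nat.primeFactors_prod (s := T) (fun l hl => hD l (hT hl))
      have h3 := Nat.primeFactors_prod (s := T') (fun l hl => hD l (hT' hl))
      simp only at h
      rw [← h2, ← h3, h]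
  have h2 : ((2 : ℝ) ^ D.card) ≤ ((M * ∏ l ∈ D, l).divisors.card : ℝ) := by exact_mod_cast h1
  calc (κ : ℝ) ^ D.card ≤ ((2 : ℝ) ^ w) ^ D.card := by
        apply pow_le_pow_left₀ (Nat.cast_nonneg _)
        exact_mod_cast hκw
    _ = ((2 : ℝ) ^ D.card) ^ w := by rw [← pow_mul, ← pow_mul, mul_comm]
    _ ≤ _ := pow_le_pow_left₀ (by positivity) h2 w

open Classical in
/-- **The sieve** -/
theorem svW (κ : ℕ) (hκ : 1 ≤ κ) : ∃ c : ℕ, 1 ≤ c ∧ ∀ (w : ℕ), κ ≤ 2 ^ w → ∀ (b : ℕ) (S : Finset ℕ) (X : ℝ) (ER : ℕ → ℝ),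
    0 ≤ X → (∀ q, 0 ≤ ER q) →
    (∀ q h : ℕ, q.Coprime (2 * b) → |((S.filter (fun n => n % q = h % q)).card : ℝ) - X / q| ≤ ER q) →
    ∀ M : ℕ, 0 < M → M.Coprime (2 * b) → (∀ p : ℕ, p.Prime → p ∣ M → p ≤ 2 * κ) →
    ∀ Q : ℕ → ℕ → Prop, PerB Q κ → ∀ (n0 J Y : ℕ), M * (2 ^ 2 ^ J) ^ c ≤ Y →
    (X / M / 2 * (∏ l ∈ (Pr κ J).filter (fun l => ¬ l ∣ b), (1 - (nuB Q l : ℝ) / l)) -
      2 ^ J * ∑ q ∈ (Icc 1 Y).filter (fun q => q.Coprime (2 * b)), (q.divisors.card : ℝ) ^ w * ER q ≤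
      ((S.filter (fun n => n % M = n0 % M ∧ ∀ l ∈ Pr κ J, ¬ l ∣ b → ¬ Q l n)).card : ℝ)) ∧
    ((S.filter (fun n => n % M = n0 % M ∧ ∀ l ∈ Pr κ J, ¬ l ∣ b → ¬ Q l n)).card : ℝ) ≤
      2 * (X / M) * (∏ l ∈ (Pr κ J).filter (fun l => ¬ l ∣ b), (1 - (nuB Q l : ℝ) / l)) +
      ∑ q ∈ (Icc 1 Y).filter (fun q => q.Coprime (2 * b)), (q.divisors.card : ℝ) ^ w * ER q := by
  obtain ⟨c, hc, hbh⟩ := bh2 κ hκ
  refine ⟨c, hc, ?_⟩
  intro w hκw b S X ER hX hER hS M hM hMb hMs Q hQ n0 J Y hY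
  have hPp : ∀ l ∈ Pr κ J, l.Prime := fun l hl => (mem_filter.1 hl).2.1
  have hPk : ∀ l ∈ Pr κ J, 2 * κ < l := fun l hl => (mem_filter.1 hl).2.2
  obtain ⟨f, hf⟩ : ∃ f : ℕ → ℕ, f = fun n => ∏ l ∈ (Pr κ J).filter (fun l => ¬ l ∣ b ∧ Q l n), l := ⟨_, rfl⟩
  have hfd : ∀ l ∈ Pr κ J, ∀ n, l ∣ f n ↔ (¬ l ∣ b ∧ Q l n) := by
    intro l hl n
    rw [hf]
    simp only
    constructor
    · intro h
      obtain ⟨l', hl', hd⟩ := (Nat.Prime.prime (hPp l hl)).exists_mem_finset_dvd h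
      rw [mem_filter] at hl'
      have := (Nat.prime_dvd_prime_iff_eq (hPp l hl) (hPp l' hl'.1)).1 hd
      rw [this]
      exact hl'.2
    · intro h
      exact dvd_prod_of_mem (fun l => l) (mem_filter.2 ⟨hl, h⟩)
  obtain ⟨g, hg⟩ : ∃ g : ℕ → ℝ, g = fun l => if l ∣ b then 0 else (nuB Q l : ℝ) / l := ⟨_, rfl⟩
  obtain ⟨err, herr⟩ : ∃ err : Finset ℕ → ℝ, err = fun D => if ∀ l ∈ D, ¬ l ∣ b then
      (κ : ℝ) ^ D.card * ER (M * ∏ l ∈ D, l) else 0 := ⟨_, rfl⟩
  have hmain := (hbh g (by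
    intro l hl hl2
    have hl0 : (0 : ℝ) < l := by exact_mod_cast hl.pos
    rw [hg]
    simp only
    split_ifs
    · exact ⟨le_rfl, by positivity⟩
    · refine ⟨by positivity, div_le_div_of_nonneg_right ?_ hl0.le⟩
      exact_mod_cast hQ.few l hl) J (S.filter (fun n => n % M = n0 % M)) f (fun _ => 1)
    (X / M) err (by positivity)
    (fun _ _ => zero_le_one) (by
      intro D
      rw [herr]
      simp only
      split_ifs
      · exact mul_nonneg (by positivity) (hER _)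
      · exact le_rfl) (by
      intro D hD _
      have hDp : ∀ l ∈ D, l.Prime := fun l hl => hPp l (hD hl)
      rw [sum_const, nsmul_eq_mul, mul_one, herr]
      simp only
      split_ifs with hDb
      · have h1 := local_gen hS M n0 hM hMb Q hQ.per D hDp (by
          intro l hl hlM
          have := hMs l (hDp l hl) hlM
          have := hPk l (hD hl)
          omega) (by
          intro l hl hd
          rcases (Nat.Prime.dvd_mul (hDp l hl)).1 hd with h | h
          · have := Nat.le_of_dvd (by norm_num) h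
            have := hPk l (hD hl)
            omega
          · exact hDb l hl h)
        have e1 : (S.filter (fun n => n % M = n0 % M)).filter (fun n => ∀ l ∈ D, l ∣ f n) =
            S.filter (fun n => n % M = n0 % M ∧ ∀ l ∈ D, Q l n) := by
          rw [filter_filter]
          apply filter_congr
          intro n _
          apply and_congr_right
          intro _
          constructor
          · exact fun h l hl => ((hfd l (hD hl) n).1 (h l hl)).2
          · exact fun h l hl => (hfd l (hD hl) n).2 ⟨hDb l hl, h l hl⟩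
        have e2 : ∏ l ∈ D, g l = ∏ l ∈ D, ((nuB Q l : ℝ) / l) := by
          apply prod_congr rfl
          intro l hl
          rw [hg]
          simp only
          rw [if_neg (hDb l hl)]
        rw [e1, e2]
        refine h1.trans ?_
        apply mul_le_mul_of_nonneg_right _ (hER _)
        rw [← prod_const]
        apply prod_le_prod (fun l _ => by positivity)
        intro l hl
        exact_mod_cast hQ.few l (hDp l hl)
      · push Not at hDb
        obtain ⟨l, hl, hlb⟩ := hDb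
        have e1 : (S.filter (fun n => n % M = n0 % M)).filter (fun n => ∀ l ∈ D, l ∣ f n) = ∅ := by
          rw [filter_eq_empty_iff]
          intro n _ h
          exact ((hfd l (hD hl) n).1 (h l hl)).1 hlb
        have e2 : ∏ l ∈ D, g l = 0 := by
          apply prod_eq_zero hl
          rw [hg]
          simp only
          rw [if_pos hlb]
        rw [e1, e2]
        simp))
  have e3 : ∑ n ∈ (S.filter (fun n => n % M = n0 % M)).filter
      (fun n => ∀ l ∈ Pr κ J, ¬ l ∣ f n), (1 : ℝ) =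
      ((S.filter (fun n => n % M = n0 % M ∧ ∀ l ∈ Pr κ J, ¬ l ∣ b → ¬ Q l n)).card : ℝ) := by
    rw [sum_const, nsmul_eq_mul, mul_one, filter_filter]
    congr 2
    apply filter_congr
    intro n _
    apply and_congr_right
    intro _
    constructor
    · exact fun h l hl hlb hq => h l hl ((hfd l hl n).2 ⟨hlb, hq⟩)
    · exact fun h l hl hd => h l hl ((hfd l hl n).1 hd).1 ((hfd l hl n).1 hd).2
  have e4 : ∏ l ∈ Pr κ J, (1 - g l) =
      ∏ l ∈ (Pr κ J).filter (fun l => ¬ l ∣ b), (1 - (nuB Q l : ℝ) / l) := by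
    rw [prod_filter]
    apply prod_congr rfl
    intro l _
    rw [hg]
    simp only
    split_ifs <;> simp
  rw [e3, e4] at hmain
  -- the errors
  have hEle : ∑ D ∈ (Pr κ J).powerset.filter (fun D => ∏ l ∈ D, l ≤ (2 ^ 2 ^ J) ^ c), err D ≤
      ∑ q ∈ (Icc 1 Y).filter (fun q => q.Coprime (2 * b)), (q.divisors.card : ℝ) ^ w * ER q := by
    obtain ⟨W, hW⟩ : ∃ W, W = ((Pr κ J).powerset.filter (fun D => ∏ l ∈ D, l ≤ (2 ^ 2 ^ J) ^ c)).filter
        (fun D => ∀ l ∈ D, ¬ l ∣ b) := ⟨_, rfl⟩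
    have e5 : ∑ D ∈ (Pr κ J).powerset.filter (fun D => ∏ l ∈ D, l ≤ (2 ^ 2 ^ J) ^ c), err D =
        ∑ D ∈ W, (κ : ℝ) ^ D.card * ER (M * ∏ l ∈ D, l) := by
      rw [hW, sum_filter (fun D => ∀ l ∈ D, ¬ l ∣ b), herr]
    have hWp : ∀ D ∈ W, ∀ l ∈ D, l ∈ Pr κ J := by
      intro D hD l hl
      rw [hW, mem_filter, mem_filter, mem_powerset] at hD
      exact hD.1.1 hl
    have hinj : Set.InjOn (fun D : Finset ℕ => M * ∏ l ∈ D, l) W := by
      intro D hD D' hD' h
      simp only at h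
      have h1 := Nat.eq_of_mul_eq_mul_left hM h
      rw [← Nat.primeFactors_prod (s := D) (fun l hl => hPp l (hWp D hD l hl)),
        ← Nat.primeFactors_prod (s := D') (fun l hl => hPp l (hWp D' hD' l hl)), h1]
    rw [e5]
    calc ∑ D ∈ W, (κ : ℝ) ^ D.card * ER (M * ∏ l ∈ D, l)
        ≤ ∑ D ∈ W, ((M * ∏ l ∈ D, l).divisors.card : ℝ) ^ w * ER (M * ∏ l ∈ D, l) :=
          sum_le_sum fun D hD => mul_le_mul_of_nonneg_right
            (pow_card_le_tau hκw hM D (fun l hl => hPp l (hWp D hD l hl))) (hER _)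
      _ = ∑ q ∈ W.image (fun D : Finset ℕ => M * ∏ l ∈ D, l), (q.divisors.card : ℝ) ^ w * ER q :=
          (sum_image (f := fun q : ℕ => (q.divisors.card : ℝ) ^ w * ER q) hinj).symm
      _ ≤ _ := by
          apply sum_le_sum_of_subset_of_nonneg
          · intro q hq
            rw [mem_image] at hq
            obtain ⟨D, hD, rfl⟩ := hq
            have hD' := hD
            rw [hW, mem_filter, mem_filter, mem_powerset] at hD'
            rw [mem_filter, mem_Icc]
            refine ⟨⟨Nat.mul_pos hM (prod_pos fun l hl => (hPp l (hWp D hD l hl)).pos), ?_⟩, ?_⟩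
            · exact (Nat.mul_le_mul_left M hD'.1.2).trans hY
            · refine Nat.Coprime.mul_left hMb (Nat.Coprime.prod_left fun l hl => ?_)
              have hlp := hPp l (hWp D hD l hl)
              refine (Nat.Prime.coprime_iff_not_dvd hlp).2 fun hd => ?_
              rcases (Nat.Prime.dvd_mul hlp).1 hd with h | h
              · have := Nat.le_of_dvd (by norm_num) h
                have := hPk l (hWp D hD l hl)
                omega
              · exact hD'.2 l hl h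
          · intro q _ _
            exact mul_nonneg (by positivity) (hER q)
  have hJ : (J : ℝ) + 1 ≤ 2 ^ J := by
    have : J + 1 ≤ 2 ^ J := Nat.lt_two_pow_self
    exact_mod_cast this
  have hR0 : 0 ≤ ∑ q ∈ (Icc 1 Y).filter (fun q => q.Coprime (2 * b)), (q.divisors.card : ℝ) ^ w * ER q :=
    sum_nonneg fun q _ => mul_nonneg (by positivity) (hER q)
  have hE0 : 0 ≤ ∑ D ∈ (Pr κ J).powerset.filter (fun D => ∏ l ∈ D, l ≤ (2 ^ 2 ^ J) ^ c), err D := by
    apply sum_nonneg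
    intro D _
    rw [herr]
    simp only
    split_ifs
    · exact mul_nonneg (by positivity) (hER _)
    · exact le_rfl
  obtain ⟨hm1, hm2⟩ := hmain
  have hEJ : ((J : ℝ) + 1) * ∑ D ∈ (Pr κ J).powerset.filter (fun D => ∏ l ∈ D, l ≤ (2 ^ 2 ^ J) ^ c), err D ≤
      2 ^ J * ∑ q ∈ (Icc 1 Y).filter (fun q => q.Coprime (2 * b)), (q.divisors.card : ℝ) ^ w * ER q :=
    mul_le_mul hJ hEle hE0 (by positivity)
  exact ⟨by linarith, by linarith⟩

end Pool.Agent.Q117.PL.SUa
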