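import Pool.Agent.Q117.PL.Stm
import Pool.Agent.Q117.PL.Svw
import Pool.Agent.Q117.MG.Smu

/-!
Project PL (helper117), jobs SU and SL: the two-sided sieve for the outer digits.
-/

set_option autoImplicit false

namespace Pool.Agent.Q117.PL.SUa

open Finset Pool.Agent.H373R2.T7 Pool.Agent.H410R2.ED
open Pool.Agent.H39R3.PB (fr)
open Pool.Agent.Q117.LF (oF)
open Pool.Agent.Q117.PL (OutP ODc)

/-- the condition at a prime -/
def Qv (V : Finset ℤ) (l n : ℕ) : Prop := ∃ v ∈ V, (l : ℤ) ∣ (n : ℤ) + v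

lemma dvd_mod_add (p n : ℕ) (v : ℤ) : (p : ℤ) ∣ ((n % p : ℕ) : ℤ) + v ↔ (p : ℤ) ∣ (n : ℤ) + v := by
  have e1 : (n : ℤ) + v = ((n % p : ℕ) : ℤ) + v + p * ((n / p : ℕ) : ℤ) := by
    have : (n : ℤ) = ((n % p : ℕ) : ℤ) + p * ((n / p : ℕ) : ℤ) := by
      exact_mod_cast (Nat.mod_add_div n p).symm
    linarith
  rw [e1]
  exact (dvd_add_left (dvd_mul_right _ _)).symm

lemma Qv_per (V : Finset ℤ) (p n : ℕ) : Qv V p n ↔ Qv V p (n % p) := by
  unfold Qv
  constructor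
  · rintro ⟨v, hv, h⟩
    exact ⟨v, hv, (dvd_mod_add p n v).2 h⟩
  · rintro ⟨v, hv, h⟩
    exact ⟨v, hv, (dvd_mod_add p n v).1 h⟩

lemma nuB_Qv (V : Finset ℤ) {p : ℕ} (hp : 0 < p) : nuB (Qv V) p = oF V p := by
  classical
  have hp' : (0 : ℤ) < p := by exact_mod_cast hp
  unfold nuB oF
  refine card_bij (fun r _ => (-(r : ℤ)) % (p : ℤ)) ?_ ?_ ?_
  · intro r hr
    rw [mem_filter, mem_range] at hr
    obtain ⟨v, hv, hd⟩ := hr.2
    rw [mem_image]
    refine ⟨v, hv, ?_⟩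
    have : v % (p : ℤ) = (-(r : ℤ)) % p := by
      apply (Int.emod_emod_of_dvd v (dvd_refl (p : ℤ))).symm.trans
      rw [Int.emod_emod_of_dvd v (dvd_refl (p : ℤ))]
      apply Int.ModEq.symm
      apply (Int.modEq_iff_dvd).2
      have : v - -(r : ℤ) = (r : ℤ) + v := by ring
      rw [this]
      exact hd
    exact this
  · intro r hr s hs hrs
    rw [mem_filter, mem_range] at hr hs
    have h1 : (-(r : ℤ)) % (p : ℤ) = (-(s : ℤ)) % (p : ℤ) := hrs
    have h2 : (p : ℤ) ∣ -(s : ℤ) - -(r : ℤ) := (Int.modEq_iff_dvd).1 h1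
    have h3 : -(s : ℤ) - -(r : ℤ) = 0 := by
      apply Int.eq_zero_of_abs_lt_dvd h2
      rw [abs_lt]
      constructor <;> omega
    omega
  · intro x hx
    rw [mem_image] at hx
    obtain ⟨v, hv, rfl⟩ := hx
    have h0 := Int.emod_nonneg (-v) hp'.ne'
    have h1 := Int.emod_lt_of_pos (-v) hp'
    refine ⟨((-v) % (p : ℤ)).toNat, ?_, ?_⟩
    · rw [mem_filter, mem_range]
      refine ⟨by omega, v, hv, ?_⟩
      rw [Int.toNat_of_nonneg h0]
      have h2 : (-v) % (p : ℤ) + v = -((p : ℤ) * (-v / p)) := by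
        have := Int.emod_add_mul_ediv (-v) p
        linarith
      rw [h2]
      exact (dvd_mul_right _ _).neg_right
    · show (-((((-v) % (p : ℤ)).toNat : ℕ) : ℤ)) % (p : ℤ) = v % p
      rw [Int.toNat_of_nonneg h0]
      apply Int.ModEq.symm
      apply (Int.modEq_iff_dvd).2
      have h2 : -((-v) % (p : ℤ)) - v = (p : ℤ) * (-v / p) := by
        have := Int.emod_add_mul_ediv (-v) p
        linarith
      rw [h2]
      exact dvd_mul_right _ _

lemma nuB_le_card (V : Finset ℤ) {p : ℕ} (hp : 0 < p) : nuB (Qv V) p ≤ V.card := by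
  rw [nuB_Qv V hp]
  exact card_image_le

lemma PerB_Qv {V : Finset ℤ} {κ : ℕ} (hV : V.card ≤ κ) : PerB (Qv V) κ :=
  ⟨Qv_per V, fun _ hp => (nuB_le_card V hp.pos).trans hV⟩

/-- the outer part determines the outer digits -/
lemma OutP_inj {b L K : ℕ} (hb : 2 ≤ b) (hK : 1 ≤ K) (hKL : K ≤ L) : Set.InjOn (OutP b L K) (range (b ^ (L - K)) : Finset ℕ) := by
  have hdig : ∀ v j : ℕ, ∑ c ∈ range j, (v / b ^ c % b) * b ^ c = v % b ^ j := by
    intro v j
    induction j with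
    | zero => simp [Nat.mod_one]
    | succ j ih => rw [sum_range_succ, ih, Nat.mod_pow_succ, Nat.mul_comm (b ^ j)]
  have key : ∀ o, o < b ^ (L - K) → OutP b L K o / b ^ (L + K) = o := by
    intro o ho
    have h1 : OutP b L K o = (∑ c ∈ range (L - K), (o / b ^ c % b) * b ^ (L - (K + c))) + o * b ^ (L + K) := by
      have h2 := hdig o (L - K)
      rw [Nat.mod_eq_of_lt ho] at h2
      nth_rewrite 3 [← h2]
      rw [sum_mul, ← sum_add_distrib]
      unfold OutP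
      refine sum_congr rfl fun c _ => ?_
      unfold fr
      rw [if_neg (by omega), mul_add, mul_assoc ((o / b ^ c) % b), ← pow_add, show c + (L + K) = L + (K + c) by omega]
      ring
    have h3 : ∑ c ∈ range (L - K), (o / b ^ c % b) * b ^ (L - (K + c)) < b ^ (L + K) := by
      have h4 : ∀ n, n ≤ L - K → ∑ c ∈ range n, (o / b ^ c % b) * b ^ (L - (K + c)) + b ^ (L - (K + n) + 1) ≤ b ^ (L - K + 1) := by
        intro n
        induction n with
        | zero => intro _; simp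
        | succ n ih =>
          intro hn
          have h5 := ih (by omega)
          rw [sum_range_succ]
          have h6 : o / b ^ n % b + 1 ≤ b := Nat.mod_lt _ (by omega)
          have h7 : (o / b ^ n % b) * b ^ (L - (K + n)) + b ^ (L - (K + n)) ≤ b ^ (L - (K + n) + 1) := by
            calc (o / b ^ n % b) * b ^ (L - (K + n)) + b ^ (L - (K + n)) = (o / b ^ n % b + 1) * b ^ (L - (K + n)) := by ring
              _ ≤ b * b ^ (L - (K + n)) := Nat.mul_le_mul_right _ h6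
              _ = _ := by rw [pow_succ]; ring
          have h8 : L - (K + (n + 1)) + 1 = L - (K + n) := by omega
          rw [h8]
          omega
      have h5 := h4 (L - K) le_rfl
      have h6 : b ^ (L - K + 1) ≤ b ^ (L + K) := Nat.pow_le_pow_right (by omega) (by omega)
      have h7 : 0 < b ^ (L - (K + (L - K)) + 1) := Nat.pow_pos (by omega)
      omega
    rw [h1, Nat.add_mul_div_right _ _ (Nat.pow_pos (by omega)), Nat.div_eq_of_lt h3, Nat.zero_add]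
  intro x hx y hy hxy
  rw [mem_coe, mem_range] at hx hy
  rw [← key x hx, ← key y hy, hxy]

open Classical in
/-- **The sieve for the outer digits** -/
theorem outer (hOD : ODc) {b : ℕ} (hb : 2 ≤ b) (κ : ℕ) (hκ : 1 ≤ κ) : ∃ c : ℕ, 1 ≤ c ∧ ∃ δ : ℝ, 0 < δ ∧ ∀ A : ℕ, ∃ L0 : ℕ, ∀ L : ℕ, L0 ≤ L →
    ∀ K : ℕ, 1 ≤ K → 2 * K ≤ L → ∀ V : Finset ℤ, V.card ≤ κ → ∀ M : ℕ, 0 < M → M.Coprime (2 * b) → (∀ p : ℕ, p.Prime → p ∣ M → p ≤ 2 * κ) →
    ∀ n0 J : ℕ, M * (2 ^ 2 ^ J) ^ c ≤ ⌊(b : ℝ) ^ (δ * L)⌋₊ → 2 ^ 2 ^ J ≤ b ^ L →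
    ∀ G : Finset ℕ, (∀ o, o ∈ G ↔ o < b ^ (L - K) ∧ OutP b L K o % M = n0 % M ∧ ∀ l ∈ Pr κ J, ¬ l ∣ b → ¬ Qv V l (OutP b L K o)) →
    ((b : ℝ) ^ (L - K) / M / 2 * (∏ l ∈ (Pr κ J).filter (fun l => ¬ l ∣ b), (1 - (nuB (Qv V) l : ℝ) / l)) - (b : ℝ) ^ (L - K) / (L : ℝ) ^ A ≤ (G.card : ℝ)) ∧
    (G.card : ℝ) ≤ 2 * ((b : ℝ) ^ (L - K) / M) * (∏ l ∈ (Pr κ J).filter (fun l => ¬ l ∣ b), (1 - (nuB (Qv V) l : ℝ) / l)) + (b : ℝ) ^ (L - K) / (L : ℝ) ^ A := by
  obtain ⟨c, hc, hsv⟩ := svW κ hκ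
  obtain ⟨δ, hδ, hod⟩ := hOD b hb
  refine ⟨c, hc, δ, hδ, ?_⟩
  intro A
  obtain ⟨L0, hL0⟩ := hod κ (A + 2)
  refine ⟨max L0 (b + 1), ?_⟩
  intro L hL K hK hKL V hV M hM hMb hMs n0 J hJY hJb G hG
  have hL0' : L0 ≤ L := le_trans (le_max_left _ _) hL
  have hLb : b + 1 ≤ L := le_trans (le_max_right _ _) hL
  have hLr : (1 : ℝ) ≤ L := by exact_mod_cast (by omega : 1 ≤ L)
  have hLbr : (b : ℝ) ≤ L := by exact_mod_cast (by omega : b ≤ L)
  obtain ⟨F, hF⟩ : ∃ F : ℕ → ℕ, F = OutP b L K := ⟨_, rfl⟩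
  have hinj := OutP_inj (L := L) hb hK (by omega)
  rw [← hF] at hinj hG
  obtain ⟨X, hX⟩ : ∃ X : ℝ, X = (b : ℝ) ^ (L - K) := ⟨_, rfl⟩
  have hX0 : 0 ≤ X := by rw [hX]; positivity
  rw [← hX]
  obtain ⟨cn, hcn⟩ : ∃ cn : ℕ → ℕ → ℝ, cn = fun q h => |(((range (b ^ (L - K))).filter (fun o => F o ≡ h [MOD q])).card : ℝ) - X / q| := ⟨_, rfl⟩
  -- the worst class
  have hex : ∀ q : ℕ, ∃ h : ℕ, 0 < q → ∀ h', cn q h' ≤ cn q h := by
    intro q
    rcases Nat.eq_zero_or_pos q with h0 | h0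
    · exact ⟨0, fun h => absurd h (by omega)⟩
    · obtain ⟨h, -, hh⟩ := exists_max_image (range q) (cn q) ⟨0, mem_range.2 h0⟩
      refine ⟨h, fun _ h' => ?_⟩
      have h1 := hh (h' % q) (mem_range.2 (Nat.mod_lt _ h0))
      refine le_trans (le_of_eq ?_) h1
      have e : (range (b ^ (L - K))).filter (fun o => F o ≡ h' [MOD q]) = (range (b ^ (L - K))).filter (fun o => F o ≡ h' % q [MOD q]) := by
        apply filter_congr
        intro o _
        unfold Nat.ModEq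
        rw [Nat.mod_mod]
      rw [hcn]
      show |(((range (b ^ (L - K))).filter (fun o => F o ≡ h' [MOD q])).card : ℝ) - X / q| = |(((range (b ^ (L - K))).filter (fun o => F o ≡ h' % q [MOD q])).card : ℝ) - X / q|
      rw [e]
  choose hh hhh using hex
  obtain ⟨S, hS⟩ : ∃ S : Finset ℕ, S = (range (b ^ (L - K))).image F := ⟨_, rfl⟩
  have hcard : ∀ (P : ℕ → Prop) [i1 : DecidablePred P] [i2 : DecidablePred (fun o => P (F o))],
      (S.filter P).card = ((range (b ^ (L - K))).filter (fun o => P (F o))).card := by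
    intro P i1 i2
    have e : S.filter P = ((range (b ^ (L - K))).filter (fun o => P (F o))).image F := by
      ext n
      rw [hS, mem_filter, mem_image, mem_image]
      constructor
      · rintro ⟨⟨o, ho, rfl⟩, hP⟩
        exact ⟨o, mem_filter.2 ⟨ho, hP⟩, rfl⟩
      · rintro ⟨o, ho, rfl⟩
        rw [mem_filter] at ho
        exact ⟨⟨o, ho.1, rfl⟩, ho.2⟩
    rw [e]
    apply card_image_of_injOn
    intro x hx y hy hxy
    rw [mem_coe, mem_filter] at hx hy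
    exact hinj (mem_coe.2 hx.1) (mem_coe.2 hy.1) hxy
  have hmain := hsv κ (Nat.lt_two_pow_self).le b S X (fun q => cn q (hh q)) hX0 (fun q => by rw [hcn]; exact abs_nonneg _) (by
    intro q h hq
    have hq0 : 0 < q := by
      rcases Nat.eq_zero_or_pos q with h0 | h0
      · subst h0
        rw [Nat.coprime_zero_left] at hq
        omega
      · exact h0
    have h1 := hhh q hq0 h
    refine le_trans (le_of_eq ?_) h1
    rw [hcard (fun n => n % q = h % q), hcn]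
    rfl) M hM hMb hMs (Qv V) (PerB_Qv hV) n0 J ⌊(b : ℝ) ^ (δ * L)⌋₊ hJY
  have hGc : ∀ (P : ℕ → Prop) [i1 : DecidablePred P], (∀ n, P n ↔ (n % M = n0 % M ∧ ∀ l ∈ Pr κ J, ¬ l ∣ b → ¬ Qv V l n)) →
      (S.filter P).card = G.card := by
    intro P i1 hP
    have e : S.filter P = G.image F := by
      ext n
      rw [hS, mem_filter, mem_image, mem_image]
      constructor
      · rintro ⟨⟨o, ho, rfl⟩, hPo⟩
        exact ⟨o, (hG o).2 ⟨mem_range.1 ho, (hP _).1 hPo⟩, rfl⟩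
      · rintro ⟨o, ho, rfl⟩
        have := (hG o).1 ho
        exact ⟨⟨o, mem_range.2 this.1, rfl⟩, (hP _).2 this.2⟩
    rw [e]
    apply card_image_of_injOn
    intro x hx y hy hxy
    exact hinj (mem_coe.2 (mem_range.2 ((hG x).1 (mem_coe.1 hx)).1)) (mem_coe.2 (mem_range.2 ((hG y).1 (mem_coe.1 hy)).1)) hxy
  rw [hGc (fun n => n % M = n0 % M ∧ ∀ l ∈ Pr κ J, ¬ l ∣ b → ¬ Qv V l n) (fun n => Iff.rfl)] at hmain
  have herr : ∑ q ∈ (Icc 1 ⌊(b : ℝ) ^ (δ * L)⌋₊).filter (fun q => q.Coprime (2 * b)), (q.divisors.card : ℝ) ^ κ * cn q (hh q) ≤ X / (L : ℝ) ^ (A + 2) := by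
    have h1 := hL0 L hL0' K hK hKL hh
    rw [← hX, ← hF] at h1
    rw [hcn]
    exact h1
  have hLA : (0 : ℝ) < (L : ℝ) ^ A := by positivity
  have h2J : (2 : ℝ) ^ J ≤ b * L := by
    have h1 : 2 ^ 2 ^ J ≤ 2 ^ (b * L) := by
      refine hJb.trans ?_
      rw [pow_mul]
      exact Nat.pow_le_pow_left (Nat.lt_two_pow_self).le _
    have h2 := (Nat.pow_le_pow_iff_right (by norm_num : 1 < 2)).1 h1
    exact_mod_cast h2
  have hE1 : (2 : ℝ) ^ J * (X / (L : ℝ) ^ (A + 2)) ≤ X / (L : ℝ) ^ A := by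
    have h3 : (2 : ℝ) ^ J ≤ (L : ℝ) ^ 2 := by nlinarith
    calc (2 : ℝ) ^ J * (X / (L : ℝ) ^ (A + 2)) ≤ (L : ℝ) ^ 2 * (X / (L : ℝ) ^ (A + 2)) := mul_le_mul_of_nonneg_right h3 (by positivity)
      _ = X / (L : ℝ) ^ A := by
        rw [pow_add]
        field_simp
  have hE2 : X / (L : ℝ) ^ (A + 2) ≤ X / (L : ℝ) ^ A := by
    apply div_le_div_of_nonneg_left hX0 hLA
    exact pow_le_pow_right₀ hLr (by omega)
  have herr0 : (2 : ℝ) ^ J * ∑ q ∈ (Icc 1 ⌊(b : ℝ) ^ (δ * L)⌋₊).filter (fun q => q.Coprime (2 * b)), (q.divisors.card : ℝ) ^ κ * cn q (hh q) ≤ X / (L : ℝ) ^ A :=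
    (mul_le_mul_of_nonneg_left herr (by positivity)).trans hE1
  refine ⟨le_trans ?_ hmain.1, hmain.2.trans ?_⟩
  · linarith
  · linarith

end Pool.Agent.Q117.PL.SUa
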